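import Mathlib
import Pool.Agent.Lib_helper1.PD.Iter
import Pool.Agent.Lib_helper62.ND.L1Super

/-!
# `L¹` estimates: the densities `f n` and the total mass of a level of the predecessor tree
-/

set_option autoImplicit false

namespace DF

open Finset ND PD Pool.Agent.LibHelper3

/-- `L¹` convergence with a superpolynomial rate -/
theorem l1 (mix : Mixing) (A : ℕ) : ∃ C : ℝ, 0 ≤ C ∧ ∀ n n' : ℕ, 1 ≤ n → n ≤ n' →
    ∑ y ∈ range (3 ^ n'), |UKL.f n' y - UKL.f n y| ≤ (3 : ℝ) ^ n' * (C / (n : ℝ) ^ A) := by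
  obtain ⟨C, hC0, hC⟩ := l1_super mix (A + 1)
  refine ⟨2 * C, by positivity, ?_⟩
  have key : ∀ k n n' : ℕ, 1 ≤ n → n ≤ n' → n' ≤ 2 ^ k * n →
      ∑ y ∈ range (3 ^ n'), |UKL.f n' y - UKL.f n y| ≤
        (3 : ℝ) ^ n' * ((C / (n : ℝ) ^ (A + 1)) * (2 - 1 / 2 ^ k)) := by
    intro k
    induction k with
    | zero =>
      intro n n' hn hnn' h
      have : n' = n := by omega
      subst this
      have hn0 : (0 : ℝ) < n' := by exact_mod_cast hn
      simp only [sub_self, abs_zero, sum_const_zero, pow_zero, div_one]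
      have : (0 : ℝ) ≤ C / (n' : ℝ) ^ (A + 1) := by positivity
      nlinarith [show (0 : ℝ) < 3 ^ n' by positivity, mul_nonneg (show (0 : ℝ) ≤ 3 ^ n' by positivity) this]
    | succ k ih =>
      intro n n' hn hnn' h
      have hn0 : (0 : ℝ) < n := by exact_mod_cast hn
      have hpos : 0 ≤ C / (n : ℝ) ^ (A + 1) := by positivity
      have h3 : (0 : ℝ) < 3 ^ n' := by positivity
      have hk : (1 : ℝ) / 2 ^ (k + 1) ≤ 1 := by
        rw [div_le_one (by positivity)]; exact one_le_pow₀ (by norm_num)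
      rcases le_total n' (2 * n) with h2 | h2
      · refine (hC n n' hn hnn' h2).trans ?_
        refine mul_le_mul_of_nonneg_left ?_ h3.le
        nlinarith
      · have hi := ih (2 * n) n' (by omega) h2 (by
          calc n' ≤ 2 ^ (k + 1) * n := h
            _ = 2 ^ k * (2 * n) := by ring)
        have h4 := hC n (2 * n) hn (by omega) le_rfl
        have h5 : ∑ y ∈ range (3 ^ n'), |UKL.f (2 * n) y - UKL.f n y| =
            3 ^ (n' - 2 * n) * ∑ y ∈ range (3 ^ (2 * n)), |UKL.f (2 * n) y - UKL.f n y| := by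
          have e : n' = 2 * n + (n' - 2 * n) := by omega
          conv_lhs => rw [e]
          refine sum_lift_add (fun y => ?_) _
          rw [UKL.f_period]
          have e2 : 2 * n = n + n := by ring
          rw [e2, period_up (UKL.f_period n) n]
        have h6 : ∑ y ∈ range (3 ^ n'), |UKL.f n' y - UKL.f n y| ≤
            ∑ y ∈ range (3 ^ n'), |UKL.f n' y - UKL.f (2 * n) y| +
            ∑ y ∈ range (3 ^ n'), |UKL.f (2 * n) y - UKL.f n y| := by
          rw [← sum_add_distrib]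
          refine sum_le_sum fun y _ => ?_
          have := abs_add_le (UKL.f n' y - UKL.f (2 * n) y) (UKL.f (2 * n) y - UKL.f n y)
          rwa [sub_add_sub_cancel] at this
        have h7 : (3 : ℝ) ^ (n' - 2 * n) * (3 ^ (2 * n) * (C / (n : ℝ) ^ (A + 1))) =
            3 ^ n' * (C / (n : ℝ) ^ (A + 1)) := by
          rw [← mul_assoc, ← pow_add, show n' - 2 * n + 2 * n = n' by omega]
        have h8 : (3 : ℝ) ^ (n' - 2 * n) * ∑ y ∈ range (3 ^ (2 * n)), |UKL.f (2 * n) y - UKL.f n y|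
            ≤ 3 ^ n' * (C / (n : ℝ) ^ (A + 1)) := by
          rw [← h7]
          exact mul_le_mul_of_nonneg_left h4 (by positivity)
        have h9 : C / ((2 * n : ℕ) : ℝ) ^ (A + 1) ≤ (C / (n : ℝ) ^ (A + 1)) / 2 := by
          push_cast
          rw [mul_pow, div_div, mul_comm]
          apply div_le_div_of_nonneg_left hC0 (by positivity)
          have : (2 : ℝ) ≤ 2 ^ (A + 1) := by
            calc (2 : ℝ) = 2 ^ 1 := by norm_num
              _ ≤ _ := pow_le_pow_right₀ (by norm_num) (by omega)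
          nlinarith [show (0 : ℝ) < (n : ℝ) ^ (A + 1) by positivity]
        have h10 : (0 : ℝ) ≤ 2 - 1 / 2 ^ k := by
          have : (1 : ℝ) / 2 ^ k ≤ 1 := by
            rw [div_le_one (by positivity)]; exact one_le_pow₀ (by norm_num)
          linarith
        have h11 : C / ((2 * n : ℕ) : ℝ) ^ (A + 1) * (2 - 1 / 2 ^ k) ≤
            (C / (n : ℝ) ^ (A + 1)) / 2 * (2 - 1 / 2 ^ k) := mul_le_mul_of_nonneg_right h9 h10
        have h12 : (3 : ℝ) ^ n' * (C / ((2 * n : ℕ) : ℝ) ^ (A + 1) * (2 - 1 / 2 ^ k)) ≤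
            3 ^ n' * ((C / (n : ℝ) ^ (A + 1)) / 2 * (2 - 1 / 2 ^ k)) :=
          mul_le_mul_of_nonneg_left h11 h3.le
        have h13 : (3 : ℝ) ^ n' * ((C / (n : ℝ) ^ (A + 1)) * (2 - 1 / 2 ^ (k + 1))) =
            3 ^ n' * ((C / (n : ℝ) ^ (A + 1)) / 2 * (2 - 1 / 2 ^ k)) +
            3 ^ n' * (C / (n : ℝ) ^ (A + 1)) := by
          rw [pow_succ]; field_simp; ring
        rw [h13]
        rw [h5] at h6
        linarith
  intro n n' hn hnn'
  have hn0 : (1 : ℝ) ≤ n := by exact_mod_cast hn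
  have h1 := key n' n n' hn hnn' (by
    calc n' ≤ 2 ^ n' := Nat.lt_two_pow_self.le
      _ = 2 ^ n' * 1 := by ring
      _ ≤ _ := Nat.mul_le_mul_left _ hn)
  refine h1.trans (mul_le_mul_of_nonneg_left ?_ (by positivity))
  have h2 : C / (n : ℝ) ^ (A + 1) ≤ C / (n : ℝ) ^ A :=
    div_le_div_of_nonneg_left hC0 (by positivity) (pow_le_pow_right₀ hn0 (by omega))
  have h3 : (2 : ℝ) - 1 / 2 ^ n' ≤ 2 := by
    have : (0 : ℝ) < 1 / 2 ^ n' := by positivity
    linarith
  have h4 : 0 ≤ C / (n : ℝ) ^ (A + 1) := by positivity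
  calc C / (n : ℝ) ^ (A + 1) * (2 - 1 / 2 ^ n') ≤ C / (n : ℝ) ^ (A + 1) * 2 :=
        mul_le_mul_of_nonneg_left h3 h4
    _ ≤ C / (n : ℝ) ^ A * 2 := by linarith
    _ = 2 * C / (n : ℝ) ^ A := by ring

/-- upward words that can be applied, in terms of offsets -/
theorem val_iff (v : List Bool) : ∀ y : ℕ,
    PD.val v y ↔ uo v % 3 ^ ones v = 2 ^ v.length * y % 3 ^ ones v := by
  induction v with
  | nil => intro y; simp [PD.val, ones, Nat.mod_one]
  | cons x v ih =>
    intro y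
    cases x
    · rw [val_false, ih, uo_false, ones_false, List.length_cons]
      have : 2 ^ (v.length + 1) * y = 2 ^ v.length * (2 * y) := by ring
      rw [this]
    · rw [val_true, ih, uo_true, ones_true, List.length_cons, step_iff]

theorem sum_words_reverse {M : Type*} [AddCommMonoid M] (t : ℕ) (F : List Bool → M) :
    ∑ w ∈ words t, F w.reverse = ∑ w ∈ words t, F w := by
  refine sum_nbij' (fun w => w.reverse) (fun w => w.reverse) ?_ ?_ ?_ ?_ ?_
  · intro w hw; rw [mem_words] at hw ⊢; rw [List.length_reverse, hw]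
  · intro w hw; rw [mem_words] at hw ⊢; rw [List.length_reverse, hw]
  · intro w _; simp
  · intro w _; simp
  · intro w _; rfl

/-- total mass of the level `s` over the node `y` -/
noncomputable def S1 (s y : ℕ) : ℝ := ∑ v ∈ words s, T v (fun _ => 1) y

theorem S1_nonneg (s y : ℕ) : 0 ≤ S1 s y :=
  sum_nonneg fun _ _ => T_nonneg (fun _ => zero_le_one) y

theorem S1_eq_off (s y : ℕ) : S1 s y = ∑ w ∈ words s,
    if off w % 3 ^ ones w = 2 ^ s * y % 3 ^ ones w then (3 : ℝ) ^ ones w / 2 ^ s else 0 := by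
  unfold S1
  rw [← sum_words_reverse s (fun w => if off w % 3 ^ ones w = 2 ^ s * y % 3 ^ ones w then
    (3 : ℝ) ^ ones w / 2 ^ s else 0)]
  refine sum_congr rfl fun v hv => ?_
  rw [mem_words] at hv
  unfold T
  simp only [mul_one, ones_reverse]
  have h := val_iff v y
  unfold uo at h
  rw [hv] at h
  rw [hv]
  by_cases hc : PD.val v y
  · rw [if_pos hc, if_pos (h.1 hc)]
  · rw [if_neg hc, if_neg (fun h2 => hc (h.2 h2))]

theorem S1_eq_K (s y : ℕ) : S1 s y = ∑ p ∈ range (s + 1), (3 : ℝ) ^ p / 2 ^ s * K s p p y := by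
  rw [S1_eq_off, sum_by_ones]
  refine sum_congr rfl fun p _ => ?_
  have h1 : ∑ w ∈ (words s).filter (fun w => ones w = p),
      (if off w % 3 ^ ones w = 2 ^ s * y % 3 ^ ones w then (3 : ℝ) ^ ones w / 2 ^ s else 0) =
      ∑ w ∈ (words s).filter (fun w => ones w = p),
      (if off w % 3 ^ p = 2 ^ s * y % 3 ^ p then (3 : ℝ) ^ p / 2 ^ s else 0) := by
    refine sum_congr rfl fun w hw => ?_
    rw [mem_filter] at hw
    rw [hw.2]
  rw [h1, ← sum_filter, filter_filter, sum_const, nsmul_eq_mul]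
  unfold K
  ring

theorem S1_period (s y : ℕ) : S1 s (y + 3 ^ s) = S1 s y := by
  unfold S1
  refine sum_congr rfl fun v hv => ?_
  rw [mem_words] at hv
  have : ones v ≤ s := by have := ones_le v; omega
  exact T_period this (fun _ => rfl) y

theorem S1_sub_g (s r : ℕ) (hr : r ≤ s) :
    ∑ y ∈ range (3 ^ s), |S1 s y - UKL.g s r y| ≤ (3 : ℝ) ^ s / 2 ^ s * Err s r := by
  have h0 : ∀ y, S1 s y - UKL.g s r y = ∑ p ∈ range r, (3 : ℝ) ^ p / 2 ^ s * K s p p y +
      ∑ p ∈ Icc r s, (3 : ℝ) ^ p / 2 ^ s * ((K s p p y : ℝ) - K s p r y / 3 ^ (p - r)) := by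
    intro y
    rw [S1_eq_K, g_eq_K]
    have e : range (s + 1) = range r ∪ Icc r s := by
      ext p; simp only [mem_range, mem_union, mem_Icc]; omega
    have hd : Disjoint (range r) (Icc r s) := by
      rw [disjoint_left]; intro p h1 h2; rw [mem_range] at h1; rw [mem_Icc] at h2; omega
    rw [e, sum_union hd, add_sub_assoc, mul_sum, ← sum_sub_distrib]
    congr 1
    refine sum_congr rfl fun p hp => ?_
    rw [mem_Icc] at hp
    have e2 : (3 : ℝ) ^ p = 3 ^ r * 3 ^ (p - r) := by rw [← pow_add]; congr 1; omega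
    rw [e2]; field_simp
  have h1 : ∀ y ∈ range (3 ^ s), |S1 s y - UKL.g s r y| ≤
      ∑ p ∈ range r, (3 : ℝ) ^ p / 2 ^ s * K s p p y +
      ∑ p ∈ Icc r s, (3 : ℝ) ^ p / 2 ^ s * |(K s p p y : ℝ) - K s p r y / 3 ^ (p - r)| := by
    intro y _
    rw [h0]
    refine (abs_add_le _ _).trans (add_le_add ?_ ?_)
    · rw [abs_of_nonneg (sum_nonneg fun p _ => by positivity)]
    · refine (abs_sum_le_sum_abs _ _).trans (le_of_eq ?_)
      refine sum_congr rfl fun p _ => ?_
      rw [abs_mul, abs_of_nonneg (by positivity : (0 : ℝ) ≤ (3 : ℝ) ^ p / 2 ^ s)]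
  refine (sum_le_sum h1).trans ?_
  rw [sum_add_distrib, sum_comm, sum_comm (s := range (3 ^ s)) (t := Icc r s)]
  unfold Err
  rw [mul_add]
  refine add_le_add ?_ ?_
  · rw [mul_sum]
    refine sum_le_sum fun p hp => ?_
    rw [mem_range] at hp
    rw [← mul_sum]
    have e : s = p + (s - p) := by omega
    have h2 : ∑ y ∈ range (3 ^ s), (K s p p y : ℝ) = 3 ^ (s - p) * ∑ y ∈ range (3 ^ p), (K s p p y : ℝ) := by
      have h3 := sum_lift_add (r := p) (F := fun y => (K s p p y : ℝ))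
        (fun y => by simp only [PD.K_period]) (s - p)
      rw [show p + (s - p) = s by omega] at h3
      exact h3
    rw [h2]
    have h3 := sum_K_le s p p
    have e3 : (3 : ℝ) ^ s = 3 ^ p * 3 ^ (s - p) := by rw [← pow_add]; congr 1
    rw [e3]
    calc (3 : ℝ) ^ p / 2 ^ s * (3 ^ (s - p) * ∑ y ∈ range (3 ^ p), (K s p p y : ℝ))
        ≤ (3 : ℝ) ^ p / 2 ^ s * (3 ^ (s - p) * (s.choose p : ℝ)) := by gcongr
      _ = _ := by ring
  · rw [mul_sum]
    refine sum_le_sum fun p hp => ?_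
    rw [mem_Icc] at hp
    rw [← mul_sum]
    have h2 : ∑ y ∈ range (3 ^ s), |(K s p p y : ℝ) - K s p r y / 3 ^ (p - r)| =
        3 ^ (s - p) * ∑ y ∈ range (3 ^ p), |(K s p p y : ℝ) - K s p r y / 3 ^ (p - r)| := by
      have h3 := sum_lift_add (r := p) (F := fun y => |(K s p p y : ℝ) - K s p r y / 3 ^ (p - r)|)
        (fun y => by simp only [PD.K_period, K_period_le s p y hp.1]) (s - p)
      rw [show p + (s - p) = s by omega] at h3
      exact h3
    rw [h2]
    have e3 : (3 : ℝ) ^ s = 3 ^ p * 3 ^ (s - p) := by rw [← pow_add]; congr 1; omega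
    rw [e3]
    exact le_of_eq (by ring)

/-- the total mass of the level `s` is close to `f J`, `s ≤ J` -/
theorem l1_S1 (mix : Mixing) (A : ℕ) : ∃ C : ℝ, 0 ≤ C ∧ ∀ s J : ℕ, 3 ≤ s → s ≤ J →
    ∑ y ∈ range (3 ^ J), |UKL.f J y - S1 s y| ≤ (3 : ℝ) ^ J * (C / (s : ℝ) ^ A) := by
  obtain ⟨C1, hC1, h1⟩ := l1 mix A
  obtain ⟨C2, hC2, h2⟩ := Err_bound mix A
  obtain ⟨C3, hC3, h3⟩ := exp_poly' (99 / 100) (by norm_num) (by norm_num) A
  refine ⟨C1 * 4 ^ A + C2 + C3, by positivity, fun s J hs hJ => ?_⟩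
  have hs0 : (0 : ℝ) < s := by exact_mod_cast (by omega : 0 < s)
  set r := 2 * s / 5 with hr
  have hr1 : 1 ≤ r := by omega
  have hrs : r ≤ s := by omega
  have hsr : (s : ℝ) ≤ 4 * r := by exact_mod_cast (by omega : s ≤ 4 * r)
  have hr0 : (0 : ℝ) < r := by exact_mod_cast hr1
  have a1 := h1 r J hr1 (by omega)
  have a2 : ∑ y ∈ range (3 ^ J), |UKL.f r y - UKL.g s r y| ≤ (3 : ℝ) ^ J * (C3 / (s : ℝ) ^ A) := by
    have e : ∑ y ∈ range (3 ^ J), |UKL.f r y - UKL.g s r y| =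
        3 ^ (J - r) * ∑ y ∈ range (3 ^ r), (UKL.f r y - UKL.g s r y) := by
      have h4 := sum_lift_add (r := r) (F := fun y => UKL.f r y - UKL.g s r y)
        (fun y => by simp only [UKL.f_period, UKL.g_period]) (J - r)
      rw [show r + (J - r) = J by omega] at h4
      rw [← h4]
      refine sum_congr rfl fun y _ => abs_of_nonneg ?_
      have := UKL.g_le_f s r y
      linarith
    rw [e]
    have h5 := UKL.sum_f_sub_g s r
    have h6 : (2 : ℝ) ^ r * (3 / 4) ^ s ≤ C3 / (s : ℝ) ^ A := by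
      refine le_trans ?_ (h3 s (by omega))
      have h7 : ((2 : ℝ) ^ r * (3 / 4) ^ s) ^ 5 ≤ ((99 / 100) ^ s) ^ 5 := by
        calc ((2 : ℝ) ^ r * (3 / 4) ^ s) ^ 5 = 2 ^ (5 * r) * ((3 / 4) ^ 5) ^ s := by
              rw [mul_pow, ← pow_mul, ← pow_mul, ← pow_mul, mul_comm r 5, mul_comm s 5]
          _ ≤ 2 ^ (2 * s) * ((3 / 4) ^ 5) ^ s := by
              exact mul_le_mul_of_nonneg_right (pow_le_pow_right₀ (by norm_num) (by omega))
                (by positivity)
          _ = (2 ^ 2 * (3 / 4) ^ 5) ^ s := by rw [pow_mul, mul_pow]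
          _ ≤ ((99 / 100) ^ 5) ^ s := by
              apply pow_le_pow_left₀ (by norm_num)
              norm_num
          _ = ((99 / 100) ^ s) ^ 5 := by rw [← pow_mul, ← pow_mul, mul_comm]
      exact le_of_pow_le_pow_left₀ (by norm_num) (by positivity) h7
    have e3 : (3 : ℝ) ^ J = 3 ^ (J - r) * 3 ^ r := by rw [← pow_add]; congr 1; omega
    rw [e3]
    calc (3 : ℝ) ^ (J - r) * ∑ y ∈ range (3 ^ r), (UKL.f r y - UKL.g s r y)
        ≤ (3 : ℝ) ^ (J - r) * (3 ^ r * (2 ^ r * (3 / 4) ^ s)) := by gcongr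
      _ ≤ (3 : ℝ) ^ (J - r) * (3 ^ r * (C3 / (s : ℝ) ^ A)) := by gcongr
      _ = _ := by ring
  have a3 : ∑ y ∈ range (3 ^ J), |S1 s y - UKL.g s r y| ≤ (3 : ℝ) ^ J * (C2 / (s : ℝ) ^ A) := by
    have e : ∑ y ∈ range (3 ^ J), |S1 s y - UKL.g s r y| =
        3 ^ (J - s) * ∑ y ∈ range (3 ^ s), |S1 s y - UKL.g s r y| := by
      have h4 := sum_lift_add (r := s) (F := fun y => |S1 s y - UKL.g s r y|)
        (fun y => by
          have : UKL.g s r (y + 3 ^ s) = UKL.g s r y := by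
            have e : s = r + (s - r) := by omega
            have h5 := period_up (r := r) (F := UKL.g s r) (UKL.g_period s r) (s - r) y
            rwa [← e] at h5
          simp only [S1_period, this]) (J - s)
      rw [show s + (J - s) = J by omega] at h4
      exact h4
    rw [e]
    have h5 := S1_sub_g s r hrs
    have h6 := h2 s r (by omega) (by omega) (by omega)
    have e3 : (3 : ℝ) ^ J = 3 ^ (J - s) * 3 ^ s := by rw [← pow_add]; congr 1; omega
    rw [e3]
    calc (3 : ℝ) ^ (J - s) * ∑ y ∈ range (3 ^ s), |S1 s y - UKL.g s r y|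
        ≤ (3 : ℝ) ^ (J - s) * (3 ^ s / 2 ^ s * Err s r) := by gcongr
      _ ≤ (3 : ℝ) ^ (J - s) * (3 ^ s / 2 ^ s * (C2 * 2 ^ s / (s : ℝ) ^ A)) := by gcongr
      _ = _ := by field_simp
  have h7 : C1 / (r : ℝ) ^ A ≤ C1 * 4 ^ A / (s : ℝ) ^ A := by
    rw [div_le_div_iff₀ (by positivity) (by positivity), mul_assoc, ← mul_pow]
    gcongr
  have a1' : ∑ y ∈ range (3 ^ J), |UKL.f J y - UKL.f r y| ≤
      (3 : ℝ) ^ J * (C1 * 4 ^ A / (s : ℝ) ^ A) := by
    refine a1.trans ?_
    gcongr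
  calc ∑ y ∈ range (3 ^ J), |UKL.f J y - S1 s y|
      ≤ ∑ y ∈ range (3 ^ J), (|UKL.f J y - UKL.f r y| + |UKL.f r y - UKL.g s r y| +
          |S1 s y - UKL.g s r y|) := by
        refine sum_le_sum fun y _ => ?_
        have e : UKL.f J y - S1 s y = (UKL.f J y - UKL.f r y) + (UKL.f r y - UKL.g s r y) -
          (S1 s y - UKL.g s r y) := by ring
        rw [e]
        refine (abs_sub _ _).trans ?_
        have := abs_add_le (UKL.f J y - UKL.f r y) (UKL.f r y - UKL.g s r y)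
        linarith
    _ = ∑ y ∈ range (3 ^ J), |UKL.f J y - UKL.f r y| + ∑ y ∈ range (3 ^ J), |UKL.f r y - UKL.g s r y|
        + ∑ y ∈ range (3 ^ J), |S1 s y - UKL.g s r y| := by
        rw [sum_add_distrib, sum_add_distrib]
    _ ≤ (3 : ℝ) ^ J * (C1 * 4 ^ A / (s : ℝ) ^ A) + (3 : ℝ) ^ J * (C3 / (s : ℝ) ^ A) +
        (3 : ℝ) ^ J * (C2 / (s : ℝ) ^ A) := by linarith
    _ = _ := by ring

end DF
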