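import Mathlib
import Pool.Agent.Lib_helper1.DF.L1
import Pool.Agent.Lib_helper1.PD.Short

/-!
# Uniform lower bounds: level masses and densities
-/

set_option autoImplicit false

namespace DF

open Finset ND PD Pool.Agent.LibHelper3 Filter Topology

/-- iteration of the chain, with scales independent of the root -/
theorem iterate' (mix : Mixing) : ∃ T0 : ℕ, ∀ t0 : ℕ, T0 ≤ t0 →
    ∀ X : ℕ, ∃ t : ℕ, X ≤ t ∧ ∀ a : ℕ, 1 / 2 ≤ Q t0 (2 * (t0 / 70)) a →
      1 / 4 ≤ Q t (2 * (t / 70)) a := by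
  obtain ⟨K, hK0, hK⟩ := PD.chain mix
  obtain ⟨T1, hT1⟩ := exists_nat_ge (4 * K)
  refine ⟨max 210 (T1 + 1), fun t0 ht0 => ?_⟩
  have h210 : 210 ≤ t0 := (le_max_left _ _).trans ht0
  have hT1' : T1 + 1 ≤ t0 := (le_max_right _ _).trans ht0
  have key : ∀ i : ℕ, ∃ t : ℕ, t0 + i ≤ t ∧ ∀ a : ℕ, 1 / 2 ≤ Q t0 (2 * (t0 / 70)) a →
      1 / 4 + K / t ≤ Q t (2 * (t / 70)) a := by
    intro i
    induction i with
    | zero =>
      refine ⟨t0, le_rfl, fun a h0 => ?_⟩
      have h1 : 4 * K ≤ t0 := hT1.trans (by exact_mod_cast (by omega : T1 ≤ t0))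
      have h2 : (0 : ℝ) < t0 := by exact_mod_cast (by omega : 0 < t0)
      have h3 : K / t0 ≤ 1 / 4 := by rw [div_le_iff₀ h2]; linarith
      linarith
    | succ i ih =>
      obtain ⟨t, ht, hqa⟩ := ih
      have hs : 3 ≤ t / 70 := by omega
      refine ⟨t + t / 70, by omega, fun a h0 => ?_⟩
      have hq := hqa a h0
      have h1 := hK t (by omega) a
      have ht2 : (2 : ℝ) ≤ t := by exact_mod_cast (by omega : 2 ≤ t)
      have hsr : (3 : ℝ) ≤ ((t / 70 : ℕ) : ℝ) := by exact_mod_cast hs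
      have h2 : K / ((t + t / 70 : ℕ) : ℝ) + K / (t : ℝ) ^ 2 ≤ K / t := by
        have h3 : 1 / ((t + t / 70 : ℕ) : ℝ) + 1 / (t : ℝ) ^ 2 ≤ 1 / t := by
          push_cast
          rw [div_add_div _ _ (by positivity) (by positivity), div_le_div_iff₀ (by positivity)
            (by positivity)]
          nlinarith [mul_nonneg (by linarith : (0 : ℝ) ≤ t) (by linarith : (0 : ℝ) ≤ ((t / 70 : ℕ) : ℝ) - 3)]
        calc K / ((t + t / 70 : ℕ) : ℝ) + K / (t : ℝ) ^ 2
            = K * (1 / ((t + t / 70 : ℕ) : ℝ) + 1 / (t : ℝ) ^ 2) := by ring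
          _ ≤ K * (1 / t) := by gcongr
          _ = K / t := by ring
      linarith
  intro X
  obtain ⟨t, ht, hq⟩ := key X
  refine ⟨t, by omega, fun a h0 => ?_⟩
  have : 0 ≤ K / (t : ℝ) := by positivity
  have := hq a h0
  linarith

/-- from the weighted count to the mass of later levels -/
theorem Q_le_S1 {t s J : ℕ} (hsJ : s ≤ J) (hJ : 35 * J ≤ t) (a : ℕ) :
    Q t J a ≤ S1 (t + s) a + (t + 1) * (t + 2) * mean J (fun y => |UKL.f J y - S1 s y|) := by
  set D : ℕ → ℝ := fun y => |UKL.f J y - S1 s y| with hD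
  have hS1p : ∀ y, S1 s (y + 3 ^ J) = S1 s y := by
    intro y
    have e : J = s + (J - s) := by omega
    rw [e]
    exact period_up (S1_period s) _ y
  have hDp : ∀ y, D (y + 3 ^ J) = D y := by
    intro y
    simp only [hD, UKL.f_period, hS1p]
  have h1 : Q t J a ≤ ∑ u ∈ W t, (T u (S1 s) a + T u D a) := by
    unfold Q
    refine sum_le_sum fun u _ => ?_
    rw [← T_add]
    refine T_mono (fun y => ?_) a
    have := le_abs_self (UKL.f J y - S1 s y)
    simp only [hD]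
    linarith
  rw [sum_add_distrib] at h1
  have h2 := spread (t := t) hJ hDp (fun y => abs_nonneg _) a
  have h3 : ∑ u ∈ W t, T u (S1 s) a ≤ S1 (t + s) a := by
    unfold S1
    rw [sum_words_add]
    calc ∑ u ∈ W t, T u (fun y => ∑ v ∈ words s, T v (fun _ => 1) y) a
        = ∑ u ∈ W t, ∑ v ∈ words s, T (u ++ v) (fun _ => 1) a := by
          refine sum_congr rfl fun u _ => ?_
          rw [T_sum]
          refine sum_congr rfl fun v _ => ?_
          rw [T_append]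
      _ ≤ _ := by
          unfold W
          exact sum_le_sum_of_subset_of_nonneg (filter_subset _ _)
            (fun u _ _ => sum_nonneg fun v _ => T_nonneg (fun _ => zero_le_one) a)
  linarith

/-- one residue class all of whose elements have large level masses at common levels -/
theorem class_mass (mix : Mixing) : ∃ R a0 : ℕ, 1 ≤ R ∧ a0 % 3 ≠ 0 ∧ ∀ X : ℕ, ∃ t : ℕ, X ≤ t ∧
    ∀ a : ℕ, a ≡ a0 [MOD 3 ^ R] → ∀ s : ℕ, t ≤ 140 * s → 70 * s ≤ t → 1 / 8 ≤ S1 (t + s) a := by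
  obtain ⟨T0, hT0⟩ := iterate' mix
  obtain ⟨t1, ht1⟩ := start
  obtain ⟨C, hC0, hC⟩ := l1_S1 mix 3
  obtain ⟨a0, ha0, hQ0⟩ := ht1 (max (max T0 t1) 1) ((le_max_right _ _).trans (le_max_left _ _))
  set t0 := max (max T0 t1) 1 with ht0
  have ht01 : 1 ≤ t0 := le_max_right _ _
  obtain ⟨Y, hY⟩ := exists_nat_ge (8 * 142 ^ 2 * C)
  refine ⟨t0 + 2 * (t0 / 70), a0, by omega, ha0, fun X => ?_⟩
  obtain ⟨t, ht, hq⟩ := hT0 t0 ((le_max_left _ _).trans (le_max_left _ _)) (max X (140 * (Y + 3)))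
  have htX : X ≤ t := (le_max_left _ _).trans ht
  have htY : 140 * (Y + 3) ≤ t := (le_max_right _ _).trans ht
  refine ⟨t, htX, fun a ha s hs1 hs2 => ?_⟩
  have h1 : 1 / 4 ≤ Q t (2 * (t / 70)) a := hq a (by rw [Q_congr ha]; exact hQ0)
  have h2 := Q_le_S1 (t := t) (s := s) (J := 2 * (t / 70)) (by omega) (by omega) a
  have hs3 : Y + 3 ≤ s := by omega
  have h3 := hC s (2 * (t / 70)) (by omega) (by omega)
  have hsr : (0 : ℝ) < s := by exact_mod_cast (by omega : 0 < s)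
  have h4 : mean (2 * (t / 70)) (fun y => |UKL.f (2 * (t / 70)) y - S1 s y|) ≤ C / (s : ℝ) ^ 3 := by
    unfold mean
    rw [div_le_iff₀ (by positivity)]
    exact h3.trans (le_of_eq (mul_comm _ _))
  have h5 : ((t : ℝ) + 1) * (t + 2) ≤ (142 * s) * (142 * s) := by
    have e1 : (t : ℝ) + 1 ≤ 142 * s := by
      have : t + 1 ≤ 142 * s := by omega
      exact_mod_cast this
    have e2 : (t : ℝ) + 2 ≤ 142 * s := by
      have : t + 2 ≤ 142 * s := by omega
      exact_mod_cast this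
    gcongr
  have h6 : ((t : ℝ) + 1) * (t + 2) * (C / (s : ℝ) ^ 3) ≤ 1 / 8 := by
    calc ((t : ℝ) + 1) * (t + 2) * (C / (s : ℝ) ^ 3) ≤ (142 * s) * (142 * s) * (C / (s : ℝ) ^ 3) := by
          gcongr
      _ = 142 ^ 2 * C / s := by field_simp
      _ ≤ 1 / 8 := by
          rw [div_le_div_iff₀ hsr (by norm_num)]
          have : (Y : ℝ) ≤ s := by exact_mod_cast (by omega : Y ≤ s)
          linarith
  have h7 : ((t : ℝ) + 1) * (t + 2) * mean (2 * (t / 70)) (fun y => |UKL.f (2 * (t / 70)) y - S1 s y|)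
      ≤ 1 / 8 := by
    refine le_trans ?_ h6
    gcongr
  linarith

/-- every unit class is moved to a given one by a bounded power of `2` -/
theorem unit_class (R a0 : ℕ) (hR : 1 ≤ R) (h0 : a0 % 3 ≠ 0) :
    ∃ kmax : ℕ, ∀ b : ℕ, b % 3 ≠ 0 → ∃ k ≤ kmax, 2 ^ k * b ≡ a0 [MOD 3 ^ R] := by
  have h : ∀ r : ℕ, ∃ k : ℕ, r % 3 ≠ 0 → 2 ^ k * r ≡ a0 [MOD 3 ^ R] := by
    intro r
    by_cases hr : r % 3 ≠ 0
    · obtain ⟨k, hk⟩ := exists_two_pow R r a0 hr h0
      exact ⟨k, fun _ => hk⟩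
    · exact ⟨0, fun h => absurd h hr⟩
  choose k hk using h
  refine ⟨(range (3 ^ R)).sup k, fun b hb => ?_⟩
  have hb2 : (b % 3 ^ R) % 3 = b % 3 := Nat.mod_mod_of_dvd b (dvd_pow_self 3 (by omega))
  refine ⟨k (b % 3 ^ R), le_sup (mem_range.2 (Nat.mod_lt _ (by positivity))), ?_⟩
  have h1 := hk (b % 3 ^ R) (by rw [hb2]; exact hb)
  exact (Nat.ModEq.mul_left _ (Nat.mod_modEq b (3 ^ R)).symm).trans h1

/-- `f n (y) ≥ 2^{-k} f n (2^k y)` -/
theorem f_two_pow (n k : ℕ) : ∀ y : ℕ, (1 / 2) ^ k * UKL.f n (2 ^ k * y) ≤ UKL.f n y := by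
  induction k with
  | zero => intro y; simp
  | succ k ih =>
    intro y
    have h1 := ih y
    have h2 : (1 / 2) * UKL.f n (2 * (2 ^ k * y)) ≤ UKL.f n (2 ^ k * y) := by
      cases n with
      | zero => simp only [UKL.f_zero]; norm_num
      | succ n =>
        rw [UKL.f_succ n (2 ^ k * y)]
        have : 0 ≤ (if 2 ^ k * y % 3 = 2 then (3 / 2) * UKL.f n ((2 * (2 ^ k * y) - 1) / 3) else 0) := by
          split_ifs
          · have := UKL.f_nonneg n ((2 * (2 ^ k * y) - 1) / 3)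
            positivity
          · exact le_rfl
        linarith
    have e : 2 ^ (k + 1) * y = 2 * (2 ^ k * y) := by ring
    rw [e, pow_succ]
    have h3 : (0 : ℝ) ≤ (1 / 2) ^ k := by positivity
    nlinarith

/-- lower bound for the densities: they are at least an absolute constant on units -/
theorem f_lower (mix : Mixing) : ∃ c : ℝ, 0 < c ∧ ∀ m b : ℕ, b % 3 ≠ 0 → c ≤ UKL.f m b := by
  obtain ⟨R, a0, hR, ha0, hmass⟩ := class_mass mix
  obtain ⟨kmax, hk⟩ := unit_class R a0 hR ha0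
  obtain ⟨C, hC0, hC⟩ := l1_S1 mix 1
  -- large moduli, good class
  have step1 : ∀ m b : ℕ, R ≤ m → b ≡ a0 [MOD 3 ^ R] → 1 / 8 ≤ UKL.f m b := by
    intro m b hm hb
    by_contra hcon
    rw [not_le] at hcon
    obtain ⟨X, hX⟩ := exists_nat_gt (3 ^ m * C / (1 / 8 - UKL.f m b))
    obtain ⟨t, ht, hS⟩ := hmass (max X (140 * (m + 3)))
    have htX : X ≤ t := (le_max_left _ _).trans ht
    have htm : 140 * (m + 3) ≤ t := (le_max_right _ _).trans ht
    set s := t / 70 with hs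
    set J := t + s with hJ
    have hpos : 0 < 1 / 8 - UKL.f m b := by linarith
    have hJ0 : (0 : ℝ) < J := by exact_mod_cast (by omega : 0 < J)
    set b' := b % 3 ^ m with hb'
    have hbb : b' ≡ b [MOD 3 ^ m] := Nat.mod_modEq b (3 ^ m)
    have hfb : UKL.f m b' = UKL.f m b := UKL.f_congr hbb
    have h1 := UKL.f_consistency_sum m (J - m) b'
    rw [show m + (J - m) = J by omega, hfb] at h1
    have h2 := hC J J (by omega) le_rfl
    have h3 : ∑ j ∈ range (3 ^ (J - m)), |UKL.f J (b' + 3 ^ m * j) - S1 J (b' + 3 ^ m * j)| ≤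
        ∑ y ∈ range (3 ^ J), |UKL.f J y - S1 J y| := by
      have hinj : ∀ i ∈ range (3 ^ (J - m)), ∀ j ∈ range (3 ^ (J - m)),
          b' + 3 ^ m * i = b' + 3 ^ m * j → i = j := by
        intro i _ j _ h
        have : 3 ^ m * i = 3 ^ m * j := by omega
        exact Nat.eq_of_mul_eq_mul_left (by positivity) this
      rw [← sum_image (f := fun y => |UKL.f J y - S1 J y|) (g := fun j => b' + 3 ^ m * j) hinj]
      refine sum_le_sum_of_subset_of_nonneg ?_ (fun _ _ _ => abs_nonneg _)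
      intro y hy
      rw [mem_image] at hy
      obtain ⟨j, hj, rfl⟩ := hy
      rw [mem_range] at hj ⊢
      have hb'lt : b' < 3 ^ m := Nat.mod_lt _ (by positivity)
      calc b' + 3 ^ m * j < 3 ^ m + 3 ^ m * j := by omega
        _ = 3 ^ m * (j + 1) := by ring
        _ ≤ 3 ^ m * 3 ^ (J - m) := Nat.mul_le_mul_left _ hj
        _ = 3 ^ J := by rw [← pow_add]; congr 1; omega
    have h4 : ∀ j ∈ range (3 ^ (J - m)), 1 / 8 - |UKL.f J (b' + 3 ^ m * j) - S1 J (b' + 3 ^ m * j)|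
        ≤ UKL.f J (b' + 3 ^ m * j) := by
      intro j _
      have hcl : b' + 3 ^ m * j ≡ a0 [MOD 3 ^ R] := by
        have hd : 3 ^ R ∣ 3 ^ m := pow_dvd_pow 3 hm
        have e1 : b' + 3 ^ m * j ≡ b + 0 [MOD 3 ^ R] := by
          refine Nat.ModEq.add (hbb.of_dvd hd) ?_
          exact (Nat.modEq_zero_iff_dvd).2 (Dvd.dvd.mul_right hd j)
        simpa using e1.trans hb
      have h5 := hS (b' + 3 ^ m * j) hcl s (by omega) (by omega)
      have h6 := neg_abs_le (UKL.f J (b' + 3 ^ m * j) - S1 J (b' + 3 ^ m * j))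
      rw [← hJ] at h5
      linarith
    have h5 := sum_le_sum h4
    rw [sum_sub_distrib, sum_const, card_range, nsmul_eq_mul, h1] at h5
    have h6 : (0 : ℝ) < 3 ^ (J - m) := by positivity
    have e : (3 : ℝ) ^ J = 3 ^ (J - m) * 3 ^ m := by rw [← pow_add]; congr 1; omega
    rw [e, pow_one] at h2
    push_cast at h5
    have h7 : (3 : ℝ) ^ (J - m) * (1 / 8 - UKL.f m b) ≤ 3 ^ (J - m) * (3 ^ m * (C / J)) := by
      have : (3 : ℝ) ^ (J - m) * 3 ^ m * (C / J) = 3 ^ (J - m) * (3 ^ m * (C / J)) := by ring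
      linarith
    have h8 := le_of_mul_le_mul_left h7 h6
    have h9 : (3 : ℝ) ^ m * (C / J) < 1 / 8 - UKL.f m b := by
      rw [div_lt_iff₀ hpos] at hX
      rw [← mul_div_assoc, div_lt_iff₀ hJ0]
      have : (X : ℝ) ≤ J := by exact_mod_cast (by omega : X ≤ J)
      nlinarith
    linarith
  -- large moduli, all units
  have step2 : ∀ m b : ℕ, R ≤ m → b % 3 ≠ 0 → (1 / 2) ^ kmax * (1 / 8) ≤ UKL.f m b := by
    intro m b hm hb
    obtain ⟨k, hk1, hk2⟩ := hk b hb
    have h1 := step1 m (2 ^ k * b) hm hk2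
    have h2 := f_two_pow m k b
    have h3 : (1 / 2 : ℝ) ^ kmax ≤ (1 / 2) ^ k := pow_le_pow_of_le_one (by norm_num) (by norm_num) hk1
    calc (1 / 2 : ℝ) ^ kmax * (1 / 8) ≤ (1 / 2) ^ k * UKL.f m (2 ^ k * b) := by gcongr
      _ ≤ _ := h2
  refine ⟨(1 / 2) ^ kmax * (1 / 8) / 2, by positivity, fun m b hb => ?_⟩
  have hc0 : (0 : ℝ) < (1 / 2) ^ kmax * (1 / 8) := by positivity
  rcases le_total R m with hm | hm
  · have := step2 m b hm hb
    linarith
  · rcases Nat.eq_zero_or_pos m with rfl | hm1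
    · rw [UKL.f_zero]
      have : (1 / 2 : ℝ) ^ kmax ≤ 1 := pow_le_one₀ (by norm_num) (by norm_num)
      linarith
    · have h1 := UKL.f_consistency_sum m (R - m) b
      rw [show m + (R - m) = R by omega] at h1
      have h2 : ∀ j ∈ range (3 ^ (R - m)), (1 / 2 : ℝ) ^ kmax * (1 / 8) ≤ UKL.f R (b + 3 ^ m * j) := by
        intro j _
        apply step2 R _ le_rfl
        obtain ⟨m', rfl⟩ : ∃ m', m = m' + 1 := ⟨m - 1, by omega⟩
        have : 3 ^ (m' + 1) * j = 3 * (3 ^ m' * j) := by rw [pow_succ]; ring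
        rw [this]
        omega
      have h3 := sum_le_sum h2
      rw [sum_const, card_range, nsmul_eq_mul, h1] at h3
      push_cast at h3
      have h4 := le_of_mul_le_mul_left h3 (by positivity)
      linarith

end DF
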