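import Mathlib
import Pool.Agent.Lib_helper1.DF.Low

/-!
# Uniform lower bound for the natural density of the predecessors
-/

set_option autoImplicit false

namespace DF

open Finset ND PD Pool.Agent.LibHelper3 Filter Topology

open Classical in
/-- harmonic sum over `B ∩ [1, x]` -/
noncomputable def H (B : Set ℕ) (x : ℕ) : ℝ := ∑ n ∈ (Icc 1 x).filter (· ∈ B), (1 : ℝ) / n

open Classical in
/-- counting function -/
noncomputable def A (B : Set ℕ) (x : ℕ) : ℝ := (((Icc 1 x).filter (· ∈ B)).card : ℝ)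

theorem A_le (B : Set ℕ) (x : ℕ) : A B x ≤ x := by
  classical
  unfold A
  have : ((Icc 1 x).filter (· ∈ B)).card ≤ x := by
    calc _ ≤ (Icc 1 x).card := card_filter_le _ _
      _ = x := by simp
  exact_mod_cast this

theorem A_nonneg (B : Set ℕ) (x : ℕ) : 0 ≤ A B x := by unfold A; positivity

theorem A_eq_ncard (B : Set ℕ) (x : ℕ) : A B x = ({n : ℕ | 1 ≤ n ∧ n ≤ x ∧ n ∈ B}.ncard : ℝ) := by
  classical
  unfold A
  rw [← Set.ncard_coe_finset]
  congr 2
  ext n
  simp [and_assoc]

theorem abel (B : Set ℕ) (x : ℕ) (hx : 1 ≤ x) :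
    H B x = A B x / x + ∑ n ∈ Ico 1 x, A B n / ((n : ℝ) * (n + 1)) := by
  classical
  induction x, hx using Nat.le_induction with
  | base =>
    unfold H A
    simp only [Icc_self, Ico_self, sum_empty, add_zero]
    by_cases h : 1 ∈ B
    · rw [filter_singleton, if_pos h]; simp
    · rw [filter_singleton, if_neg h]; simp
  | succ x hx ih =>
    have e : Icc 1 (x + 1) = insert (x + 1) (Icc 1 x) := by
      ext n; simp only [mem_Icc, mem_insert]; omega
    have hx0 : (0 : ℝ) < x := by exact_mod_cast (by omega : 0 < x)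
    have e1 : H B (x + 1) = H B x + (if x + 1 ∈ B then (1 : ℝ) / (x + 1) else 0) := by
      unfold H
      rw [e, filter_insert]
      split_ifs with h
      · rw [sum_insert (by simp)]; push_cast; ring
      · ring
    have e2 : A B (x + 1) = A B x + (if x + 1 ∈ B then (1 : ℝ) else 0) := by
      unfold A
      rw [e, filter_insert]
      split_ifs with h
      · rw [card_insert_of_notMem (by simp)]; push_cast; ring
      · ring
    rw [sum_Ico_succ_top (by omega), e1, ih, e2]
    push_cast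
    by_cases h : x + 1 ∈ B
    · simp only [h, if_true]; field_simp; ring
    · simp only [h, if_false]; field_simp; ring

theorem inv_le_log (n : ℕ) (hn : 1 ≤ n) : (1 : ℝ) / (n + 1) ≤ Real.log (n + 1) - Real.log n := by
  have hn0 : (0 : ℝ) < n := by exact_mod_cast hn
  have h := Real.log_le_sub_one_of_pos (show (0 : ℝ) < n / (n + 1) by positivity)
  rw [Real.log_div (by positivity) (by positivity)] at h
  have e : (n : ℝ) / (n + 1) - 1 = - (1 / (n + 1)) := by field_simp; ring
  rw [e] at h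
  linarith

theorem sum_inv_le (x : ℕ) (hx : 1 ≤ x) : ∑ n ∈ Ico 1 x, (1 : ℝ) / (n + 1) ≤ Real.log x := by
  induction x, hx using Nat.le_induction with
  | base => simp
  | succ x hx ih =>
    rw [sum_Ico_succ_top (by omega)]
    have := inv_le_log x hx
    push_cast
    linarith

/-- natural density bounds the harmonic sum -/
theorem H_le (B : Set ℕ) (δ : ℝ) (hδ : 0 ≤ δ) (h : ∀ᶠ x : ℕ in atTop, A B x ≤ δ * x) :
    ∃ C : ℝ, ∀ x : ℕ, 1 ≤ x → H B x ≤ C + δ * Real.log x := by
  obtain ⟨n0, hn0⟩ := eventually_atTop.1 h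
  refine ⟨1 + n0, fun x hx => ?_⟩
  have hx0 : (0 : ℝ) < x := by exact_mod_cast (by omega : 0 < x)
  rw [abel B x hx]
  have h1 : A B x / x ≤ 1 := by
    rw [div_le_one hx0]; exact A_le B x
  have h2 : ∀ n ∈ Ico 1 x, A B n / ((n : ℝ) * (n + 1)) ≤
      (if n < n0 then (1 : ℝ) else 0) + δ * (1 / (n + 1)) := by
    intro n hn
    rw [mem_Ico] at hn
    have hnp : (0 : ℝ) < n := by exact_mod_cast (by omega : 0 < n)
    split_ifs with hc
    · have h3 : A B n / ((n : ℝ) * (n + 1)) ≤ 1 := by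
        rw [div_le_one (by positivity)]
        have := A_le B n
        nlinarith
      have : 0 ≤ δ * (1 / ((n : ℝ) + 1)) := by positivity
      linarith
    · have h3 := hn0 n (by omega)
      rw [div_le_iff₀ (by positivity)]
      have e : (0 + δ * (1 / ((n : ℝ) + 1))) * (n * (n + 1)) = δ * n := by field_simp; ring
      rw [e]; exact h3
  have h3 := sum_le_sum h2
  rw [sum_add_distrib, ← mul_sum] at h3
  have h4 : ∑ n ∈ Ico 1 x, (if n < n0 then (1 : ℝ) else 0) ≤ n0 := by
    rw [← sum_filter, sum_const, nsmul_eq_mul, mul_one]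
    have : ((Ico 1 x).filter (fun n => n < n0)).card ≤ n0 := by
      calc _ ≤ (range n0).card := card_le_card (fun n hn => by
            rw [mem_filter] at hn; rw [mem_range]; exact hn.2)
        _ = n0 := card_range _
    exact_mod_cast this
  have h5 := mul_le_mul_of_nonneg_left (sum_inv_le x hx) hδ
  linarith

/-- `b` is not periodic -/
def NP (b : ℕ) : Prop := ∀ k : ℕ, 1 ≤ k → short^[k] b ≠ b

theorem short_iter_zero (k : ℕ) : short^[k] 0 = 0 := by
  induction k with
  | zero => rfl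
  | succ k ih => rw [Function.iterate_succ_apply', ih]; rfl

/-- the nodes of level `t` over `b` -/
noncomputable def V (t b : ℕ) : Finset ℕ :=
  ((words t).filter (fun u => PD.val u b)).image (fun u => nd u b)

theorem mem_V {t b n : ℕ} (hb : 1 ≤ b) (hn : n ∈ V t b) :
    short^[t] n = b ∧ 1 ≤ n ∧ n ≤ 2 ^ t * b := by
  unfold V at hn
  rw [mem_image] at hn
  obtain ⟨u, hu, rfl⟩ := hn
  rw [mem_filter, mem_words] at hu
  have h1 := short_nd u b hu.2
  rw [hu.1] at h1
  have h2 := nd_eq u b hu.2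
  rw [hu.1] at h2
  refine ⟨h1, ?_, ?_⟩
  · by_contra hc
    have h0 : nd u b = 0 := by omega
    rw [h0, short_iter_zero] at h1
    omega
  · calc nd u b = 1 * nd u b := by ring
      _ ≤ 3 ^ ones u * nd u b := Nat.mul_le_mul_right _ (Nat.one_le_pow _ _ (by norm_num))
      _ ≤ 2 ^ t * b := by omega

theorem S1_le_V {t b : ℕ} (hb : 1 ≤ b) : S1 t b / b ≤ ∑ n ∈ V t b, (1 : ℝ) / n := by
  have hb0 : (0 : ℝ) < b := by exact_mod_cast hb
  unfold V
  rw [sum_image]
  · unfold S1
    rw [sum_div, sum_filter]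
    refine sum_le_sum fun u hu => ?_
    rw [mem_words] at hu
    unfold T
    split_ifs with hv
    · have h1 := nd_eq u b hv
      rw [hu] at h1
      have hn := mem_V (t := t) hb (n := nd u b) (by
        unfold V
        exact mem_image_of_mem _ (mem_filter.2 ⟨mem_words.2 hu, hv⟩))
      have hn0 : (0 : ℝ) < nd u b := by exact_mod_cast hn.2.1
      have h2 : (3 : ℝ) ^ ones u * nd u b ≤ 2 ^ t * b := by
        have : 3 ^ ones u * nd u b ≤ 2 ^ t * b := by omega
        exact_mod_cast this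
      rw [mul_one, hu, div_div, div_le_div_iff₀ (by positivity) hn0]
      linarith
    · simp
  · intro u hu v hv h
    rw [mem_coe, mem_filter, mem_words] at hu hv
    exact nd_inj (hu.1.trans hv.1.symm) hu.2 hv.2 h

/-- nodes of different levels are different if the root is not periodic -/
theorem V_disjoint {b t1 t2 : ℕ} (hb : 1 ≤ b) (hnp : NP b) (h : t1 ≠ t2) :
    Disjoint (V t1 b) (V t2 b) := by
  have key : ∀ t1 t2 : ℕ, t1 < t2 → ∀ n, n ∈ V t1 b → n ∈ V t2 b → False := by
    intro t1 t2 hlt n h1 h2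
    have e1 := (mem_V hb h1).1
    have e2 := (mem_V hb h2).1
    apply hnp (t2 - t1) (by omega)
    rw [← e1, ← Function.iterate_add_apply, show t2 - t1 + t1 = t2 by omega, e2, e1]
  rw [disjoint_left]
  intro n h1 h2
  rcases lt_or_gt_of_ne h with hlt | hlt
  · exact key t1 t2 hlt n h1 h2
  · exact key t2 t1 hlt n h2 h1

/-- lower bound for the harmonic sum by level masses -/
theorem H_ge {b : ℕ} (hb : 1 ≤ b) (hnp : NP b) (L : Finset ℕ) (t : ℕ) (hL : ∀ l ∈ L, l ≤ t) :
    (∑ l ∈ L, S1 l b) / b ≤ H (ReachS b) (2 ^ t * b) := by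
  classical
  rw [sum_div]
  refine (sum_le_sum fun l _ => S1_le_V hb).trans ?_
  rw [← sum_biUnion]
  · unfold H
    refine sum_le_sum_of_subset_of_nonneg ?_ (fun _ _ _ => by positivity)
    intro n hn
    rw [mem_biUnion] at hn
    obtain ⟨l, hl, hn⟩ := hn
    have h1 := mem_V hb hn
    rw [mem_filter, mem_Icc]
    refine ⟨⟨h1.2.1, h1.2.2.trans ?_⟩, l, h1.1⟩
    exact Nat.mul_le_mul_right _ (Nat.pow_le_pow_right (by norm_num) (hL l hl))
  · intro l1 _ l2 _ h12
    exact V_disjoint hb hnp h12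

/-- the density of the predecessors of a non-periodic element of the good class -/
theorem density_good {b : ℕ} (hb : 1 ≤ b) (hnp : NP b)
    (hm : ∀ X : ℕ, ∃ t : ℕ, X ≤ t ∧ ∀ s : ℕ, t ≤ 140 * s → 70 * s ≤ t → 1 / 8 ≤ S1 (t + s) b)
    (δ : ℝ) (hδ : Tendsto (fun x : ℕ => A (ReachS b) x / x) atTop (𝓝 δ)) :
    1 / (4480 * b) ≤ δ := by
  have hb0 : (0 : ℝ) < b := by exact_mod_cast hb
  have hδ0 : 0 ≤ δ := ge_of_tendsto' hδ (fun x => div_nonneg (A_nonneg _ _) (by positivity))
  by_contra hcon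
  rw [not_le] at hcon
  set ε := 1 / (4480 * (b : ℝ)) - δ with hε
  have hε0 : 0 < ε := by linarith
  have h1 : ∀ᶠ x : ℕ in atTop, A (ReachS b) x ≤ (δ + ε) * x := by
    filter_upwards [hδ.eventually (gt_mem_nhds (show δ < δ + ε by linarith)),
      eventually_ge_atTop 1] with x hx hx1
    have hx0 : (0 : ℝ) < x := by exact_mod_cast (by omega : 0 < x)
    rw [div_lt_iff₀ hx0] at hx
    linarith
  obtain ⟨C, hC⟩ := H_le (ReachS b) (δ + ε) (by linarith) h1
  have e : δ + ε = 1 / (4480 * b) := by rw [hε]; ring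
  rw [e] at hC
  -- choose a large scale
  obtain ⟨X, hX⟩ := exists_nat_gt (max 1400 ((|C| + Real.log b + 1) * (8 * 4480 * b)))
  obtain ⟨t, ht, hS⟩ := hm X
  have htX : (X : ℝ) ≤ t := by exact_mod_cast ht
  have ht1 : (1400 : ℝ) < t := lt_of_lt_of_le (lt_of_le_of_lt (le_max_left _ _) hX) htX
  have ht2 : (|C| + Real.log b + 1) * (8 * 4480 * b) < t :=
    lt_of_lt_of_le (lt_of_le_of_lt (le_max_right _ _) hX) htX
  have ht1' : 1400 < t := by exact_mod_cast ht1
  set L := (Icc ((t + 139) / 140) (t / 70)).image (fun s => t + s) with hL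
  have hLle : ∀ l ∈ L, l ≤ 2 * t := by
    intro l hl
    rw [hL, mem_image] at hl
    obtain ⟨s, hs, rfl⟩ := hl
    rw [mem_Icc] at hs
    omega
  have h2 := H_ge hb hnp L (2 * t) hLle
  have h3 := hC (2 ^ (2 * t) * b) (Nat.mul_pos (by positivity) hb)
  have h4 : (t : ℝ) / 200 * (1 / 8) ≤ ∑ l ∈ L, S1 l b := by
    have h5 : ∑ l ∈ L, (1 / 8 : ℝ) ≤ ∑ l ∈ L, S1 l b := by
      refine sum_le_sum fun l hl => ?_
      rw [hL, mem_image] at hl
      obtain ⟨s, hs, rfl⟩ := hl
      rw [mem_Icc] at hs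
      exact hS s (by omega) (by omega)
    refine le_trans ?_ h5
    rw [sum_const, nsmul_eq_mul]
    refine mul_le_mul_of_nonneg_right ?_ (by norm_num)
    have h6 : L.card = t / 70 + 1 - (t + 139) / 140 := by
      rw [hL, card_image_of_injective _ (fun a b h => by simpa using h), Nat.card_Icc]
    rw [h6]
    have h7 : t ≤ 200 * (t / 70 + 1 - (t + 139) / 140) := by omega
    have h8 : (t : ℝ) ≤ 200 * ((t / 70 + 1 - (t + 139) / 140 : ℕ) : ℝ) := by exact_mod_cast h7
    linarith
  have h5 : (t : ℝ) / 200 * (1 / 8) / b ≤ C + 1 / (4480 * b) * Real.log ((2 ^ (2 * t) * b : ℕ) : ℝ) := by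
    refine le_trans ?_ h3
    refine le_trans ?_ h2
    gcongr
  have h6 : Real.log ((2 ^ (2 * t) * b : ℕ) : ℝ) ≤ 1.4 * t + Real.log b := by
    push_cast
    rw [Real.log_mul (by positivity) (by positivity), Real.log_pow]
    have := Real.log_two_lt_d9
    have ht0 : (0 : ℝ) ≤ t := by positivity
    push_cast
    nlinarith
  have hlb : 0 ≤ Real.log b := Real.log_nonneg (by exact_mod_cast hb)
  have h7 : 1 / (4480 * (b : ℝ)) * Real.log ((2 ^ (2 * t) * b : ℕ) : ℝ) ≤
      1 / (4480 * b) * (1.4 * t + Real.log b) := by gcongr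
  have h8 : 1 / (4480 * (b : ℝ)) ≤ 1 := by
    rw [div_le_one (by positivity)]
    have : (1 : ℝ) ≤ b := by exact_mod_cast hb
    linarith
  have h9 : 1 / (4480 * (b : ℝ)) * (1.4 * t + Real.log b) ≤ 1.4 * t / (4480 * b) + Real.log b := by
    have : 1 / (4480 * (b : ℝ)) * Real.log b ≤ 1 * Real.log b := by gcongr
    have e : 1 / (4480 * (b : ℝ)) * (1.4 * t + Real.log b) =
      1.4 * t / (4480 * b) + 1 / (4480 * (b : ℝ)) * Real.log b := by ring
    rw [e]; linarith
  have h10 : C ≤ |C| := le_abs_self C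
  have h11 : (t : ℝ) / 200 * (1 / 8) / b - 1.4 * t / (4480 * b) = t / (3200 * b) := by
    field_simp; ring
  have h12 : (t : ℝ) / (3200 * b) ≤ |C| + Real.log b := by linarith
  rw [div_le_iff₀ (by positivity)] at h12
  have h13 : 0 ≤ |C| + Real.log b := by positivity
  nlinarith

end DF
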