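import Mathlib
import Pool.Agent.Lib_helper1.DF.Harm

/-!
# `δ_a ≥ c / a`
-/

set_option autoImplicit false

namespace DF

open Finset ND PD Pool.Agent.LibHelper3 Filter Topology

theorem short_two_mul (n : ℕ) : short (2 * n) = n := by
  unfold short
  simp

theorem np_of_reach {b n : ℕ} {k : ℕ} (h : short^[k] n = b) (hb : NP b) : NP n := by
  intro j hj hn
  apply hb j hj
  rw [← h, ← Function.iterate_add_apply, add_comm, Function.iterate_add_apply, hn]

theorem per_of_not_np {b : ℕ} (h : ¬ NP b) : b ∈ Function.periodicPts short := by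
  unfold NP at h
  push Not at h
  obtain ⟨k, hk, he⟩ := h
  exact Function.mk_mem_periodicPts hk he

theorem np_of_not_per {b : ℕ} (h : b ∉ Function.periodicPts short) : NP b := by
  intro k hk he
  exact h (Function.mk_mem_periodicPts hk he)

/-- powers of two modulo 9 -/
theorem exists_four (a : ℕ) (ha : a % 3 ≠ 0) : ∃ j, 1 ≤ j ∧ j ≤ 6 ∧ 2 ^ j * a % 9 = 4 := by
  have h : a % 9 = 1 ∨ a % 9 = 2 ∨ a % 9 = 4 ∨ a % 9 = 5 ∨ a % 9 = 7 ∨ a % 9 = 8 := by omega
  rcases h with h | h | h | h | h | h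
  · exact ⟨2, by norm_num, by norm_num, by omega⟩
  · exact ⟨1, by norm_num, by norm_num, by omega⟩
  · exact ⟨6, by norm_num, by norm_num, by omega⟩
  · exact ⟨3, by norm_num, by norm_num, by omega⟩
  · exact ⟨4, by norm_num, by norm_num, by omega⟩
  · exact ⟨5, by norm_num, by norm_num, by omega⟩

/-- a non-periodic predecessor of bounded relative size -/
theorem exists_np (a : ℕ) (ha : a % 3 ≠ 0) :
    ∃ b, b % 3 ≠ 0 ∧ 1 ≤ b ∧ b ≤ 64 * a ∧ NP b ∧ ∃ k, short^[k] b = a := by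
  obtain ⟨j, hj1, hj6, hj4⟩ := exists_four a ha
  have hpow : 2 ^ j ≤ 64 := by
    calc 2 ^ j ≤ 2 ^ 6 := Nat.pow_le_pow_right (by norm_num) hj6
      _ = 64 := by norm_num
  have ha1 : 1 ≤ a := by omega
  obtain ⟨i, rfl⟩ : ∃ i, j = i + 1 := ⟨j - 1, by omega⟩
  set n1 := 2 ^ (i + 1) * a with hn1
  have e1 : n1 = 2 * (2 ^ i * a) := by rw [hn1, pow_succ]; ring
  by_cases hc : NP n1
  · refine ⟨n1, by omega, Nat.mul_pos (by positivity) ha1, Nat.mul_le_mul_right _ hpow, hc, i + 1, ?_⟩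
    exact short_two_pow (i + 1) a
  · have hp1 := per_of_not_np hc
    set n2 := (n1 - 1) / 3 with hn2
    have e2 : n1 = 3 * n2 + 1 := by omega
    have hn2odd : n2 % 2 = 1 := by omega
    have hs2 : short n2 = 2 ^ i * a := by
      unfold short
      rw [if_neg (by omega)]
      omega
    have hs1 : short n1 = 2 ^ i * a := by rw [e1, short_two_mul]
    refine ⟨n2, by omega, by omega, ?_, ?_, i + 1, ?_⟩
    · have : n1 ≤ 64 * a := Nat.mul_le_mul_right _ hpow
      omega
    · apply np_of_not_per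
      intro hp2
      have hinj := (Function.bijOn_periodicPts (f := short)).injOn
      have := hinj hp1 hp2 (by rw [hs1, hs2])
      omega
    · rw [Function.iterate_succ_apply, hs2]
      exact short_two_pow i a

theorem A_mono {B B' : Set ℕ} (h : B ⊆ B') (x : ℕ) : A B x ≤ A B' x := by
  classical
  unfold A
  have : ((Icc 1 x).filter (· ∈ B)).card ≤ ((Icc 1 x).filter (· ∈ B')).card := by
    apply card_le_card
    intro n hn
    rw [mem_filter] at hn ⊢
    exact ⟨hn.1, h hn.2⟩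
  exact_mod_cast this

theorem reach_mono {b a k : ℕ} (h : short^[k] b = a) : ReachS b ⊆ ReachS a := by
  rintro n ⟨s, hs⟩
  exact ⟨k + s, by rw [Function.iterate_add_apply, hs, h]⟩

/-- existence of the densities -/
theorem reach_density (a : ℕ) : ∃ δ : ℝ, Tendsto (fun x : ℕ => A (ReachS a) x / x) atTop (𝓝 δ) := by
  obtain ⟨δ, hδ⟩ := density_exists Mix.mixing (ReachS a) a (fun n hn => reachS_short a n hn)
  refine ⟨δ, ?_⟩
  have h := tendsto_nat hδ
  refine h.congr (fun x => ?_)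
  rw [A_eq_ncard]

/-- the uniform lower bound -/
theorem density_lower : ∃ c : ℝ, 0 < c ∧ ∀ a : ℕ, a % 3 ≠ 0 → ∀ δ : ℝ,
    Tendsto (fun x : ℕ => A (ReachS a) x / x) atTop (𝓝 δ) → c / a ≤ δ := by
  obtain ⟨R, a0, hR, ha0, hmass⟩ := class_mass Mix.mixing
  obtain ⟨kmax, hk⟩ := unit_class R a0 hR ha0
  refine ⟨1 / (4480 * (2 ^ kmax * 64)), by positivity, fun a ha δ hδ => ?_⟩
  have ha0' : (0 : ℝ) < a := by exact_mod_cast (by omega : 0 < a)
  obtain ⟨b, hb3, hb1, hb64, hnp, j, hj⟩ := exists_np a ha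
  obtain ⟨k, hk1, hk2⟩ := hk b hb3
  set b' := 2 ^ k * b with hb'
  have hb'1 : 1 ≤ b' := Nat.mul_pos (by positivity) hb1
  have hkb : short^[k] b' = b := short_two_pow k b
  have hnp' : NP b' := np_of_reach hkb hnp
  obtain ⟨δ', hδ'⟩ := reach_density b'
  have h1 := density_good hb'1 hnp' (fun X => by
    obtain ⟨t, ht, h⟩ := hmass X
    exact ⟨t, ht, h b' hk2⟩) δ' hδ'
  have h2 : δ' ≤ δ := by
    refine le_of_tendsto_of_tendsto' hδ' hδ (fun x => ?_)
    refine div_le_div_of_nonneg_right (A_mono ?_ x) (by positivity)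
    exact (reach_mono hkb).trans (reach_mono hj)
  refine le_trans ?_ (h1.trans h2)
  have h3 : b' ≤ 2 ^ kmax * (64 * a) := by
    rw [hb']
    exact Nat.mul_le_mul (Nat.pow_le_pow_right (by norm_num) hk1) hb64
  have h4 : (b' : ℝ) ≤ 2 ^ kmax * (64 * a) := by exact_mod_cast h3
  have hb'0 : (0 : ℝ) < b' := by exact_mod_cast hb'1
  rw [div_div, div_le_div_iff₀ (by positivity) (by positivity)]
  nlinarith

end DF
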