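import Mathlib
import Pool.Agent.Lib_helper1.DF.Uniform

/-!
# The limit law of the iterates modulo powers of `3`
-/

set_option autoImplicit false

namespace DF

open Finset ND PD Pool.Agent.LibHelper3 Filter Topology

theorem A_eq_card (P : ℕ → Prop) [DecidablePred P] (x : ℕ) :
    A {n | P n} x = (((Icc 1 x).filter P).card : ℝ) := by
  classical
  unfold A
  congr 2
  ext n
  simp

/-- density of a periodic set -/
theorem periodic_density (P : ℕ → Prop) [DecidablePred P] (q : ℕ) (hq : 1 ≤ q)
    (hP : ∀ n, P (n + q) ↔ P n) :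
    Tendsto (fun x : ℕ => A {n | P n} x / x) atTop
      (𝓝 ((((range q).filter P).card : ℝ) / q)) := by
  classical
  set c : ℕ := ((range q).filter P).card with hc
  have hq0 : (0 : ℝ) < q := by exact_mod_cast hq
  -- counting function on multiples of the period
  have h1 : ∀ j : ℕ, ((range (q * j)).filter P).card = j * c := by
    intro j
    have h2 := sum_range_mul_periodic (fun n => if P n then (1 : ℝ) else 0) q
      (fun m => by simp only [hP]) j
    rw [← sum_filter, ← sum_filter, sum_const, sum_const, nsmul_eq_mul, nsmul_eq_mul, mul_one,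
      mul_one] at h2
    exact_mod_cast h2
  have h2 : ∀ x : ℕ, |A {n | P n} x - c / q * x| ≤ 2 * q + 1 := by
    intro x
    have hle : A {n | P n} x ≤ ((x / q + 1 : ℕ) : ℝ) * c := by
      rw [A_eq_card]
      have : ((Icc 1 x).filter P).card ≤ (x / q + 1) * c := by
        rw [← h1]
        apply card_le_card
        intro n hn
        rw [mem_filter, mem_Icc] at hn
        rw [mem_filter, mem_range]
        refine ⟨?_, hn.2⟩
        have := Nat.lt_mul_div_succ x (by omega : 0 < q)
        omega
      exact_mod_cast this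
    have hge : ((x / q : ℕ) : ℝ) * c ≤ A {n | P n} x + 1 := by
      rw [A_eq_card]
      have : (x / q) * c ≤ ((Icc 1 x).filter P).card + 1 := by
        rw [← h1]
        calc ((range (q * (x / q))).filter P).card
            ≤ (insert 0 ((Icc 1 x).filter P)).card := by
              apply card_le_card
              intro n hn
              rw [mem_filter, mem_range] at hn
              rw [mem_insert, mem_filter, mem_Icc]
              rcases Nat.eq_zero_or_pos n with h0 | h0
              · left; exact h0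
              · right
                have := Nat.mul_div_le x q
                exact ⟨⟨h0, by omega⟩, hn.2⟩
          _ ≤ _ := card_insert_le _ _
      exact_mod_cast this
    have hcq : (c : ℝ) ≤ q := by
      have : c ≤ q := by
        calc c ≤ (range q).card := card_filter_le _ _
          _ = q := card_range q
      exact_mod_cast this
    have hd1 : ((x / q : ℕ) : ℝ) ≤ x / q := Nat.cast_div_le
    have hd2 : (x : ℝ) / q < (x / q : ℕ) + 1 := by
      rw [div_lt_iff₀ hq0]
      have := Nat.lt_mul_div_succ x (by omega : 0 < q)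
      have h3 : (x : ℝ) < (q * (x / q + 1) : ℕ) := by exact_mod_cast this
      push_cast at h3
      linarith
    have hc0 : (0 : ℝ) ≤ c := by positivity
    have e : (c : ℝ) / q * x = (x / q) * c := by ring
    rw [abs_le, e]
    push_cast at hle
    constructor <;> nlinarith
  have h3 : Tendsto (fun x : ℕ => (2 * (q : ℝ) + 1) / x) atTop (𝓝 0) :=
    tendsto_const_div_atTop_nhds_zero_nat _
  rw [tendsto_iff_dist_tendsto_zero]
  refine squeeze_zero' (Eventually.of_forall fun x => dist_nonneg) ?_ h3
  filter_upwards [eventually_ge_atTop 1] with x hx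
  have hx0 : (0 : ℝ) < x := by exact_mod_cast (by omega : 0 < x)
  rw [Real.dist_eq]
  have e : A {n | P n} x / x - (c : ℝ) / q = (A {n | P n} x - c / q * x) / x := by
    field_simp
  rw [e, abs_div, abs_of_pos hx0]
  exact div_le_div_of_nonneg_right (h2 x) hx0.le

theorem pw_iff {k n : ℕ} {w : List Bool} (hw : w ∈ words k) :
    pw k n = w ↔ (3 ^ ones w * n + off w) % 2 ^ k = 0 := by
  rw [mem_words] at hw
  constructor
  · intro h
    have h1 := pw_eq k n
    rw [h] at h1
    rw [← h1]; simp
  · intro h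
    obtain ⟨m, hm⟩ := Nat.dvd_of_mod_eq_zero h
    have := (pw_of_eq w n m (by rw [hw]; omega)).1
    rwa [hw] at this

/-- each word is the parity word of one residue class modulo `2 ^ k` -/
theorem count_pw (k q : ℕ) {w : List Bool} (hw : w ∈ words k) :
    (((range (2 ^ k * q)).filter (fun n => pw k n = w)).card : ℝ) = q := by
  simp only [pw_iff hw]
  have h2 := sum_range_mul_periodic (fun n => if (3 ^ ones w * n + off w) % 2 ^ k = 0 then (1 : ℝ) else 0)
    (2 ^ k) (fun m => by
      have : 3 ^ ones w * (m + 2 ^ k) + off w = 3 ^ ones w * m + off w + 3 ^ ones w * 2 ^ k := by ring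
      simp only [this, Nat.add_mul_mod_self_right]) q
  rw [← sum_filter, sum_const, nsmul_eq_mul, mul_one] at h2
  rw [h2]
  have h3 := UKL.sum_affine (N := 2 ^ k) (3 ^ ones w) (off w)
    (Nat.Coprime.pow _ _ (by norm_num)) (fun y => if y % 2 ^ k = 0 then (1 : ℝ) else 0)
    (fun y => by simp)
  rw [h3]
  have h4 : ∀ y ∈ range (2 ^ k), (if y % 2 ^ k = 0 then (1 : ℝ) else 0) = if y = 0 then 1 else 0 := by
    intro y hy
    rw [Nat.mod_eq_of_lt (mem_range.1 hy)]
  rw [sum_congr rfl h4]
  rw [sum_ite_eq' (range (2 ^ k)) 0 (fun _ => (1 : ℝ)), if_pos (mem_range.2 (by positivity))]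
  ring

theorem few (k m : ℕ) : (((words k).filter (fun w => ones w < m)).card : ℝ) ≤ 2 ^ m * (3 / 2) ^ k := by
  have h1 := sum_pow_ones (1 / 2) k
  have h2 : (((words k).filter (fun w => ones w < m)).card : ℝ) * (1 / 2) ^ m ≤ (3 / 2) ^ k := by
    have e : (1 + 1 / 2 : ℝ) = 3 / 2 := by norm_num
    rw [e] at h1
    rw [← h1, ← nsmul_eq_mul, ← sum_const]
    calc _ ≤ ∑ w ∈ (words k).filter (fun w => ones w < m), (1 / 2 : ℝ) ^ ones w := by
          refine sum_le_sum fun w hw => ?_
          rw [mem_filter] at hw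
          exact pow_le_pow_of_le_one (by norm_num) (by norm_num) hw.2.le
      _ ≤ _ := sum_le_sum_of_subset_of_nonneg (filter_subset _ _) (fun _ _ _ => by positivity)
  have h3 : (2 : ℝ) ^ m * (1 / 2) ^ m = 1 := by rw [← mul_pow]; norm_num
  calc (((words k).filter (fun w => ones w < m)).card : ℝ)
      = 2 ^ m * ((((words k).filter (fun w => ones w < m)).card : ℝ) * (1 / 2) ^ m) := by
        have : (2 : ℝ) ^ m * ((((words k).filter (fun w => ones w < m)).card : ℝ) * (1 / 2) ^ m) =
          (((words k).filter (fun w => ones w < m)).card : ℝ) * (2 ^ m * (1 / 2) ^ m) := by ring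
        rw [this, h3, mul_one]
    _ ≤ _ := by gcongr

theorem iter_mod {k n m : ℕ} (h : m ≤ ones (pw k n)) (r : ℕ) :
    short^[k] n % 3 ^ m = r % 3 ^ m ↔ off (pw k n) % 3 ^ m = 2 ^ k * r % 3 ^ m := by
  have h1 := pw_eq k n
  have h2 : 2 ^ k * short^[k] n ≡ off (pw k n) [MOD 3 ^ m] := by
    rw [h1]
    have : 3 ^ ones (pw k n) = 3 ^ m * 3 ^ (ones (pw k n) - m) := by
      rw [← pow_add]; congr 1; omega
    have e : 3 ^ ones (pw k n) * n + off (pw k n) = off (pw k n) + 3 ^ m * (3 ^ (ones (pw k n) - m) * n) := by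
      rw [this]; ring
    unfold Nat.ModEq
    rw [e, Nat.add_mul_mod_self_left]
  have hcop : Nat.gcd (3 ^ m) (2 ^ k) = 1 := Nat.Coprime.pow _ _ (by norm_num)
  constructor
  · intro h3
    have h4 : 2 ^ k * short^[k] n ≡ 2 ^ k * r [MOD 3 ^ m] := Nat.ModEq.mul_left _ h3
    exact h2.symm.trans h4
  · intro h3
    have h4 : 2 ^ k * short^[k] n ≡ 2 ^ k * r [MOD 3 ^ m] := h2.trans h3
    exact Nat.ModEq.cancel_left_of_coprime hcop h4

/-- the proportion over a full period -/
theorem prop_bounds (k m r : ℕ) :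
    UKL.g k m r / 3 ^ m ≤
      (((range (2 ^ k * 3 ^ m)).filter (fun n => short^[k] n % 3 ^ m = r % 3 ^ m)).card : ℝ) /
        ((2 ^ k * 3 ^ m : ℕ) : ℝ) ∧
    (((range (2 ^ k * 3 ^ m)).filter (fun n => short^[k] n % 3 ^ m = r % 3 ^ m)).card : ℝ) /
        ((2 ^ k * 3 ^ m : ℕ) : ℝ) ≤ UKL.g k m r / 3 ^ m + 2 ^ m * (3 / 4) ^ k := by
  set P : ℕ → Prop := fun n => short^[k] n % 3 ^ m = r % 3 ^ m with hP
  set G : Finset (List Bool) := (words k).filter (fun w => m ≤ ones w ∧ off w % 3 ^ m = 2 ^ k * r % 3 ^ m)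
    with hG
  set S := (range (2 ^ k * 3 ^ m)).filter P with hS
  have hg : UKL.g k m r = 3 ^ m / 2 ^ k * (G.card : ℝ) := by
    rw [PD.g_eq, hG, card_filter]
    push_cast
    rfl
  have hsplit : (S.card : ℝ) = ∑ w ∈ words k, ((S.filter (fun n => pw k n = w)).card : ℝ) := by
    have : S.card = ∑ w ∈ words k, (S.filter (fun n => pw k n = w)).card :=
      card_eq_sum_card_fiberwise (fun n _ => pw_mem k n)
    exact_mod_cast this
  have hlow : ∀ w ∈ words k, (if w ∈ G then (3 : ℝ) ^ m else 0) ≤
      ((S.filter (fun n => pw k n = w)).card : ℝ) := by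
    intro w hw
    split_ifs with hc
    · have h1 := count_pw k (3 ^ m) hw
      push_cast at h1
      rw [← h1]
      have : ((range (2 ^ k * 3 ^ m)).filter (fun n => pw k n = w)).card ≤
          (S.filter (fun n => pw k n = w)).card := by
        apply card_le_card
        intro n hn
        rw [mem_filter] at hn
        rw [mem_filter, hS, mem_filter]
        rw [hG, mem_filter] at hc
        refine ⟨⟨hn.1, ?_⟩, hn.2⟩
        have h2 := iter_mod (k := k) (n := n) (m := m) (by rw [hn.2]; exact hc.2.1) r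
        rw [hn.2] at h2
        exact h2.2 hc.2.2
      exact_mod_cast this
    · positivity
  have hup : ∀ w ∈ words k, ((S.filter (fun n => pw k n = w)).card : ℝ) ≤
      (if w ∈ G then (3 : ℝ) ^ m else 0) + (if ones w < m then (3 : ℝ) ^ m else 0) := by
    intro w hw
    have h0 : ((S.filter (fun n => pw k n = w)).card : ℝ) ≤ 3 ^ m := by
      have h1 := count_pw k (3 ^ m) hw
      push_cast at h1
      rw [← h1]
      have : (S.filter (fun n => pw k n = w)).card ≤
          ((range (2 ^ k * 3 ^ m)).filter (fun n => pw k n = w)).card := by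
        apply card_le_card
        intro n hn
        rw [mem_filter, hS, mem_filter] at hn
        rw [mem_filter]
        exact ⟨hn.1.1, hn.2⟩
      exact_mod_cast this
    have h3 : (0 : ℝ) ≤ 3 ^ m := by positivity
    by_cases hm : ones w < m
    · rw [if_pos hm]
      split_ifs <;> linarith
    · rw [if_neg hm, add_zero]
      by_cases hc : w ∈ G
      · rw [if_pos hc]; exact h0
      · rw [if_neg hc]
        have : S.filter (fun n => pw k n = w) = ∅ := by
          apply filter_false_of_mem
          intro n hn he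
          apply hc
          rw [hG, mem_filter]
          rw [hS, mem_filter] at hn
          have h2 := iter_mod (k := k) (n := n) (m := m) (by rw [he]; omega) r
          rw [he] at h2
          exact ⟨hw, by omega, h2.1 hn.2⟩
        rw [this]; simp
  have hGs : ∑ w ∈ words k, (if w ∈ G then (3 : ℝ) ^ m else 0) = G.card * 3 ^ m := by
    rw [← sum_filter, sum_const, nsmul_eq_mul]
    congr 3
    ext w
    rw [mem_filter]
    constructor
    · exact fun h => h.2
    · intro h
      refine ⟨?_, h⟩
      rw [hG, mem_filter] at h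
      exact h.1
  have hBs : ∑ w ∈ words k, (if ones w < m then (3 : ℝ) ^ m else 0) ≤ 2 ^ m * (3 / 2) ^ k * 3 ^ m := by
    rw [← sum_filter, sum_const, nsmul_eq_mul]
    exact mul_le_mul_of_nonneg_right (few k m) (by positivity)
  have h1 := sum_le_sum hlow
  have h2 := sum_le_sum hup
  rw [sum_add_distrib] at h2
  rw [hGs] at h1 h2
  rw [← hsplit] at h1 h2
  have e2 : (2 : ℝ) ^ m * (3 / 4) ^ k = 2 ^ m * (3 / 2) ^ k / 2 ^ k := by
    rw [mul_div_assoc, ← div_pow]; norm_num
  push_cast
  constructor
  · rw [hg, div_le_div_iff₀ (by positivity) (by positivity)]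
    calc 3 ^ m / 2 ^ k * (G.card : ℝ) * (2 ^ k * 3 ^ m) = 3 ^ m * (G.card * 3 ^ m) := by field_simp
      _ ≤ 3 ^ m * (S.card : ℝ) := by gcongr
      _ = _ := by ring
  · rw [hg, e2, div_le_iff₀ (by positivity)]
    have e3 : (3 ^ m / 2 ^ k * (G.card : ℝ) / 3 ^ m + 2 ^ m * (3 / 2) ^ k / 2 ^ k) * (2 ^ k * 3 ^ m) =
        G.card * 3 ^ m + 2 ^ m * (3 / 2) ^ k * 3 ^ m := by
      field_simp
    rw [e3]
    linarith

theorem iter_period (k m n : ℕ) :
    short^[k] (n + 2 ^ k * 3 ^ m) % 3 ^ m = short^[k] n % 3 ^ m := by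
  have h1 := pw_eq k n
  set w := pw k n with hw
  have h2 : 2 ^ w.length * (short^[k] n + 3 ^ (ones w + m)) =
      3 ^ ones w * (n + 2 ^ k * 3 ^ m) + off w := by
    have hl : w.length = k := length_pw k n
    rw [hl, mul_add, h1, pow_add]; ring
  have h3 := (pw_of_eq w (n + 2 ^ k * 3 ^ m) _ h2).2
  have hl : w.length = k := length_pw k n
  rw [hl] at h3
  rw [h3, pow_add, Nat.add_mul_mod_self_right]

/-- the limit law of the iterates modulo `3 ^ m` -/
theorem limit_law (m r : ℕ) : ∃ d : ℕ → ℝ,
    (∀ k, Tendsto (fun x : ℕ => A {n | short^[k] n % 3 ^ m = r % 3 ^ m} x / x) atTop (𝓝 (d k))) ∧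
    Tendsto d atTop (𝓝 (UKL.f m r / 3 ^ m)) := by
  refine ⟨fun k => (((range (2 ^ k * 3 ^ m)).filter
    (fun n => short^[k] n % 3 ^ m = r % 3 ^ m)).card : ℝ) / ((2 ^ k * 3 ^ m : ℕ) : ℝ), ?_, ?_⟩
  · intro k
    exact periodic_density (fun n => short^[k] n % 3 ^ m = r % 3 ^ m) (2 ^ k * 3 ^ m)
      (Nat.mul_pos (by positivity) (by positivity)) (fun n => by rw [iter_period])
  · have h1 : Tendsto (fun k => UKL.g k m r / 3 ^ m) atTop (𝓝 (UKL.f m r / 3 ^ m)) :=
      (UKL.g_tendsto m r).div_const _
    have h2 : Tendsto (fun k : ℕ => UKL.g k m r / 3 ^ m + 2 ^ m * (3 / 4 : ℝ) ^ k) atTop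
        (𝓝 (UKL.f m r / 3 ^ m + 2 ^ m * 0)) :=
      h1.add ((tendsto_pow_atTop_nhds_zero_of_lt_one (by norm_num) (by norm_num)).const_mul _)
    rw [mul_zero, add_zero] at h2
    exact tendsto_of_tendsto_of_tendsto_of_le_of_le h1 h2 (fun k => (prop_bounds k m r).1)
      (fun k => (prop_bounds k m r).2)

end DF
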