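import Mathlib
import Pool.Agent.Lib_helper62.ND.Window
import Pool.Agent.Lib_helper62.ND.Gap

/-!
# Chaining from a window of scales, abstract form with windows close to the threshold
-/

set_option autoImplicit false

namespace DF

open Finset ND Pool.Agent.LibHelper3

theorem shift_up (s k : ℕ) (u x : ℝ) (hx : 0 < x) (hu : u = Real.log x) (hu1 : 40000 ≤ u)
    (hs : u / 400 - 1 ≤ s) (hk : k ≤ s - 2 * s / 5) :
    Real.log (3 ^ k * x / 2 ^ s) ≤ 0.99995 * u := by
  have h3 : Real.log 3 ≤ 1.1 := by have := log_three_le; linarith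
  have h30 : 0 ≤ Real.log 3 := Real.log_nonneg (by norm_num)
  have h27 : 3 * Real.log 3 - 5 * Real.log 2 ≤ -0.15625 := by
    have h := Real.log_le_sub_one_of_pos (show (0 : ℝ) < 27 / 32 by norm_num)
    rw [Real.log_div (by norm_num) (by norm_num)] at h
    have e1 : Real.log 27 = 3 * Real.log 3 := by
      rw [show (27 : ℝ) = 3 ^ 3 by norm_num, Real.log_pow]; norm_num
    have e2 : Real.log 32 = 5 * Real.log 2 := by
      rw [show (32 : ℝ) = 2 ^ 5 by norm_num, Real.log_pow]; norm_num
    rw [e1, e2] at h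
    norm_num at h ⊢
    linarith
  have hk5 : (5 : ℝ) * k ≤ 3 * s + 4 := by
    have : 5 * k ≤ 3 * s + 4 := by omega
    exact_mod_cast this
  have hs0 : (0 : ℝ) ≤ s := by positivity
  rw [Real.log_div (by positivity) (by positivity), Real.log_mul (by positivity) hx.ne',
    Real.log_pow, Real.log_pow, ← hu]
  have h5 : 5 * (k * Real.log 3) ≤ (3 * s + 4) * Real.log 3 := by
    have := mul_le_mul_of_nonneg_right hk5 h30
    linarith
  have h6 : (s : ℝ) * (3 * Real.log 3 - 5 * Real.log 2) ≤ s * (-0.15625) :=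
    mul_le_mul_of_nonneg_left h27 hs0
  nlinarith

theorem shift_down (s k : ℕ) (u x : ℝ) (hx : 0 < x) (hu : u = Real.log x) (hu1 : 40000 ≤ u)
    (hs : (s : ℝ) ≤ u / 400) (hk : 2 * s / 5 ≤ k) :
    0.999 * u ≤ Real.log (3 ^ k * x / 2 ^ s) := by
  have h3 := log_three_gt_one
  have h2 := Real.log_two_lt_d9
  have hk5 : (2 : ℝ) * s - 4 ≤ 5 * k := by
    have : 2 * s ≤ 5 * k + 4 := by omega
    have h : ((2 * s : ℕ) : ℝ) ≤ ((5 * k + 4 : ℕ) : ℝ) := by exact_mod_cast this
    push_cast at h
    linarith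
  have hs0 : (0 : ℝ) ≤ s := by positivity
  have hk0 : (0 : ℝ) ≤ k := by positivity
  rw [Real.log_div (by positivity) (by positivity), Real.log_mul (by positivity) hx.ne',
    Real.log_pow, Real.log_pow, ← hu]
  have h5 : (k : ℝ) * 1 ≤ k * Real.log 3 := mul_le_mul_of_nonneg_left h3.le hk0
  have h6 : (s : ℝ) * Real.log 2 ≤ s * 0.6931471808 := mul_le_mul_of_nonneg_left h2.le hs0
  nlinarith

/-- upper chaining from a window -/
theorem window_abs (C0 : ℝ) (hC0 : 0 ≤ C0) : ∃ C : ℝ, 0 ≤ C ∧
    ∀ (Φ : ℝ → ℝ) (L M u0 : ℝ), (∀ x : ℝ, 0 < x → Φ x ≤ 1) → 0 ≤ M → 50000 ≤ u0 →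
      L ≤ 0.993 * u0 →
      (∀ (s : ℕ) (x : ℝ), 1 ≤ s → 0 < x → (s : ℝ) * 2.78 + L ≤ Real.log x →
        Φ x ≤ ∑ w ∈ words s, (1 / 2 ^ s) * Φ (3 ^ ones w * x / 2 ^ s) + C0 / s) →
      (∀ z : ℝ, 0 < z → 0.999 * u0 ≤ Real.log z → Real.log z ≤ u0 → Φ z ≤ M) →
      ∀ x : ℝ, 0 < x → 0.999 * u0 ≤ Real.log x → Φ x ≤ M + C / u0 := by
  obtain ⟨C1, hC1, h981⟩ := exp_poly' 0.981 (by norm_num) (by norm_num) 1
  set C2 := (C0 + 2 * C1) * 800 with hC2
  have hC2' : 0 ≤ C2 := by positivity
  set C' := C2 / 0.00005 with hC'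
  have hC'0 : 0 ≤ C' := by positivity
  refine ⟨C' / 0.999, by positivity, ?_⟩
  intro Φ L M u0 hΦ1 hM hu0 hL htp hbase
  have hu0pos : 0 < u0 := by linarith
  set v0 := 0.999 * u0 with hv0
  have hv0pos : 0 < v0 := by positivity
  set g : ℝ → ℝ := fun v => M + C' * (1 / v0 - 1 / (max v v0)) with hg
  have hgM : ∀ v, M ≤ g v := by
    intro v
    have h1 : 1 / (max v v0) ≤ 1 / v0 :=
      one_div_le_one_div_of_le (by positivity) (le_max_right _ _)
    have : 0 ≤ C' * (1 / v0 - 1 / (max v v0)) := mul_nonneg hC'0 (by linarith)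
    simp only [hg]
    linarith
  have hgmono : ∀ v w, v ≤ w → g v ≤ g w := by
    intro v w hvw
    have hm : 0 < max v v0 := lt_of_lt_of_le hv0pos (le_max_right _ _)
    have h1 : 1 / (max w v0) ≤ 1 / (max v v0) :=
      one_div_le_one_div_of_le (by positivity) (max_le_max_right _ hvw)
    have := mul_le_mul_of_nonneg_left h1 hC'0
    simp only [hg]
    linarith
  have hgtop : ∀ v, g v ≤ M + C' / 0.999 / u0 := by
    intro v
    have hm : 0 < max v v0 := lt_of_lt_of_le hv0pos (le_max_right _ _)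
    have h1 : 0 ≤ 1 / (max v v0) := by positivity
    have h2 : C' / 0.999 / u0 = C' * (1 / v0) := by
      rw [hv0]; field_simp
    rw [h2]
    have := mul_nonneg hC'0 h1
    simp only [hg]
    linarith
  have key : ∀ n : ℕ, ∀ x : ℝ, 0 < x → v0 ≤ Real.log x → Real.log x ≤ n →
      Φ x ≤ g (Real.log x) := by
    intro n
    induction n with
    | zero =>
      intro x hx hv hxn
      push_cast at hxn
      exact (hbase x hx hv (by linarith)).trans (hgM _)
    | succ n ih =>
      intro x hx hv hxn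
      rcases le_or_gt (Real.log x) u0 with hxu | hxu
      · exact (hbase x hx hv hxu).trans (hgM _)
      set u := Real.log x with hu
      set s := ⌊u / 400⌋₊ with hs
      have hu3000 : 40000 ≤ u := by linarith
      have hupos : 0 < u := by linarith
      have hs1 : (s : ℝ) ≤ u / 400 := Nat.floor_le (by positivity)
      have hs2 : u / 400 - 1 ≤ s := by
        have := Nat.lt_floor_add_one (u / 400)
        linarith
      have hs3 : 1 ≤ s := by
        have : (1 : ℝ) ≤ s := by linarith
        exact_mod_cast this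
      have hs8 : u / 800 ≤ s := by linarith
      have hspos : (0 : ℝ) < s := by exact_mod_cast hs3
      have h1 := htp s x hs3 hx (by linarith)
      -- bound of the average
      have hterm : ∀ w ∈ words s, (1 / 2 ^ s : ℝ) * Φ (3 ^ ones w * x / 2 ^ s)
          ≤ (1 / 2 ^ s) * (g (0.99995 * u)) + ((1 / 2 ^ s) *
            (if s - 2 * s / 5 < ones w then (1 : ℝ) else 0) + (1 / 2 ^ s) *
            (if ones w < 2 * s / 5 then (1 : ℝ) else 0)) := by
        intro w _
        rw [← mul_add, ← mul_add]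
        apply mul_le_mul_of_nonneg_left _ (by positivity)
        have hxw : 0 < 3 ^ ones w * x / 2 ^ s := by positivity
        have hD1 := hΦ1 _ hxw
        have h0 := hgM (0.99995 * u)
        by_cases hc : s - 2 * s / 5 < ones w
        · rw [if_pos hc]
          split_ifs <;> linarith
        · rw [if_neg hc]
          by_cases hc2 : ones w < 2 * s / 5
          · rw [if_pos hc2]; linarith
          · rw [if_neg hc2]
            have h2 := shift_up s (ones w) u x hx hu hu3000 hs2 (not_lt.1 hc)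
            have h2' := shift_down s (ones w) u x hx hu hu3000 hs1 (not_lt.1 hc2)
            have hn : Real.log (3 ^ ones w * x / 2 ^ s) ≤ n := by
              push_cast at hxn
              linarith
            have hv' : v0 ≤ Real.log (3 ^ ones w * x / 2 ^ s) := by
              rw [hv0]; linarith
            have := (ih _ hxw hv' hn).trans (hgmono _ _ h2)
            linarith
      have hsum := sum_le_sum hterm
      rw [sum_add_distrib, sum_add_distrib, ← mul_sum, ← mul_sum, ← mul_sum, ← mul_sum,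
        ← sum_filter, ← sum_filter, sum_const, sum_const, sum_const,
        card_words, nsmul_eq_mul, nsmul_eq_mul, nsmul_eq_mul, mul_one, mul_one] at hsum
      have hbad : (1 / 2 ^ s : ℝ) * ((words s).filter (fun w => s - 2 * s / 5 < ones w)).card
          ≤ C1 / (s : ℝ) ^ 1 := by
        refine le_trans ?_ (h981 s hs3)
        rw [one_div_mul_eq_div, div_le_iff₀ (by positivity)]
        exact (many_ones s).trans (le_of_eq (mul_comm _ _))
      have hbad' : (1 / 2 ^ s : ℝ) * ((words s).filter (fun w => ones w < 2 * s / 5)).card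
          ≤ C1 / (s : ℝ) ^ 1 := by
        refine le_trans ?_ (h981 s hs3)
        rw [one_div_mul_eq_div, div_le_iff₀ (by positivity)]
        exact (few_ones s).trans (le_of_eq (mul_comm _ _))
      have hgg : (1 / 2 ^ s : ℝ) * (((2 ^ s : ℕ) : ℝ) * g (0.99995 * u)) = g (0.99995 * u) := by
        push_cast
        field_simp
      rw [hgg] at hsum
      rw [← mul_sum] at h1
      have hD : Φ x ≤ g (0.99995 * u) + C2 / u := by
        have e1 : (C0 + 2 * C1) / (s : ℝ) ≤ C2 / u := by
          rw [hC2, div_le_div_iff₀ (by positivity) (by positivity), mul_assoc]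
          apply mul_le_mul_of_nonneg_left _ (by positivity)
          linarith
        have e2 : (C0 + 2 * C1) / (s : ℝ)
            = C0 / (s : ℝ) + C1 / (s : ℝ) + C1 / (s : ℝ) := by ring
        rw [pow_one] at hbad hbad'
        linarith
      refine hD.trans ?_
      -- compare
      have hmax1 : max (0.99995 * u) v0 = 0.99995 * u := max_eq_left (by rw [hv0]; linarith)
      have hmax2 : max u v0 = u := max_eq_left (by rw [hv0]; linarith)
      simp only [hg, hmax1, hmax2]
      have hfin : C2 / u ≤ C' * (1 / (0.99995 * u) - 1 / u) := by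
        have e3 : C' * (1 / (0.99995 * u) - 1 / u) = C2 / u / 0.99995 := by
          rw [hC']; field_simp; ring
        rw [e3, le_div_iff₀ (by norm_num)]
        have : 0 ≤ C2 / u := by positivity
        linarith
      have e4 : C' * (1 / v0 - 1 / u)
          = C' * (1 / v0 - 1 / (0.99995 * u)) + C' * (1 / (0.99995 * u) - 1 / u) := by
        ring
      rw [e4]
      linarith
  intro x hx hv
  obtain ⟨n, hn⟩ := exists_nat_ge (Real.log x)
  exact (key n x hx hv hn).trans (hgtop _)

/-- two-sided form -/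
theorem window_two (C0 : ℝ) (hC0 : 0 ≤ C0) : ∃ C : ℝ, 0 ≤ C ∧
    ∀ (Φ : ℝ → ℝ) (L M ε u0 : ℝ), (∀ x : ℝ, 0 < x → 0 ≤ Φ x ∧ Φ x ≤ 1) → 50000 ≤ u0 →
      L ≤ 0.993 * u0 →
      (∀ (s : ℕ) (x : ℝ), 1 ≤ s → 0 < x → (s : ℝ) * 2.78 + L ≤ Real.log x →
        |Φ x - ∑ w ∈ words s, (1 / 2 ^ s) * Φ (3 ^ ones w * x / 2 ^ s)| ≤ C0 / s) →
      (∀ z : ℝ, 0 < z → 0.999 * u0 ≤ Real.log z → Real.log z ≤ u0 → |Φ z - M| ≤ ε) →
      ∀ x : ℝ, 0 < x → 0.999 * u0 ≤ Real.log x → |Φ x - M| ≤ ε + C / u0 := by
  obtain ⟨C, hC, h⟩ := window_abs C0 hC0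
  refine ⟨C, hC, ?_⟩
  intro Φ L M ε u0 hΦ hu0 hL htp hbase x hx hv
  have hz0 : (0 : ℝ) < Real.exp u0 := Real.exp_pos _
  have hb0 := hbase (Real.exp u0) hz0 (by rw [Real.log_exp]; linarith) (by rw [Real.log_exp])
  have hΦ0 := hΦ (Real.exp u0) hz0
  have hb1 := abs_le.1 hb0
  have h1 := h Φ L (M + ε) u0 (fun z hz => (hΦ z hz).2) (by linarith) hu0 hL
    (fun s z hs hz hl => by
      have := (abs_le.1 (htp s z hs hz hl)).2
      linarith)
    (fun z hz h1 h2 => by
      have := (abs_le.1 (hbase z hz h1 h2)).2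
      linarith) x hx hv
  have h2 := h (fun z => 1 - Φ z) L (1 - M + ε) u0 (fun z hz => by
      have := (hΦ z hz).1
      linarith) (by linarith) hu0 hL
    (fun s z hs hz hl => by
      have h3 := (abs_le.1 (htp s z hs hz hl)).1
      have e : ∑ w ∈ words s, (1 / 2 ^ s : ℝ) * (1 - Φ (3 ^ ones w * z / 2 ^ s)) =
          1 - ∑ w ∈ words s, (1 / 2 ^ s) * Φ (3 ^ ones w * z / 2 ^ s) := by
        simp only [mul_sub, mul_one, sum_sub_distrib]
        rw [sum_const, card_words, nsmul_eq_mul]
        congr 1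
        push_cast
        field_simp
      rw [e]
      linarith)
    (fun z hz h1 h2 => by
      have := (abs_le.1 (hbase z hz h1 h2)).1
      linarith) x hx hv
  rw [abs_le]
  constructor <;> linarith

end DF
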