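import Mathlib
import Pool.Agent.Lib_helper1.DF.Window

/-!
# Smoothed densities
-/

set_option autoImplicit false

namespace DF

open Finset ND Pool.Agent.LibHelper3

/-- smoothed weight -/
noncomputable def psi (h : ℝ) (J : ℕ) (x : ℝ) (n : ℕ) : ℝ :=
  ∑ j ∈ range J, if (n : ℝ) ≤ Real.exp (j * h) * x then 1 / (Real.exp (j * h) * x) else 0

/-- smoothed density -/
noncomputable def Phi (B : Set ℕ) (h : ℝ) (J : ℕ) (x : ℝ) : ℝ :=
  (∑ j ∈ range J, D B (Real.exp (j * h) * x)) / J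

/-- the geometric constant -/
noncomputable def ch (h : ℝ) : ℝ := 1 / (1 - Real.exp (-h))

theorem exp_pow (h : ℝ) (j : ℕ) : Real.exp (-h) ^ j = (Real.exp (j * h))⁻¹ := by
  rw [← Real.exp_neg, ← Real.exp_nat_mul]
  congr 1; ring

theorem exp_lt_one {h : ℝ} (hh : 0 < h) : Real.exp (-h) < 1 := by
  rw [Real.exp_lt_one_iff]; linarith

theorem ch_pos {h : ℝ} (hh : 0 < h) : 0 < ch h := by
  unfold ch
  have := exp_lt_one hh
  exact one_div_pos.2 (by linarith)

theorem ch_le {h : ℝ} (hh : 0 < h) : h * ch h ≤ 1 + h := by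
  unfold ch
  have h1 := exp_lt_one hh
  rw [mul_one_div, div_le_iff₀ (by linarith)]
  have h2 : Real.exp (-h) * (1 + h) ≤ 1 := by
    have h3 := Real.add_one_le_exp h
    calc Real.exp (-h) * (1 + h) ≤ Real.exp (-h) * Real.exp h := by
          apply mul_le_mul_of_nonneg_left _ (Real.exp_pos _).le
          linarith
      _ = 1 := by rw [← Real.exp_add]; simp
  linarith

theorem ch_ge {h : ℝ} (hh : 0 < h) : 1 - h ≤ h * (Real.exp (-h) * ch h) := by
  unfold ch
  have h1 := exp_lt_one hh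
  rw [mul_one_div, mul_div_assoc', le_div_iff₀ (by linarith)]
  have h2 := Real.add_one_le_exp (-h)
  linarith

theorem term_eq (h : ℝ) (j : ℕ) (x : ℝ) : 1 / (Real.exp (j * h) * x) = Real.exp (-h) ^ j / x := by
  rw [exp_pow, one_div, mul_inv]
  rfl

theorem psi_nonneg {h : ℝ} {J : ℕ} {x : ℝ} (hx : 0 < x) (n : ℕ) : 0 ≤ psi h J x n := by
  unfold psi
  refine sum_nonneg fun j _ => ?_
  split_ifs
  · positivity
  · exact le_rfl

theorem psi_le_x {h : ℝ} (hh : 0 < h) {J : ℕ} {x : ℝ} (hx : 0 < x) (n : ℕ) :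
    psi h J x n ≤ ch h / x := by
  have h1 := exp_lt_one hh
  have h0 := (Real.exp_pos (-h)).le
  unfold psi
  calc _ ≤ ∑ j ∈ Ico 0 J, Real.exp (-h) ^ j / x := by
        rw [← range_eq_Ico]
        refine sum_le_sum fun j _ => ?_
        split_ifs
        · rw [term_eq]
        · positivity
    _ = (∑ j ∈ Ico 0 J, Real.exp (-h) ^ j) / x := by rw [sum_div]
    _ ≤ (Real.exp (-h) ^ 0 / (1 - Real.exp (-h))) / x := by
        apply div_le_div_of_nonneg_right _ hx.le
        exact geom_sum_Ico_le_of_lt_one h0 h1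
    _ = ch h / x := by unfold ch; simp

theorem psi_zero {h : ℝ} (hh : 0 < h) {J : ℕ} {x : ℝ} (hx : 0 < x) {n : ℕ}
    (hn : Real.exp (J * h) * x < n) : psi h J x n = 0 := by
  unfold psi
  refine sum_eq_zero fun j hj => ?_
  rw [mem_range] at hj
  rw [if_neg]
  rw [not_le]
  refine lt_of_le_of_lt ?_ hn
  apply mul_le_mul_of_nonneg_right _ hx.le
  apply Real.exp_le_exp.2
  have : (j : ℝ) ≤ J := by exact_mod_cast hj.le
  nlinarith

/-- the filter of admissible indices is an interval -/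
theorem psi_eq {h : ℝ} (hh : 0 < h) {J : ℕ} {x : ℝ} (hx : 0 < x) {n : ℕ}
    (hn : (n : ℝ) ≤ Real.exp ((J : ℝ) * h) * x) :
    ∃ j0 ≤ J, (n : ℝ) ≤ Real.exp (j0 * h) * x ∧
      (j0 = 0 ∨ Real.exp (((j0 - 1 : ℕ) : ℝ) * h) * x < n) ∧
      psi h J x n = ∑ j ∈ Ico j0 J, Real.exp (-h) ^ j / x := by
  classical
  have hex : ∃ j : ℕ, (n : ℝ) ≤ Real.exp (j * h) * x := ⟨J, hn⟩
  refine ⟨Nat.find hex, Nat.find_min' hex hn, Nat.find_spec hex, ?_, ?_⟩
  · rcases Nat.eq_zero_or_pos (Nat.find hex) with h0 | h0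
    · left; exact h0
    · right
      have := Nat.find_min hex (m := Nat.find hex - 1) (by omega)
      exact not_le.1 this
  · unfold psi
    rw [← sum_filter]
    have e : (range J).filter (fun j : ℕ => (n : ℝ) ≤ Real.exp (j * h) * x) = Ico (Nat.find hex) J := by
      ext j
      rw [mem_filter, mem_range, mem_Ico]
      constructor
      · rintro ⟨h1, h2⟩
        exact ⟨Nat.find_min' hex h2, h1⟩
      · rintro ⟨h1, h2⟩
        refine ⟨h2, (Nat.find_spec hex).trans ?_⟩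
        apply mul_le_mul_of_nonneg_right _ hx.le
        apply Real.exp_le_exp.2
        have : ((Nat.find hex : ℕ) : ℝ) ≤ j := by exact_mod_cast h1
        nlinarith
    rw [e]
    exact sum_congr rfl fun j _ => term_eq h j x

theorem psi_le_n {h : ℝ} (hh : 0 < h) {J : ℕ} {x : ℝ} (hx : 0 < x) {n : ℕ} (hn1 : 1 ≤ n) :
    psi h J x n ≤ ch h / n := by
  have h1 := exp_lt_one hh
  have h0 := (Real.exp_pos (-h)).le
  have hn0 : (0 : ℝ) < n := by exact_mod_cast hn1
  have hc := ch_pos hh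
  rcases le_or_gt (n : ℝ) (Real.exp ((J : ℝ) * h) * x) with hle | hgt
  · obtain ⟨j0, _, hj0, _, he⟩ := psi_eq hh hx hle
    rw [he, ← sum_div]
    calc (∑ j ∈ Ico j0 J, Real.exp (-h) ^ j) / x
        ≤ (Real.exp (-h) ^ j0 / (1 - Real.exp (-h))) / x :=
          div_le_div_of_nonneg_right (geom_sum_Ico_le_of_lt_one h0 h1) hx.le
      _ = ch h * (Real.exp (-h) ^ j0 / x) := by unfold ch; ring
      _ ≤ ch h * (1 / n) := by
          apply mul_le_mul_of_nonneg_left _ hc.le
          rw [← term_eq]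
          exact one_div_le_one_div_of_le hn0 hj0
      _ = ch h / n := by ring
  · rw [psi_zero hh hx hgt]
    positivity

theorem psi_ge {h lam : ℝ} (hh : 0 < h) (hlam : 0 ≤ lam) {J : ℕ} {x : ℝ} (hx : 0 < x) {n : ℕ}
    (hn1 : 1 ≤ n) (hxn : x ≤ n) (hn : (n : ℝ) * Real.exp lam ≤ Real.exp ((J : ℝ) * h) * x) :
    (1 / (n : ℝ)) * (Real.exp (-h) - Real.exp (-lam)) * ch h ≤ psi h J x n := by
  have h1 := exp_lt_one hh
  have h0 := Real.exp_pos (-h)
  have hn0 : (0 : ℝ) < n := by exact_mod_cast hn1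
  have hc := ch_pos hh
  have hle : (n : ℝ) ≤ Real.exp ((J : ℝ) * h) * x := by
    refine le_trans ?_ hn
    have : (1 : ℝ) ≤ Real.exp lam := Real.one_le_exp hlam
    nlinarith
  obtain ⟨j0, hj0J, hj0, hmin, he⟩ := psi_eq hh hx hle
  rw [he, ← sum_div]
  have hgeom : ∑ j ∈ Ico j0 J, Real.exp (-h) ^ j = (Real.exp (-h) ^ j0 - Real.exp (-h) ^ J) * ch h := by
    rw [geom_sum_Ico (by linarith) hj0J]
    unfold ch
    have : Real.exp (-h) - 1 ≠ 0 := by linarith
    have h2 : 1 - Real.exp (-h) ≠ 0 := by linarith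
    field_simp
    ring
  rw [hgeom, mul_div_right_comm]
  apply mul_le_mul_of_nonneg_right _ hc.le
  -- lower end
  have a1 : Real.exp (-h) * (1 / n) ≤ Real.exp (-h) ^ j0 / x := by
    rcases hmin with h2 | h2
    · rw [h2, pow_zero]
      have : 1 / (n : ℝ) ≤ 1 / x := one_div_le_one_div_of_le hx hxn
      have h3 : 0 ≤ 1 / (n : ℝ) := by positivity
      nlinarith
    · rcases Nat.eq_zero_or_pos j0 with h3 | h3
      · subst h3
        rw [pow_zero]
        have : 1 / (n : ℝ) ≤ 1 / x := one_div_le_one_div_of_le hx hxn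
        have h3 : 0 ≤ 1 / (n : ℝ) := by positivity
        nlinarith
      · obtain ⟨i, rfl⟩ : ∃ i, j0 = i + 1 := ⟨j0 - 1, by omega⟩
        rw [Nat.add_sub_cancel] at h2
        have h4 : 1 / (n : ℝ) ≤ 1 / (Real.exp (i * h) * x) :=
          one_div_le_one_div_of_le (by positivity) h2.le
        rw [term_eq] at h4
        calc Real.exp (-h) * (1 / n) ≤ Real.exp (-h) * (Real.exp (-h) ^ i / x) :=
              mul_le_mul_of_nonneg_left h4 h0.le
          _ = _ := by rw [pow_succ]; ring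
  have a2 : Real.exp (-h) ^ J / x ≤ Real.exp (-lam) * (1 / n) := by
    rw [← term_eq]
    have : Real.exp (-lam) * (1 / n) = 1 / (n * Real.exp lam) := by
      rw [Real.exp_neg]; field_simp
    rw [this]
    exact one_div_le_one_div_of_le (by positivity) hn
  rw [sub_div]
  have e : 1 / (n : ℝ) * (Real.exp (-h) - Real.exp (-lam)) =
      Real.exp (-h) * (1 / n) - Real.exp (-lam) * (1 / n) := by ring
  rw [e]
  linarith

theorem D_eq_sum (B : Set ℕ) {z X : ℝ} (hzX : z ≤ X) :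
    D B z = ∑ n ∈ Bc B X, if (n : ℝ) ≤ z then 1 / z else 0 := by
  rw [← sum_filter, sum_const, nsmul_eq_mul]
  unfold D N
  rw [mul_one_div]
  congr 3
  ext n
  rw [mem_filter, mem_Bc, mem_Bc]
  constructor
  · rintro ⟨h1, h2, h3⟩; exact ⟨⟨h1, h2.trans hzX, h3⟩, h2⟩
  · rintro ⟨⟨h1, h2, h3⟩, h4⟩; exact ⟨h1, h4, h3⟩

/-- the smoothed density as a weighted sum -/
theorem Phi_eq (B : Set ℕ) {h : ℝ} (hh : 0 < h) (J : ℕ) {x X : ℝ} (hx : 0 < x)
    (hX : Real.exp (J * h) * x ≤ X) : Phi B h J x = (∑ n ∈ Bc B X, psi h J x n) / J := by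
  unfold Phi psi
  congr 1
  rw [sum_comm]
  refine sum_congr rfl fun j hj => ?_
  rw [mem_range] at hj
  apply D_eq_sum
  refine le_trans ?_ hX
  apply mul_le_mul_of_nonneg_right _ hx.le
  apply Real.exp_le_exp.2
  have : (j : ℝ) ≤ J := by exact_mod_cast hj.le
  nlinarith

theorem Phi_mem (B : Set ℕ) (h : ℝ) (J : ℕ) {x : ℝ} (hx : 0 < x) :
    0 ≤ Phi B h J x ∧ Phi B h J x ≤ 1 := by
  unfold Phi
  constructor
  · apply div_nonneg _ (by positivity)
    exact sum_nonneg fun j _ => D_nonneg B (by positivity)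
  · rcases Nat.eq_zero_or_pos J with rfl | hJ
    · simp
    · have hJ0 : (0 : ℝ) < J := by exact_mod_cast hJ
      rw [div_le_one hJ0]
      calc _ ≤ ∑ j ∈ range J, (1 : ℝ) := sum_le_sum fun j _ => D_le_one B (by positivity)
        _ = J := by simp

/-- transfer principle for smoothed densities -/
theorem Phi_tp (mix : Mixing) : ∃ C : ℝ, 0 ≤ C ∧ ∀ (B : Set ℕ) (y : ℕ) (h : ℝ) (J : ℕ),
    (∀ n, y < n → (n ∈ B ↔ short n ∈ B)) → 0 < h → 1 ≤ J → ∀ (s : ℕ) (x : ℝ), 1 ≤ s → 0 < x →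
      (s : ℝ) * 2.78 + Real.log (y + 2) ≤ Real.log x →
      |Phi B h J x - ∑ w ∈ words s, (1 / 2 ^ s) * Phi B h J (3 ^ ones w * x / 2 ^ s)| ≤ C / s := by
  obtain ⟨C, hC, htp⟩ := tp mix 1
  refine ⟨C, hC, ?_⟩
  intro B y h J hB hh hJ s x hs hx hl
  have hJ0 : (0 : ℝ) < J := by exact_mod_cast hJ
  have e1 : ∑ w ∈ words s, (1 / 2 ^ s : ℝ) * Phi B h J (3 ^ ones w * x / 2 ^ s) =
      (∑ j ∈ range J, ∑ w ∈ words s, (1 / 2 ^ s) *
        D B (3 ^ ones w * (Real.exp (j * h) * x) / 2 ^ s)) / J := by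
    unfold Phi
    rw [sum_comm, sum_div]
    refine sum_congr rfl fun w _ => ?_
    rw [mul_div_assoc', mul_sum]
    congr 1
    refine sum_congr rfl fun j _ => ?_
    congr 2
    ring
  rw [e1]
  unfold Phi
  rw [← sub_div, ← sum_sub_distrib, abs_div, abs_of_pos hJ0, div_le_iff₀ hJ0]
  refine (abs_sum_le_sum_abs _ _).trans ?_
  calc _ ≤ ∑ j ∈ range J, C / s := by
        refine sum_le_sum fun j _ => ?_
        have h16 : (16 : ℝ) ^ s * (y + 2) ≤ Real.exp (j * h) * x := by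
          have h1 : (16 : ℝ) ^ s * (y + 2) ≤ x := by
            rw [← Real.log_le_log_iff (by positivity) hx, Real.log_mul (by positivity) (by positivity),
              Real.log_pow]
            have e1 : Real.log 16 = 4 * Real.log 2 := by
              rw [show (16 : ℝ) = 2 ^ 4 by norm_num, Real.log_pow]; norm_num
            rw [e1]
            have l2 := Real.log_two_lt_d9
            have hs0 : (0 : ℝ) ≤ s := by positivity
            nlinarith
          refine h1.trans ?_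
          have : (1 : ℝ) ≤ Real.exp (j * h) := Real.one_le_exp (by positivity)
          nlinarith
        have := htp B y s (Real.exp (j * h) * x) hB hs h16
        rw [pow_one] at this
        exact this
    _ = C / s * J := by rw [sum_const, card_range, nsmul_eq_mul]; ring

end DF
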