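import Mathlib
import Pool.Agent.Lib_helper1.DF.Psi
import Pool.Agent.Lib_helper1.DF.Low
import Pool.Agent.Lib_helper62.ND.Density

/-!
# Sums over a short interval of roots
-/

set_option autoImplicit false

namespace DF

open Finset ND PD Pool.Agent.LibHelper3

/-- sums of periodic functions over an interval longer than the period -/
theorem sum_Ioc_le {R y y2 : ℕ} (hy : y ≤ y2) (hR : 3 ^ R ≤ y2 - y) {F : ℕ → ℝ}
    (hF : ∀ a, F (a + 3 ^ R) = F a) (h0 : ∀ a, 0 ≤ F a) :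
    ∑ a ∈ Ioc y y2, F a ≤ 2 * ((y2 : ℝ) - y) / 3 ^ R * ∑ b ∈ range (3 ^ R), F b := by
  have h1 := sum_interval (N := 3 ^ R) (by positivity) hF h0 hy (I := Ioc y y2)
    (fun n hn => by rw [mem_Ioc] at hn; omega)
  refine h1.trans (mul_le_mul_of_nonneg_right ?_ (sum_nonneg fun b _ => h0 b))
  have h2 : (3 : ℝ) ^ R ≤ (y2 : ℝ) - y := by
    have : ((3 ^ R : ℕ) : ℝ) ≤ ((y2 - y : ℕ) : ℝ) := by exact_mod_cast hR
    rw [Nat.cast_sub hy] at this
    push_cast at this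
    exact this
  push_cast
  rw [le_div_iff₀ (by positivity)]
  have e : (((y2 : ℝ) - y) / 3 ^ R + 1) * 3 ^ R = (y2 : ℝ) - y + 3 ^ R := by field_simp
  rw [e]; linarith

/-- one word -/
theorem sum_T_Ioc {y y2 : ℕ} (hy : y ≤ y2) (u : List Bool) (hR : 3 ^ ones u ≤ y2 - y) :
    ∑ a ∈ Ioc y y2, T u (fun _ => 1) a ≤ 2 * ((y2 : ℝ) - y) / 2 ^ u.length := by
  have h1 := sum_Ioc_le hy hR (F := fun a => T u (fun _ => (1 : ℝ)) a)
    (fun a => T_period le_rfl (fun _ => rfl) a) (fun a => T_nonneg (fun _ => zero_le_one) a)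
  refine h1.trans (le_of_eq ?_)
  rw [sum_T u (ones u) le_rfl (fun _ => 1) (fun _ => rfl)]
  simp
  field_simp

/-- a set of words of length `k` -/
theorem sum_words_Ioc {k y y2 : ℕ} (hy : y ≤ y2) (hR : 3 ^ k ≤ y2 - y) (U : Finset (List Bool))
    (hU : U ⊆ words k) :
    ∑ a ∈ Ioc y y2, ∑ u ∈ U, T u (fun _ => 1) a ≤ 2 * ((y2 : ℝ) - y) * ((U.card : ℝ) / 2 ^ k) := by
  rw [sum_comm]
  have h1 : ∀ u ∈ U, ∑ a ∈ Ioc y y2, T u (fun _ => (1 : ℝ)) a ≤ 2 * ((y2 : ℝ) - y) / 2 ^ k := by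
    intro u hu
    have hl := mem_words.1 (hU hu)
    have hle : ones u ≤ k := by have := ones_le u; omega
    have := sum_T_Ioc hy u ((Nat.pow_le_pow_right (by norm_num) hle).trans hR)
    rwa [hl] at this
  refine (sum_le_sum h1).trans (le_of_eq ?_)
  rw [sum_const, nsmul_eq_mul]
  ring

theorem sum_f_Ioc {m y y2 : ℕ} (hy : y ≤ y2) (hR : 3 ^ m ≤ y2 - y) :
    ∑ a ∈ Ioc y y2, UKL.f m a ≤ 2 * ((y2 : ℝ) - y) := by
  refine (sum_Ioc_le hy hR (UKL.f_period m) (UKL.f_nonneg m)).trans (le_of_eq ?_)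
  rw [UKL.sum_f]
  field_simp

/-- total masses against the limit density -/
theorem sum_S1_sub_f (mix : Mixing) : ∃ C : ℝ, 0 ≤ C ∧ ∀ m k y y2 : ℕ, 1 ≤ m → m ≤ k → 3 ≤ k →
    y ≤ y2 → 3 ^ k ≤ y2 - y →
    ∑ a ∈ Ioc y y2, |S1 k a - UKL.f m a| ≤ 2 * ((y2 : ℝ) - y) * (C / k + C / m) := by
  obtain ⟨C1, hC1, h1⟩ := l1_S1 mix 1
  obtain ⟨C2, hC2, h2⟩ := l1 mix 1
  refine ⟨max C1 C2, le_max_of_le_left hC1, ?_⟩
  intro m k y y2 hm hmk hk hy hR
  have hy' : (0 : ℝ) ≤ (y2 : ℝ) - y := by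
    have : (y : ℝ) ≤ y2 := by exact_mod_cast hy
    linarith
  have hmp : ∀ a, UKL.f m (a + 3 ^ k) = UKL.f m a := by
    intro a
    have e : k = m + (k - m) := by omega
    rw [e]
    exact period_up (UKL.f_period m) _ a
  have h3 := sum_Ioc_le hy hR (F := fun a => |S1 k a - UKL.f m a|)
    (fun a => by simp only [S1_period, hmp]) (fun a => abs_nonneg _)
  refine h3.trans ?_
  have h4 := h1 k k hk le_rfl
  have h5 := h2 m k hm hmk
  rw [pow_one] at h4 h5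
  have hk0 : (0 : ℝ) < k := by exact_mod_cast (by omega : 0 < k)
  have hm0 : (0 : ℝ) < m := by exact_mod_cast (by omega : 0 < m)
  have h6 : ∑ b ∈ range (3 ^ k), |S1 k b - UKL.f m b| ≤
      3 ^ k * (max C1 C2 / k + max C1 C2 / m) := by
    calc ∑ b ∈ range (3 ^ k), |S1 k b - UKL.f m b|
        ≤ ∑ b ∈ range (3 ^ k), (|UKL.f k b - S1 k b| + |UKL.f k b - UKL.f m b|) := by
          refine sum_le_sum fun b _ => ?_
          have := abs_sub_abs_le_abs_sub (S1 k b - UKL.f m b) 0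
          have e : S1 k b - UKL.f m b = -(UKL.f k b - S1 k b) + (UKL.f k b - UKL.f m b) := by ring
          rw [e]
          refine (abs_add_le _ _).trans ?_
          rw [abs_neg]
      _ ≤ 3 ^ k * (C1 / k) + 3 ^ k * (C2 / m) := by
          rw [sum_add_distrib]; linarith
      _ ≤ 3 ^ k * (max C1 C2 / k) + 3 ^ k * (max C1 C2 / m) := by
          gcongr
          · exact le_max_left _ _
          · exact le_max_right _ _
      _ = _ := by ring
  calc 2 * ((y2 : ℝ) - y) / 3 ^ k * ∑ b ∈ range (3 ^ k), |S1 k b - UKL.f m b|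
      ≤ 2 * ((y2 : ℝ) - y) / 3 ^ k * (3 ^ k * (max C1 C2 / k + max C1 C2 / m)) := by gcongr
    _ = _ := by field_simp

/-- typical words -/
noncomputable def typ (k : ℕ) (t : ℝ) : Finset (List Bool) :=
  (words k).filter (fun w => ¬ t < |2 * (ones w : ℝ) - k|)

noncomputable def atyp (k : ℕ) (t : ℝ) : Finset (List Bool) :=
  (words k).filter (fun w => t < |2 * (ones w : ℝ) - k|)

theorem atyp_card (k : ℕ) (t : ℝ) (ht : 0 < t) : ((atyp k t).card : ℝ) / 2 ^ k ≤ k / t ^ 2 := by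
  rw [div_le_iff₀ (by positivity)]
  refine (cheb k t ht).trans (le_of_eq ?_)
  ring

theorem sum_typ_atyp {M : Type*} [AddCommMonoid M] (k : ℕ) (t : ℝ) (F : List Bool → M) :
    ∑ w ∈ words k, F w = ∑ w ∈ typ k t, F w + ∑ w ∈ atyp k t, F w := by
  unfold typ atyp
  rw [add_comm, sum_filter_add_sum_filter_not]

/-- size of the nodes -/
theorem nd_bounds {k a : ℕ} {u : List Bool} (hu : u.length = k) (hv : PD.val u a)
    {τ : ℝ} (hτ0 : 0 ≤ τ) (hτ : τ ≤ 1 / 2) (h3 : (3 : ℝ) ^ ones u ≤ τ * a) (ha : 1 ≤ a) :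
    1 ≤ nd u a ∧ (nd u a : ℝ) ≤ 2 ^ k / 3 ^ ones u * a ∧
      2 ^ k / 3 ^ ones u * a * (1 - τ) ≤ nd u a ∧
      3 ^ ones u / 2 ^ k / a ≤ 1 / (nd u a : ℝ) ∧
      1 / (nd u a : ℝ) ≤ 3 ^ ones u / 2 ^ k / a * (1 + 2 * τ) := by
  have ha0 : (0 : ℝ) < a := by exact_mod_cast ha
  have h1 := nd_eq u a hv
  rw [hu] at h1
  have h1' : (2 : ℝ) ^ k * a = 3 ^ ones u * nd u a + uo u := by exact_mod_cast h1
  have h2 : (uo u : ℝ) ≤ 2 ^ k * 3 ^ ones u := by
    have := (uo_lt u).le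
    rw [hu] at this
    exact_mod_cast this
  have h3p : (0 : ℝ) < 3 ^ ones u := by positivity
  have h2p : (0 : ℝ) < 2 ^ k := by positivity
  have hlow : 2 ^ k / 3 ^ ones u * a * (1 - τ) ≤ nd u a := by
    have e : 2 ^ k / 3 ^ ones u * a * (1 - τ) = (2 ^ k * a - 2 ^ k * (τ * a)) / 3 ^ ones u := by
      field_simp
    rw [e, div_le_iff₀ h3p]
    have : (2 : ℝ) ^ k * 3 ^ ones u ≤ 2 ^ k * (τ * a) := mul_le_mul_of_nonneg_left h3 h2p.le
    linarith
  have hup : (nd u a : ℝ) ≤ 2 ^ k / 3 ^ ones u * a := by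
    rw [div_mul_eq_mul_div, le_div_iff₀ h3p]
    have : (0 : ℝ) ≤ uo u := by positivity
    linarith
  have hpos : (0 : ℝ) < nd u a := by
    refine lt_of_lt_of_le ?_ hlow
    have : (0 : ℝ) < 1 - τ := by linarith
    positivity
  refine ⟨by exact_mod_cast hpos, hup, hlow, ?_, ?_⟩
  · rw [div_div, div_le_div_iff₀ (by positivity) hpos]
    rw [div_mul_eq_mul_div, le_div_iff₀ h3p] at hup
    linarith
  · rw [div_le_iff₀ hpos]
    have h4 : 3 ^ ones u / 2 ^ k / a * (1 + 2 * τ) * (2 ^ k / 3 ^ ones u * a * (1 - τ)) ≤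
        3 ^ ones u / 2 ^ k / a * (1 + 2 * τ) * nd u a :=
      mul_le_mul_of_nonneg_left hlow (by positivity)
    have e : 3 ^ ones u / 2 ^ k / a * (1 + 2 * τ) * (2 ^ k / 3 ^ ones u * a * (1 - τ)) =
        (1 + 2 * τ) * (1 - τ) := by field_simp
    rw [e] at h4
    nlinarith

/-- weight of a node -/
noncomputable def Ts (h : ℝ) (J : ℕ) (x : ℝ) (u : List Bool) (a : ℕ) : ℝ :=
  if PD.val u a then psi h J x (nd u a) else 0

theorem Ts_nonneg {h : ℝ} {J : ℕ} {x : ℝ} (hx : 0 < x) (u : List Bool) (a : ℕ) :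
    0 ≤ Ts h J x u a := by
  unfold Ts
  split_ifs
  · exact psi_nonneg hx _
  · exact le_rfl

/-- crude bound -/
theorem Ts_le {h : ℝ} (hh : 0 < h) {J : ℕ} {x : ℝ} (hx : 0 < x) {k a y : ℕ} {u : List Bool}
    (hu : u.length = k) (hya : y ≤ a) (hy1 : 1 ≤ y) (h3 : 2 * 3 ^ k ≤ y) :
    Ts h J x u a ≤ 2 * ch h / y * T u (fun _ => 1) a := by
  unfold Ts T
  have hc := ch_pos hh
  have hy0 : (0 : ℝ) < y := by exact_mod_cast hy1
  split_ifs with hv
  · have hle : ones u ≤ k := by have := ones_le u; omega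
    have hyar : (y : ℝ) ≤ a := by exact_mod_cast hya
    have ha0 : (0 : ℝ) < a := by linarith
    have h4 : (3 : ℝ) ^ ones u ≤ 1 / 2 * a := by
      have h5 : (3 : ℝ) ^ ones u ≤ 3 ^ k := pow_le_pow_right₀ (by norm_num) hle
      have h6 : (2 : ℝ) * 3 ^ k ≤ y := by exact_mod_cast h3
      linarith
    have hb := nd_bounds hu hv (by norm_num : (0 : ℝ) ≤ 1 / 2) le_rfl h4 (by omega)
    have h5 := psi_le_n hh (J := J) hx hb.1
    have h6 : 3 ^ ones u / 2 ^ k / (a : ℝ) ≤ 3 ^ ones u / 2 ^ k / y :=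
      div_le_div_of_nonneg_left (by positivity) hy0 hyar
    calc psi h J x (nd u a) ≤ ch h / (nd u a) := h5
      _ = ch h * (1 / (nd u a)) := by ring
      _ ≤ ch h * (3 ^ ones u / 2 ^ k / a * (1 + 2 * (1 / 2))) :=
          mul_le_mul_of_nonneg_left hb.2.2.2.2 hc.le
      _ ≤ ch h * (3 ^ ones u / 2 ^ k / y * (1 + 2 * (1 / 2))) := by gcongr
      _ = _ := by rw [hu]; ring
  · simp

end DF
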