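import Mathlib
import Pool.Agent.Lib_helper1.DF.Weights

/-!
# The elementary evaluation of the smoothed weights of the predecessors of short range
-/

set_option autoImplicit false

namespace DF

open Finset ND PD Pool.Agent.LibHelper3

/-- the drift -/
noncomputable def m0 : ℝ := Real.log (4 / 3) / 2

theorem m0_ge : 0.1437 ≤ m0 := mu_ge
theorem m0_pos : 0 < m0 := by have := m0_ge; linarith

theorem m0_eq : m0 = Real.log 2 - Real.log 3 / 2 := by
  unfold m0
  rw [Real.log_div (by norm_num) (by norm_num), show (4 : ℝ) = 2 ^ 2 by norm_num, Real.log_pow]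
  push_cast
  ring

/-- `2^k/3^p` for typical words -/
theorem ratio_bounds {k : ℕ} {t : ℝ} {u : List Bool} (hu : u ∈ typ k t) (ht : 0 ≤ t) :
    Real.exp (k * m0 - 0.55 * t) ≤ 2 ^ k / 3 ^ ones u ∧
      (2 : ℝ) ^ k / 3 ^ ones u ≤ Real.exp (k * m0 + 0.55 * t) := by
  unfold typ at hu
  rw [mem_filter, not_lt] at hu
  have h1 := abs_le.1 hu.2
  have h3 : Real.log 3 ≤ 1.1 := by have := log_three_le; linarith
  have h30 : 0 ≤ Real.log 3 := Real.log_nonneg (by norm_num)
  have e : (2 : ℝ) ^ k / 3 ^ ones u = Real.exp (k * m0 - (2 * (ones u : ℝ) - k) * (Real.log 3 / 2)) := by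
    have e1 : (3 : ℝ) ^ ones u = Real.exp (ones u * Real.log 3) := by
      rw [mul_comm, Real.exp_mul, Real.exp_log (by norm_num), Real.rpow_natCast]
    have e2 : (2 : ℝ) ^ k = Real.exp (k * Real.log 2) := by
      rw [mul_comm, Real.exp_mul, Real.exp_log (by norm_num), Real.rpow_natCast]
    rw [e1, e2, ← Real.exp_sub, m0_eq]
    congr 1
    ring
  rw [e]
  have h4 : |(2 * (ones u : ℝ) - k) * (Real.log 3 / 2)| ≤ 0.55 * t := by
    rw [abs_mul, abs_of_nonneg (by positivity : (0 : ℝ) ≤ Real.log 3 / 2)]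
    have : |2 * (ones u : ℝ) - k| ≤ t := hu.2
    calc |2 * (ones u : ℝ) - k| * (Real.log 3 / 2) ≤ t * (1.1 / 2) := by gcongr
      _ = 0.55 * t := by ring
  have h5 := abs_le.1 h4
  constructor
  · apply Real.exp_le_exp.2; linarith
  · apply Real.exp_le_exp.2; linarith

/-- parameters -/
structure Par where
  h : ℝ
  J : ℕ
  x : ℝ
  K : ℕ
  y : ℕ
  y2 : ℕ
  t : ℝ
  τ : ℝ
  hh : 0 < h
  hh1 : h ≤ 1
  hJ : 1 ≤ J
  hx : 0 < x
  hy : 1 ≤ y
  hyy : y < y2
  hy2 : y2 ≤ 2 * y
  hK : 3 ^ K ≤ y2 - y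
  hK2 : 2 * 3 ^ K ≤ y
  hτ0 : 0 ≤ τ
  hτ : τ ≤ 1 / 2
  hKτ : (3 : ℝ) ^ K ≤ τ * y
  ht : 20 ≤ t

namespace Par

variable (P : Par)

/-- logarithmic distance -/
noncomputable def v : ℝ := Real.log P.x - Real.log P.y
/-- length of the range -/
noncomputable def l : ℝ := P.J * P.h
/-- relative size of the interval -/
noncomputable def W : ℝ := ((P.y2 : ℝ) - P.y) / P.y
/-- relative error -/
noncomputable def ρ : ℝ := P.h + 2 * Real.exp (-(0.4 * P.t)) + 4 * P.τ

theorem y_pos : (0 : ℝ) < P.y := by exact_mod_cast P.hy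
theorem W_nonneg : 0 ≤ P.W := by
  unfold W
  apply div_nonneg _ P.y_pos.le
  have : (P.y : ℝ) ≤ P.y2 := by exact_mod_cast P.hyy.le
  linarith

theorem x_eq : P.x = P.y * Real.exp P.v := by
  unfold v
  rw [Real.exp_sub, Real.exp_log P.hx, Real.exp_log P.y_pos]
  have := P.y_pos
  field_simp

theorem pow_le {k : ℕ} (hk : k < P.K) : 3 ^ k ≤ P.y2 - P.y :=
  (Nat.pow_le_pow_right (by norm_num) hk.le).trans P.hK

theorem pow_le2 {k : ℕ} (hk : k < P.K) : 2 * 3 ^ k ≤ P.y :=
  (Nat.mul_le_mul_left _ (Nat.pow_le_pow_right (by norm_num) hk.le)).trans P.hK2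

/-- sizes of the nodes -/
theorem node {k a : ℕ} {u : List Bool} (hk : k < P.K) (ha : a ∈ Ioc P.y P.y2)
    (hu : u ∈ words k) (hv : PD.val u a) :
    1 ≤ nd u a ∧ 3 ^ ones u / 2 ^ k / (a : ℝ) ≤ 1 / (nd u a : ℝ) ∧
      1 / (nd u a : ℝ) ≤ 3 ^ ones u / 2 ^ k / a * (1 + 2 * P.τ) ∧
      (2 : ℝ) ^ k / 3 ^ ones u * ((P.y : ℝ) / 2) ≤ (nd u a : ℝ) ∧
      (nd u a : ℝ) ≤ 2 ^ k / 3 ^ ones u * (2 * P.y) := by
  rw [mem_Ioc] at ha
  have hl := mem_words.1 hu
  have hle : ones u ≤ k := by have := ones_le u; omega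
  have ha' : (P.y : ℝ) ≤ a := by exact_mod_cast ha.1.le
  have ha2 : (a : ℝ) ≤ 2 * P.y := by
    have : a ≤ 2 * P.y := ha.2.trans P.hy2
    exact_mod_cast this
  have h3 : (3 : ℝ) ^ ones u ≤ P.τ * a := by
    have h4 : (3 : ℝ) ^ ones u ≤ 3 ^ P.K := pow_le_pow_right₀ (by norm_num) (by omega)
    have h5 := P.hKτ
    have h6 := mul_le_mul_of_nonneg_left ha' P.hτ0
    linarith
  have h := nd_bounds hl hv P.hτ0 P.hτ h3 (by omega)
  have hy0 := P.y_pos
  refine ⟨h.1, h.2.2.2.1, h.2.2.2.2, ?_, ?_⟩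
  · refine le_trans ?_ h.2.2.1
    have h7 := P.hτ
    rw [mul_assoc]
    apply mul_le_mul_of_nonneg_left _ (by positivity)
    nlinarith
  · refine h.2.1.trans ?_
    apply mul_le_mul_of_nonneg_left ha2 (by positivity)

/-- crude bound for a set of words of length `k` -/
theorem crude {k : ℕ} (hk : k < P.K) (U : Finset (List Bool)) (hU : U ⊆ words k) :
    ∑ a ∈ Ioc P.y P.y2, ∑ u ∈ U, Ts P.h P.J P.x u a ≤
      P.W * (4 * ch P.h * ((U.card : ℝ) / 2 ^ k)) := by
  have h1 := sum_words_Ioc P.hyy.le (P.pow_le hk) U hU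
  have hc := ch_pos P.hh
  have hy0 := P.y_pos
  calc ∑ a ∈ Ioc P.y P.y2, ∑ u ∈ U, Ts P.h P.J P.x u a
      ≤ ∑ a ∈ Ioc P.y P.y2, ∑ u ∈ U, 2 * ch P.h / P.y * T u (fun _ => 1) a := by
        refine sum_le_sum fun a ha => sum_le_sum fun u hu => ?_
        rw [mem_Ioc] at ha
        exact Ts_le P.hh P.hx (mem_words.1 (hU hu)) ha.1.le P.hy (P.pow_le2 hk)
    _ = 2 * ch P.h / P.y * ∑ a ∈ Ioc P.y P.y2, ∑ u ∈ U, T u (fun _ => 1) a := by
        rw [mul_sum]
        refine sum_congr rfl fun a _ => ?_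
        rw [mul_sum]
    _ ≤ 2 * ch P.h / P.y * (2 * ((P.y2 : ℝ) - P.y) * ((U.card : ℝ) / 2 ^ k)) :=
        mul_le_mul_of_nonneg_left h1 (by positivity)
    _ = _ := by unfold W; ring

/-- short lengths -/
theorem low {k : ℕ} (hk : k < P.K) (hz : (k : ℝ) * m0 ≤ P.v - P.t) :
    ∑ a ∈ Ioc P.y P.y2, ∑ u ∈ typ k P.t, Ts P.h P.J P.x u a ≤
      P.W * (4 * ch P.h * Real.exp (-(0.4 * P.t))) := by
  have hc := ch_pos P.hh
  have hy0 := P.y_pos
  have ht := P.ht
  have h1 := sum_words_Ioc P.hyy.le (P.pow_le hk) (typ k P.t) (filter_subset _ _)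
  have h2 : ((typ k P.t).card : ℝ) / 2 ^ k ≤ 1 := by
    rw [div_le_one (by positivity)]
    have : (typ k P.t).card ≤ 2 ^ k := by
      rw [← card_words k]; exact card_le_card (filter_subset _ _)
    exact_mod_cast this
  have h3 : ∀ a ∈ Ioc P.y P.y2, ∀ u ∈ typ k P.t, Ts P.h P.J P.x u a ≤
      Real.exp (-(0.4 * P.t)) * (2 * ch P.h / P.y) * T u (fun _ => 1) a := by
    intro a ha u hu
    have huw : u ∈ words k := (mem_filter.1 hu).1
    unfold Ts T
    split_ifs with hv
    · have hn := P.node hk ha huw hv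
      have hr := ratio_bounds hu (by linarith)
      have hn0 : (0 : ℝ) < nd u a := by exact_mod_cast hn.1
      rw [mem_Ioc] at ha
      have ha' : (P.y : ℝ) ≤ a := by exact_mod_cast ha.1.le
      have h4 : (nd u a : ℝ) ≤ P.x * Real.exp (-(0.4 * P.t)) := by
        calc (nd u a : ℝ) ≤ 2 ^ k / 3 ^ ones u * (2 * P.y) := hn.2.2.2.2
          _ ≤ Real.exp (k * m0 + 0.55 * P.t) * (2 * P.y) := by
              apply mul_le_mul_of_nonneg_right hr.2 (by positivity)
          _ ≤ Real.exp (P.v - 0.45 * P.t) * (2 * P.y) := by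
              apply mul_le_mul_of_nonneg_right _ (by positivity)
              apply Real.exp_le_exp.2; linarith
          _ = P.y * Real.exp P.v * Real.exp (-(0.4 * P.t)) * (2 * Real.exp (-(0.05 * P.t))) := by
              have : P.v - 0.45 * P.t = P.v + (-(0.4 * P.t) + -(0.05 * P.t)) := by ring
              rw [this, Real.exp_add, Real.exp_add]; ring
          _ ≤ P.y * Real.exp P.v * Real.exp (-(0.4 * P.t)) * 1 := by
              apply mul_le_mul_of_nonneg_left _ (by positivity)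
              have h5 : Real.exp (-(0.05 * P.t)) ≤ Real.exp (-1) :=
                Real.exp_le_exp.2 (by linarith)
              have h6 : Real.exp (-1) ≤ 1 / 2 := by
                rw [Real.exp_neg, inv_le_comm₀ (Real.exp_pos _) (by norm_num)]
                have := Real.exp_one_gt_d9
                norm_num; linarith
              linarith
          _ = _ := by rw [P.x_eq]; ring
      have h5 : psi P.h P.J P.x (nd u a) ≤ ch P.h / P.x := psi_le_x P.hh P.hx _
      have h6 : 1 / P.x ≤ Real.exp (-(0.4 * P.t)) * (1 / (nd u a : ℝ)) := by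
        rw [mul_one_div, div_le_div_iff₀ P.hx hn0]
        linarith
      have h7 : 3 ^ ones u / 2 ^ k / (a : ℝ) ≤ 3 ^ ones u / 2 ^ k / P.y :=
        div_le_div_of_nonneg_left (by positivity) hy0 ha'
      have h8 := P.hτ
      have h9 := P.hτ0
      calc psi P.h P.J P.x (nd u a) ≤ ch P.h / P.x := h5
        _ = ch P.h * (1 / P.x) := by ring
        _ ≤ ch P.h * (Real.exp (-(0.4 * P.t)) * (1 / (nd u a : ℝ))) := by gcongr
        _ ≤ ch P.h * (Real.exp (-(0.4 * P.t)) * (3 ^ ones u / 2 ^ k / a * (1 + 2 * P.τ))) := by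
            have := hn.2.2.1
            gcongr
        _ ≤ ch P.h * (Real.exp (-(0.4 * P.t)) * (3 ^ ones u / 2 ^ k / P.y * (1 + 2 * (1 / 2)))) := by
            gcongr
        _ = _ := by rw [mem_words.1 huw]; ring
    · simp
  calc ∑ a ∈ Ioc P.y P.y2, ∑ u ∈ typ k P.t, Ts P.h P.J P.x u a
      ≤ ∑ a ∈ Ioc P.y P.y2, ∑ u ∈ typ k P.t,
        Real.exp (-(0.4 * P.t)) * (2 * ch P.h / P.y) * T u (fun _ => 1) a :=
        sum_le_sum fun a ha => sum_le_sum fun u hu => h3 a ha u hu
    _ = Real.exp (-(0.4 * P.t)) * (2 * ch P.h / P.y) *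
        ∑ a ∈ Ioc P.y P.y2, ∑ u ∈ typ k P.t, T u (fun _ => 1) a := by
        rw [mul_sum]
        refine sum_congr rfl fun a _ => ?_
        rw [mul_sum]
    _ ≤ Real.exp (-(0.4 * P.t)) * (2 * ch P.h / P.y) *
        (2 * ((P.y2 : ℝ) - P.y) * 1) := by
        apply mul_le_mul_of_nonneg_left _ (by positivity)
        refine h1.trans ?_
        apply mul_le_mul_of_nonneg_left h2
        have : (P.y : ℝ) ≤ P.y2 := by exact_mod_cast P.hyy.le
        linarith
    _ = _ := by unfold W; ring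

/-- long lengths -/
theorem high {k : ℕ} (hk : k < P.K) (hz : P.v + P.l + P.t ≤ (k : ℝ) * m0) {a : ℕ}
    (ha : a ∈ Ioc P.y P.y2) : ∑ u ∈ typ k P.t, Ts P.h P.J P.x u a = 0 := by
  have hy0 := P.y_pos
  have ht := P.ht
  refine sum_eq_zero fun u hu => ?_
  have huw : u ∈ words k := (mem_filter.1 hu).1
  unfold Ts
  split_ifs with hv
  · have hn := P.node hk ha huw hv
    have hr := ratio_bounds hu (by linarith)
    apply psi_zero P.hh P.hx
    have h5 : (2 : ℝ) < Real.exp (0.45 * P.t) := by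
      have h6 : (1 : ℝ) + 1 < Real.exp 1 := by
        have := Real.exp_one_gt_d9; linarith
      have h7 : Real.exp 1 ≤ Real.exp (0.45 * P.t) := Real.exp_le_exp.2 (by linarith)
      linarith
    calc Real.exp (P.J * P.h) * P.x = Real.exp P.l * (P.y * Real.exp P.v) := by
          rw [← P.x_eq]; rfl
      _ = Real.exp (P.v + P.l) * (P.y / 2) * 2 := by rw [Real.exp_add]; ring
      _ < Real.exp (P.v + P.l) * (P.y / 2) * Real.exp (0.45 * P.t) := by
          apply mul_lt_mul_of_pos_left h5 (by positivity)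
      _ = Real.exp (P.v + P.l + 0.45 * P.t) * (P.y / 2) := by
          rw [Real.exp_add (P.v + P.l)]; ring
      _ ≤ Real.exp (k * m0 - 0.55 * P.t) * (P.y / 2) := by
          apply mul_le_mul_of_nonneg_right _ (by positivity)
          apply Real.exp_le_exp.2; linarith
      _ ≤ 2 ^ k / 3 ^ ones u * (P.y / 2) := by
          apply mul_le_mul_of_nonneg_right hr.1 (by positivity)
      _ ≤ nd u a := hn.2.2.2.1
  · rfl

/-- middle lengths, one word -/
theorem inner_word {k a : ℕ} {u : List Bool} (hk : k < P.K) (h1 : P.v + P.t ≤ (k : ℝ) * m0)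
    (h2 : (k : ℝ) * m0 ≤ P.v + P.l - P.t) (ha : a ∈ Ioc P.y P.y2) (hu : u ∈ typ k P.t) :
    |Ts P.h P.J P.x u a - T u (fun _ => 1) a / (a * P.h)| ≤
      T u (fun _ => 1) a / (a * P.h) * P.ρ := by
  have hc := ch_pos P.hh
  have hy0 := P.y_pos
  have ht := P.ht
  have hh := P.hh
  have huw : u ∈ words k := (mem_filter.1 hu).1
  have ha' : (0 : ℝ) < a := by
    rw [mem_Ioc] at ha
    exact_mod_cast (by omega : 0 < a)
  unfold Ts T
  split_ifs with hv
  · have hn := P.node hk ha huw hv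
    have hr := ratio_bounds hu (by linarith)
    have hn0 : (0 : ℝ) < nd u a := by exact_mod_cast hn.1
    rw [mem_words.1 huw, mul_one]
    set μ : ℝ := 3 ^ ones u / 2 ^ k / a with hμ
    have hμ0 : 0 < μ := by positivity
    have e0 : (3 : ℝ) ^ ones u / 2 ^ k / (a * P.h) = μ / P.h := by rw [hμ]; field_simp
    rw [e0]
    have hxn : P.x ≤ nd u a := by
      have h5 : (2 : ℝ) ≤ Real.exp (0.45 * P.t) := by
        have h6 : (1 : ℝ) + 1 ≤ Real.exp 1 := Real.add_one_le_exp 1
        have h7 : Real.exp 1 ≤ Real.exp (0.45 * P.t) := Real.exp_le_exp.2 (by linarith)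
        linarith
      calc P.x = P.y * Real.exp P.v := P.x_eq
        _ = Real.exp P.v * (P.y / 2) * 2 := by ring
        _ ≤ Real.exp P.v * (P.y / 2) * Real.exp (0.45 * P.t) := by gcongr
        _ = Real.exp (P.v + 0.45 * P.t) * (P.y / 2) := by rw [Real.exp_add]; ring
        _ ≤ Real.exp (k * m0 - 0.55 * P.t) * (P.y / 2) := by
            apply mul_le_mul_of_nonneg_right _ (by positivity)
            apply Real.exp_le_exp.2; linarith
        _ ≤ 2 ^ k / 3 ^ ones u * (P.y / 2) := by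
            apply mul_le_mul_of_nonneg_right hr.1 (by positivity)
        _ ≤ nd u a := hn.2.2.2.1
    have hnX : (nd u a : ℝ) * Real.exp (0.4 * P.t) ≤ Real.exp ((P.J : ℝ) * P.h) * P.x := by
      have h6 : 2 * Real.exp (-(0.05 * P.t)) ≤ 1 := by
        have h5 : Real.exp (-(0.05 * P.t)) ≤ Real.exp (-1) := Real.exp_le_exp.2 (by linarith)
        have h6 : Real.exp (-1) ≤ 1 / 2 := by
          rw [Real.exp_neg, inv_le_comm₀ (Real.exp_pos _) (by norm_num)]
          have := Real.exp_one_gt_d9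
          norm_num; linarith
        linarith
      calc (nd u a : ℝ) * Real.exp (0.4 * P.t)
          ≤ 2 ^ k / 3 ^ ones u * (2 * P.y) * Real.exp (0.4 * P.t) := by
            have := hn.2.2.2.2
            gcongr
        _ ≤ Real.exp (k * m0 + 0.55 * P.t) * (2 * P.y) * Real.exp (0.4 * P.t) := by
            have := hr.2
            gcongr
        _ ≤ Real.exp (P.v + P.l - 0.45 * P.t) * (2 * P.y) * Real.exp (0.4 * P.t) := by
            have : Real.exp (k * m0 + 0.55 * P.t) ≤ Real.exp (P.v + P.l - 0.45 * P.t) :=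
              Real.exp_le_exp.2 (by linarith)
            gcongr
        _ = Real.exp P.l * (P.y * Real.exp P.v) * (2 * Real.exp (-(0.05 * P.t))) := by
            have e : Real.exp (P.v + P.l - 0.45 * P.t) * Real.exp (0.4 * P.t) =
                Real.exp P.v * Real.exp P.l * Real.exp (-(0.05 * P.t)) := by
              rw [← Real.exp_add, ← Real.exp_add, ← Real.exp_add]; congr 1; ring
            calc Real.exp (P.v + P.l - 0.45 * P.t) * (2 * P.y) * Real.exp (0.4 * P.t)
                = (Real.exp (P.v + P.l - 0.45 * P.t) * Real.exp (0.4 * P.t)) * (2 * P.y) := by ring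
              _ = _ := by rw [e]; ring
        _ ≤ Real.exp P.l * (P.y * Real.exp P.v) * 1 := by gcongr
        _ = _ := by rw [← P.x_eq, mul_one]; rfl
    have hlow := psi_ge P.hh (by linarith : 0 ≤ 0.4 * P.t) P.hx hn.1 hxn hnX
    have hup := psi_le_n P.hh (J := P.J) P.hx hn.1
    have hch1 := ch_le P.hh
    have hch2 := ch_ge P.hh
    have hτ := P.hτ
    have hτ0 := P.hτ0
    have hh1 := P.hh1
    set ψ := psi P.h P.J P.x (nd u a) with hψ
    have hψ0 : 0 ≤ ψ := psi_nonneg P.hx _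
    have hE0 : 0 < Real.exp (-(0.4 * P.t)) := Real.exp_pos _
    -- upper bound for `h ψ`
    have b1 : P.h * ψ ≤ μ * (1 + P.ρ) := by
      calc P.h * ψ ≤ P.h * (ch P.h / nd u a) := by gcongr
        _ = (P.h * ch P.h) * (1 / nd u a) := by ring
        _ ≤ (1 + P.h) * (μ * (1 + 2 * P.τ)) := by
            have := hn.2.2.1
            gcongr
        _ = μ * ((1 + P.h) * (1 + 2 * P.τ)) := by ring
        _ ≤ μ * (1 + P.ρ) := by
            apply mul_le_mul_of_nonneg_left _ hμ0.le
            unfold ρ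
            nlinarith
    have b2 : μ * (1 - P.ρ) ≤ P.h * ψ := by
      by_cases hneg : 1 - P.h - 2 * Real.exp (-(0.4 * P.t)) ≤ 0
      · have : 1 - P.ρ ≤ 0 := by unfold ρ; linarith
        have h3 : μ * (1 - P.ρ) ≤ 0 := mul_nonpos_of_nonneg_of_nonpos hμ0.le this
        have h4 : 0 ≤ P.h * ψ := by positivity
        linarith
      · rw [not_le] at hneg
        calc μ * (1 - P.ρ) ≤ μ * (1 - P.h - 2 * Real.exp (-(0.4 * P.t))) := by
              apply mul_le_mul_of_nonneg_left _ hμ0.le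
              unfold ρ; linarith
          _ ≤ (1 / nd u a) * (1 - P.h - 2 * Real.exp (-(0.4 * P.t))) :=
              mul_le_mul_of_nonneg_right hn.2.1 hneg.le
          _ ≤ (1 / nd u a) * (P.h * (Real.exp (-P.h) * ch P.h) -
              P.h * ch P.h * Real.exp (-(0.4 * P.t))) := by
              apply mul_le_mul_of_nonneg_left _ (by positivity)
              nlinarith
          _ = P.h * ((1 / nd u a) * (Real.exp (-P.h) - Real.exp (-(0.4 * P.t))) * ch P.h) := by ring
          _ ≤ P.h * ψ := by gcongr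
    have e1 : ψ - μ / P.h = (P.h * ψ - μ) / P.h := by field_simp
    rw [e1, abs_div, abs_of_pos hh, div_le_iff₀ hh, div_mul_eq_mul_div, div_mul_cancel₀ _ hh.ne',
      abs_le]
    constructor <;> linarith
  · simp

end Par

end DF
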