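import Mathlib
import Pool.Agent.Lib_helper1.DF.Elem

/-!
# The elementary evaluation: summation over the lengths
-/

set_option autoImplicit false

namespace DF

open Finset ND PD Pool.Agent.LibHelper3

theorem card_le_real (S : Finset ℕ) (α β c : ℝ) (hc : 0 < c) (hαβ : α ≤ β) (hβ : 0 ≤ β)
    (h : ∀ k ∈ S, α ≤ (k : ℝ) * c ∧ (k : ℝ) * c ≤ β) : (S.card : ℝ) ≤ (β - α) / c + 1 := by
  have h1 : S ⊆ Icc ⌈α / c⌉₊ ⌊β / c⌋₊ := by
    intro k hk
    have := h k hk
    rw [mem_Icc]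
    constructor
    · apply Nat.ceil_le.2
      rw [div_le_iff₀ hc]; exact this.1
    · apply Nat.le_floor
      rw [le_div_iff₀ hc]; exact this.2
  have h2 := card_le_card h1
  rw [Nat.card_Icc] at h2
  have h3 : (⌊β / c⌋₊ : ℝ) ≤ β / c := Nat.floor_le (by positivity)
  have h4 : α / c ≤ (⌈α / c⌉₊ : ℝ) := Nat.le_ceil _
  rcases le_total (⌈α / c⌉₊) (⌊β / c⌋₊ + 1) with h5 | h5
  · have h6 : (S.card : ℝ) ≤ ((⌊β / c⌋₊ + 1 - ⌈α / c⌉₊ : ℕ) : ℝ) := by exact_mod_cast h2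
    rw [Nat.cast_sub h5] at h6
    push_cast at h6
    rw [sub_div]
    linarith
  · have h6 : S.card = 0 := by omega
    rw [h6]
    have : 0 ≤ (β - α) / c := by
      apply div_nonneg _ hc.le; linarith
    push_cast
    linarith

theorem card_ge_real (S : Finset ℕ) (α β c : ℝ) (hc : 0 < c) (hα : 0 ≤ α)
    (h : ∀ k : ℕ, α ≤ (k : ℝ) * c → (k : ℝ) * c ≤ β → k ∈ S) :
    (β - α) / c - 1 ≤ (S.card : ℝ) := by
  rcases le_or_gt β 0 with hβ | hβ
  · have : (β - α) / c ≤ 0 := div_nonpos_of_nonpos_of_nonneg (by linarith) hc.le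
    have h2 : (0 : ℝ) ≤ S.card := by positivity
    linarith
  have h1 : Icc ⌈α / c⌉₊ ⌊β / c⌋₊ ⊆ S := by
    intro k hk
    rw [mem_Icc] at hk
    apply h k
    · have := Nat.ceil_le.1 hk.1
      rwa [div_le_iff₀ hc] at this
    · have := (Nat.le_floor_iff (by positivity)).1 hk.2
      rwa [le_div_iff₀ hc] at this
  have h2 := card_le_card h1
  rw [Nat.card_Icc] at h2
  have h3 : β / c < (⌊β / c⌋₊ : ℝ) + 1 := Nat.lt_floor_add_one _
  have h4 : (⌈α / c⌉₊ : ℝ) < α / c + 1 := Nat.ceil_lt_add_one (by positivity)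
  have h6 : ((⌊β / c⌋₊ + 1 : ℕ) : ℝ) - (⌈α / c⌉₊ : ℝ) ≤ S.card := by
    have : ⌊β / c⌋₊ + 1 ≤ S.card + ⌈α / c⌉₊ := by omega
    have h7 : ((⌊β / c⌋₊ + 1 : ℕ) : ℝ) ≤ ((S.card + ⌈α / c⌉₊ : ℕ) : ℝ) := by exact_mod_cast this
    push_cast at h7 ⊢
    linarith
  push_cast at h6
  rw [sub_div]
  linarith

namespace Par

variable (P : Par)

/-- total smoothed weight of the predecessors at distance less than `K` -/
noncomputable def Psi (a : ℕ) : ℝ := ∑ k ∈ range P.K, ∑ u ∈ words k, Ts P.h P.J P.x u a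

open Classical in
noncomputable def Inn : Finset ℕ :=
  (range P.K).filter (fun k => P.v + P.t ≤ (k : ℝ) * m0 ∧ (k : ℝ) * m0 ≤ P.v + P.l - P.t)

open Classical in
noncomputable def Lo : Finset ℕ := (range P.K).filter (fun k => (k : ℝ) * m0 ≤ P.v - P.t)

open Classical in
noncomputable def Hi : Finset ℕ := (range P.K).filter (fun k => P.v + P.l + P.t ≤ (k : ℝ) * m0)

open Classical in
noncomputable def Bd : Finset ℕ := (range P.K).filter (fun k => k ∉ P.Inn ∧ k ∉ P.Lo ∧ k ∉ P.Hi)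

theorem card_Bd (hv : 0 ≤ P.v) : (P.Bd.card : ℝ) ≤ 4 * P.t / m0 + 2 := by
  classical
  have ht := P.ht
  have hl : 0 ≤ P.l := by unfold l; have := P.hh; positivity
  have h1 : P.Bd ⊆ (P.Bd.filter (fun k => P.v - P.t ≤ (k : ℝ) * m0 ∧ (k : ℝ) * m0 ≤ P.v + P.t)) ∪
      (P.Bd.filter (fun k => P.v + P.l - P.t ≤ (k : ℝ) * m0 ∧ (k : ℝ) * m0 ≤ P.v + P.l + P.t)) := by
    intro k hk
    have hk' := hk
    unfold Bd Inn Lo Hi at hk'
    simp only [mem_filter, not_and, not_le] at hk'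
    obtain ⟨hkK, h2, h3, h4⟩ := hk'
    have h3' := h3 hkK
    have h4' := h4 hkK
    rw [mem_union, mem_filter, mem_filter]
    by_cases hc : P.v + P.t ≤ (k : ℝ) * m0
    · right
      exact ⟨hk, (h2 hkK hc).le, h4'.le⟩
    · left
      exact ⟨hk, h3'.le, (not_le.1 hc).le⟩
  have h2 := (card_le_card h1).trans (card_union_le _ _)
  have h3 := card_le_real (P.Bd.filter (fun k : ℕ => P.v - P.t ≤ (k : ℝ) * m0 ∧
      (k : ℝ) * m0 ≤ P.v + P.t)) (P.v - P.t) (P.v + P.t) m0 m0_pos (by linarith) (by linarith)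
    (fun k hk => (mem_filter.1 hk).2)
  have h4 := card_le_real (P.Bd.filter (fun k : ℕ => P.v + P.l - P.t ≤ (k : ℝ) * m0 ∧
      (k : ℝ) * m0 ≤ P.v + P.l + P.t)) (P.v + P.l - P.t) (P.v + P.l + P.t) m0 m0_pos
    (by linarith) (by linarith) (fun k hk => (mem_filter.1 hk).2)
  have h5 : (P.Bd.card : ℝ) ≤ ((P.Bd.filter (fun k : ℕ => P.v - P.t ≤ (k : ℝ) * m0 ∧
      (k : ℝ) * m0 ≤ P.v + P.t)).card : ℝ) + ((P.Bd.filter (fun k : ℕ => P.v + P.l - P.t ≤ (k : ℝ) * m0 ∧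
      (k : ℝ) * m0 ≤ P.v + P.l + P.t)).card : ℝ) := by exact_mod_cast h2
  have e1 : (P.v + P.t - (P.v - P.t)) / m0 = 2 * P.t / m0 := by ring
  have e2 : (P.v + P.l + P.t - (P.v + P.l - P.t)) / m0 = 2 * P.t / m0 := by ring
  rw [e1] at h3
  rw [e2] at h4
  have e3 : 4 * P.t / m0 + 2 = (2 * P.t / m0 + 1) + (2 * P.t / m0 + 1) := by ring
  rw [e3]
  linarith

theorem card_Inn (hv : 0 ≤ P.v) (hl : 2 * P.t ≤ P.l) (hK : P.v + P.l ≤ m0 * P.K) :
    |(P.Inn.card : ℝ) - P.l / m0| ≤ 2 * P.t / m0 + 1 := by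
  classical
  have ht := P.ht
  have hm := m0_pos
  have h1 := card_le_real P.Inn (P.v + P.t) (P.v + P.l - P.t) m0 hm (by linarith) (by linarith)
    (fun k hk => (mem_filter.1 hk).2)
  have h2 := card_ge_real P.Inn (P.v + P.t) (P.v + P.l - P.t) m0 hm (by linarith)
    (fun k hk1 hk2 => by
      unfold Inn
      rw [mem_filter, mem_range]
      refine ⟨?_, hk1, hk2⟩
      have h3 : (k : ℝ) * m0 < P.K * m0 := by linarith
      have h4 := lt_of_mul_lt_mul_right h3 hm.le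
      exact_mod_cast h4)
  have e : (P.v + P.l - P.t - (P.v + P.t)) / m0 = P.l / m0 - 2 * P.t / m0 := by ring
  rw [e] at h1 h2
  have h3 : 0 ≤ 2 * P.t / m0 := by positivity
  rw [abs_le]
  constructor <;> linarith

/-- words of length `k`, any `k` -/
theorem atyp_sum {k : ℕ} (hk : k < P.K) :
    ∑ a ∈ Ioc P.y P.y2, ∑ u ∈ atyp k P.t, Ts P.h P.J P.x u a ≤
      P.W * (4 * ch P.h * (k / P.t ^ 2)) := by
  have ht := P.ht
  have hc := ch_pos P.hh
  refine (P.crude hk (atyp k P.t) (filter_subset _ _)).trans ?_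
  have := atyp_card k P.t (by linarith)
  have hW := P.W_nonneg
  gcongr

theorem sum_T_y {k : ℕ} (hk : k < P.K) (U : Finset (List Bool)) (hU : U ⊆ words k) :
    ∑ a ∈ Ioc P.y P.y2, ∑ u ∈ U, T u (fun _ => 1) a / (a * P.h) ≤
      P.W * (2 / P.h * ((U.card : ℝ) / 2 ^ k)) := by
  have h1 := sum_words_Ioc P.hyy.le (P.pow_le hk) U hU
  have hy0 := P.y_pos
  have hh := P.hh
  calc ∑ a ∈ Ioc P.y P.y2, ∑ u ∈ U, T u (fun _ => 1) a / (a * P.h)
      ≤ ∑ a ∈ Ioc P.y P.y2, ∑ u ∈ U, T u (fun _ => 1) a / (P.y * P.h) := by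
        refine sum_le_sum fun a ha => sum_le_sum fun u _ => ?_
        rw [mem_Ioc] at ha
        have ha' : (P.y : ℝ) ≤ a := by exact_mod_cast ha.1.le
        have := T_nonneg (v := u) (F := fun _ => (1 : ℝ)) (fun _ => zero_le_one) a
        apply div_le_div_of_nonneg_left this (by positivity)
        gcongr
    _ = (∑ a ∈ Ioc P.y P.y2, ∑ u ∈ U, T u (fun _ => 1) a) / (P.y * P.h) := by
        rw [sum_div]
        refine sum_congr rfl fun a _ => ?_
        rw [sum_div]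
    _ ≤ (2 * ((P.y2 : ℝ) - P.y) * ((U.card : ℝ) / 2 ^ k)) / (P.y * P.h) := by gcongr
    _ = _ := by unfold W; field_simp

/-- per-length deviation -/
noncomputable def Dv (m k a : ℕ) : ℝ :=
  |∑ u ∈ words k, Ts P.h P.J P.x u a - (if k ∈ P.Inn then UKL.f m a / (a * P.h) else 0)|

theorem Dv_bound {C : ℝ} (hC0 : 0 ≤ C) (hC : ∀ m k y y2 : ℕ, 1 ≤ m → m ≤ k → 3 ≤ k →
    y ≤ y2 → 3 ^ k ≤ y2 - y →
    ∑ a ∈ Ioc y y2, |S1 k a - UKL.f m a| ≤ 2 * ((y2 : ℝ) - y) * (C / k + C / m))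
    {m k1 k : ℕ} (hm : 1 ≤ m) (hmk : m ≤ k1) (hk3 : 3 ≤ k1) (hk1 : (k1 : ℝ) * m0 ≤ P.v + P.t)
    (hk : k < P.K) :
    ∑ a ∈ Ioc P.y P.y2, P.Dv m k a ≤
      P.W * (4 * ch P.h * (k / P.t ^ 2 + Real.exp (-(0.4 * P.t)) + (if k ∈ P.Bd then 1 else 0)) +
        (if k ∈ P.Inn then 2 / P.h * (P.ρ + C / k1 + C / m + k / P.t ^ 2) else 0)) := by
  classical
  have ht := P.ht
  have hh := P.hh
  have hc := ch_pos hh
  have hW := P.W_nonneg
  have hy0 := P.y_pos
  have hx := P.hx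
  have hat := P.atyp_sum hk
  have hE : 0 ≤ Real.exp (-(0.4 * P.t)) := (Real.exp_pos _).le
  have hkt : 0 ≤ (k : ℝ) / P.t ^ 2 := by positivity
  by_cases hI : k ∈ P.Inn
  · -- inner
    have hI' := hI
    unfold Inn at hI'
    rw [mem_filter] at hI'
    obtain ⟨_, hi1, hi2⟩ := hI'
    have hk1k : k1 ≤ k := by
      have h3 : (k1 : ℝ) * m0 ≤ k * m0 := by linarith
      have h4 := le_of_mul_le_mul_right h3 m0_pos
      exact_mod_cast h4
    have hb : ∀ a ∈ Ioc P.y P.y2, P.Dv m k a ≤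
        (∑ u ∈ typ k P.t, T u (fun _ => 1) a / (a * P.h)) * P.ρ +
        ∑ u ∈ atyp k P.t, Ts P.h P.J P.x u a + |S1 k a - UKL.f m a| / (P.y * P.h) +
        ∑ u ∈ atyp k P.t, T u (fun _ => 1) a / (a * P.h) := by
      intro a ha
      have ha2 := ha
      rw [mem_Ioc] at ha2
      have ha' : (P.y : ℝ) ≤ a := by exact_mod_cast ha2.1.le
      have ha0 : (0 : ℝ) < a := by linarith
      unfold Dv
      rw [if_pos hI, sum_typ_atyp k P.t]
      have e1 : S1 k a / (a * P.h) = ∑ u ∈ typ k P.t, T u (fun _ => 1) a / (a * P.h) +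
          ∑ u ∈ atyp k P.t, T u (fun _ => 1) a / (a * P.h) := by
        unfold S1
        rw [sum_typ_atyp k P.t, add_div, sum_div, sum_div]
      have e2 : ∑ u ∈ typ k P.t, Ts P.h P.J P.x u a + ∑ u ∈ atyp k P.t, Ts P.h P.J P.x u a -
          UKL.f m a / (a * P.h) =
          (∑ u ∈ typ k P.t, (Ts P.h P.J P.x u a - T u (fun _ => 1) a / (a * P.h))) +
          ∑ u ∈ atyp k P.t, Ts P.h P.J P.x u a + (S1 k a - UKL.f m a) / (a * P.h) -
          ∑ u ∈ atyp k P.t, T u (fun _ => 1) a / (a * P.h) := by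
        rw [sub_div, e1, sum_sub_distrib]; ring
      rw [e2]
      have b1 : |∑ u ∈ typ k P.t, (Ts P.h P.J P.x u a - T u (fun _ => 1) a / (a * P.h))| ≤
          (∑ u ∈ typ k P.t, T u (fun _ => 1) a / (a * P.h)) * P.ρ := by
        refine (abs_sum_le_sum_abs _ _).trans ?_
        rw [sum_mul]
        exact sum_le_sum fun u hu => P.inner_word hk hi1 hi2 ha hu
      have b2 : |∑ u ∈ atyp k P.t, Ts P.h P.J P.x u a| = ∑ u ∈ atyp k P.t, Ts P.h P.J P.x u a :=
        abs_of_nonneg (sum_nonneg fun u _ => Ts_nonneg hx u a)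
      have b3 : |(S1 k a - UKL.f m a) / (a * P.h)| ≤ |S1 k a - UKL.f m a| / (P.y * P.h) := by
        rw [abs_div, abs_of_pos (by positivity : (0 : ℝ) < a * P.h)]
        apply div_le_div_of_nonneg_left (abs_nonneg _) (by positivity)
        gcongr
      have b4 : |∑ u ∈ atyp k P.t, T u (fun _ => (1 : ℝ)) a / (a * P.h)| =
          ∑ u ∈ atyp k P.t, T u (fun _ => 1) a / (a * P.h) :=
        abs_of_nonneg (sum_nonneg fun u _ => div_nonneg
          (T_nonneg (fun _ => zero_le_one) a) (by positivity))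
      refine (abs_sub _ _).trans ?_
      have c1 := abs_add_le ((∑ u ∈ typ k P.t, (Ts P.h P.J P.x u a - T u (fun _ => 1) a / (a * P.h))) +
          ∑ u ∈ atyp k P.t, Ts P.h P.J P.x u a) ((S1 k a - UKL.f m a) / (a * P.h))
      have c2 := abs_add_le (∑ u ∈ typ k P.t, (Ts P.h P.J P.x u a - T u (fun _ => 1) a / (a * P.h)))
          (∑ u ∈ atyp k P.t, Ts P.h P.J P.x u a)
      linarith
    have h1 := sum_le_sum hb
    rw [sum_add_distrib, sum_add_distrib, sum_add_distrib, ← sum_mul, ← sum_div] at h1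
    have d1 := P.sum_T_y hk (typ k P.t) (filter_subset _ _)
    have d1' : ((typ k P.t).card : ℝ) / 2 ^ k ≤ 1 := by
      rw [div_le_one (by positivity)]
      have : (typ k P.t).card ≤ 2 ^ k := by
        rw [← card_words k]; exact card_le_card (filter_subset _ _)
      exact_mod_cast this
    have d2 := P.sum_T_y hk (atyp k P.t) (filter_subset _ _)
    have d2' := atyp_card k P.t (by linarith)
    have d3 := hC m k P.y P.y2 hm (by omega) (by omega) P.hyy.le (P.pow_le hk)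
    have hρ : 0 ≤ P.ρ := by
      unfold ρ
      have := P.hτ0
      positivity
    have hk1r : (0 : ℝ) < k1 := by exact_mod_cast (by omega : 0 < k1)
    have hm0 : (0 : ℝ) < m := by exact_mod_cast (by omega : 0 < m)
    have hkr : (k1 : ℝ) ≤ k := by exact_mod_cast hk1k
    have f1 : (∑ a ∈ Ioc P.y P.y2, ∑ u ∈ typ k P.t, T u (fun _ => 1) a / (a * P.h)) * P.ρ ≤
        P.W * (2 / P.h * P.ρ) := by
      calc _ ≤ (P.W * (2 / P.h * ((typ k P.t).card / 2 ^ k))) * P.ρ :=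
            mul_le_mul_of_nonneg_right d1 hρ
        _ ≤ (P.W * (2 / P.h * 1)) * P.ρ := by gcongr
        _ = _ := by ring
    have f2 : ∑ a ∈ Ioc P.y P.y2, ∑ u ∈ atyp k P.t, T u (fun _ => 1) a / (a * P.h) ≤
        P.W * (2 / P.h * (k / P.t ^ 2)) := by
      refine d2.trans ?_
      gcongr
    have f3 : (∑ a ∈ Ioc P.y P.y2, |S1 k a - UKL.f m a|) / (P.y * P.h) ≤
        P.W * (2 / P.h * (C / k1 + C / m)) := by
      calc _ ≤ (2 * ((P.y2 : ℝ) - P.y) * (C / k + C / m)) / (P.y * P.h) := by gcongr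
        _ = P.W * (2 / P.h * (C / k + C / m)) := by unfold W; field_simp
        _ ≤ _ := by gcongr
    rw [if_pos hI]
    have hBd : k ∉ P.Bd := by
      unfold Bd
      simp only [mem_filter, not_and]
      intro _ h; exact absurd hI h
    rw [if_neg hBd]
    have e5 : P.W * (4 * ch P.h * (k / P.t ^ 2 + Real.exp (-(0.4 * P.t)) + 0) +
        2 / P.h * (P.ρ + C / k1 + C / m + k / P.t ^ 2)) =
        P.W * (4 * ch P.h * (k / P.t ^ 2)) + P.W * (4 * ch P.h * Real.exp (-(0.4 * P.t))) +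
        P.W * (2 / P.h * P.ρ) + P.W * (2 / P.h * (C / k1 + C / m)) +
        P.W * (2 / P.h * (k / P.t ^ 2)) := by ring
    rw [e5]
    have g0 : 0 ≤ P.W * (4 * ch P.h * Real.exp (-(0.4 * P.t))) := by positivity
    linarith
  · rw [if_neg hI, add_zero]
    have hDv : ∀ a ∈ Ioc P.y P.y2, P.Dv m k a = ∑ u ∈ typ k P.t, Ts P.h P.J P.x u a +
        ∑ u ∈ atyp k P.t, Ts P.h P.J P.x u a := by
      intro a _
      unfold Dv
      rw [if_neg hI, sub_zero, sum_typ_atyp k P.t]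
      apply abs_of_nonneg
      exact add_nonneg (sum_nonneg fun u _ => Ts_nonneg hx u a)
        (sum_nonneg fun u _ => Ts_nonneg hx u a)
    rw [sum_congr rfl hDv, sum_add_distrib]
    by_cases hB : k ∈ P.Bd
    · rw [if_pos hB]
      have h1 := P.crude hk (typ k P.t) (filter_subset _ _)
      have d1' : ((typ k P.t).card : ℝ) / 2 ^ k ≤ 1 := by
        rw [div_le_one (by positivity)]
        have : (typ k P.t).card ≤ 2 ^ k := by
          rw [← card_words k]; exact card_le_card (filter_subset _ _)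
        exact_mod_cast this
      have h2 : P.W * (4 * ch P.h * ((typ k P.t).card / 2 ^ k)) ≤ P.W * (4 * ch P.h * 1) := by
        gcongr
      have e5 : P.W * (4 * ch P.h * (k / P.t ^ 2 + Real.exp (-(0.4 * P.t)) + 1)) =
          P.W * (4 * ch P.h * (k / P.t ^ 2)) + P.W * (4 * ch P.h * Real.exp (-(0.4 * P.t))) +
          P.W * (4 * ch P.h * 1) := by ring
      rw [e5]
      have g0 : 0 ≤ P.W * (4 * ch P.h * Real.exp (-(0.4 * P.t))) := by positivity
      linarith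
    · rw [if_neg hB, add_zero]
      have e5 : P.W * (4 * ch P.h * (k / P.t ^ 2 + Real.exp (-(0.4 * P.t)))) =
          P.W * (4 * ch P.h * (k / P.t ^ 2)) + P.W * (4 * ch P.h * Real.exp (-(0.4 * P.t))) := by
        ring
      rw [e5]
      by_cases hL : k ∈ P.Lo
      · unfold Lo at hL
        rw [mem_filter] at hL
        have := P.low hk hL.2
        linarith
      · by_cases hH : k ∈ P.Hi
        · unfold Hi at hH
          rw [mem_filter] at hH
          rw [sum_eq_zero (fun a ha => P.high hk hH.2 ha)]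
          have g0 : 0 ≤ P.W * (4 * ch P.h * Real.exp (-(0.4 * P.t))) := by positivity
          linarith
        · exfalso
          apply hB
          unfold Bd
          rw [mem_filter, mem_range]
          exact ⟨hk, hI, hL, hH⟩

/-- the total error -/
noncomputable def Tot (C : ℝ) (m k1 : ℕ) : ℝ :=
  (4 * ch P.h * ((P.K : ℝ) ^ 2 / P.t ^ 2 + P.K * Real.exp (-(0.4 * P.t)) + (4 * P.t / m0 + 2)) +
    2 / P.h * ((P.l / m0 + (2 * P.t / m0 + 1)) * (P.ρ + C / k1 + C / m) + (P.K : ℝ) ^ 2 / P.t ^ 2)) / P.J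
    + 2 * ((2 * P.t / m0 + 1) / P.l)

theorem elem {C : ℝ} (hC0 : 0 ≤ C) (hC : ∀ m k y y2 : ℕ, 1 ≤ m → m ≤ k → 3 ≤ k →
    y ≤ y2 → 3 ^ k ≤ y2 - y →
    ∑ a ∈ Ioc y y2, |S1 k a - UKL.f m a| ≤ 2 * ((y2 : ℝ) - y) * (C / k + C / m))
    {m k1 : ℕ} (hm : 1 ≤ m) (hmk : m ≤ k1) (hk3 : 3 ≤ k1) (hk1 : (k1 : ℝ) * m0 ≤ P.v + P.t)
    (hmK : m < P.K) (hv : 0 ≤ P.v) (hl : 2 * P.t ≤ P.l) (hK : P.v + P.l ≤ m0 * P.K) :
    ∑ a ∈ Ioc P.y P.y2, |P.Psi a / P.J - 1 / m0 * UKL.f m a / a| ≤ P.W * P.Tot C m k1 := by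
  classical
  have ht := P.ht
  have hh := P.hh
  have hc := ch_pos hh
  have hW := P.W_nonneg
  have hy0 := P.y_pos
  have hJ0 : (0 : ℝ) < P.J := by exact_mod_cast P.hJ
  have hm0 := m0_pos
  have hl0 : 0 < P.l := by linarith
  have hl' : P.l = P.J * P.h := rfl
  set n : ℝ := (P.Inn.card : ℝ) with hn
  have hInn := P.card_Inn hv hl hK
  -- pointwise
  have hpt : ∀ a ∈ Ioc P.y P.y2, |P.Psi a / P.J - 1 / m0 * UKL.f m a / a| ≤
      (∑ k ∈ range P.K, P.Dv m k a) / P.J + ((2 * P.t / m0 + 1) / P.l) * (UKL.f m a / P.y) := by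
    intro a ha
    rw [mem_Ioc] at ha
    have ha' : (P.y : ℝ) ≤ a := by exact_mod_cast ha.1.le
    have ha0 : (0 : ℝ) < a := by linarith
    have hf := UKL.f_nonneg m a
    have e1 : P.Psi a / P.J - 1 / m0 * UKL.f m a / a =
        (∑ k ∈ range P.K, (∑ u ∈ words k, Ts P.h P.J P.x u a -
          (if k ∈ P.Inn then UKL.f m a / (a * P.h) else 0))) / P.J +
        (n - P.l / m0) / P.l * (UKL.f m a / a) := by
      have e2 : ∑ k ∈ range P.K, (if k ∈ P.Inn then UKL.f m a / (a * P.h) else 0) =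
          n * (UKL.f m a / (a * P.h)) := by
        rw [← sum_filter, sum_const, nsmul_eq_mul, hn]
        congr 3
        ext k
        rw [mem_filter]
        constructor
        · exact fun h => h.2
        · intro h
          exact ⟨(mem_filter.1 h).1, h⟩
      rw [sum_sub_distrib, e2]
      unfold Psi
      rw [hl']
      field_simp
      ring
    rw [e1]
    refine (abs_add_le _ _).trans (add_le_add ?_ ?_)
    · rw [abs_div, abs_of_pos hJ0]
      apply div_le_div_of_nonneg_right _ hJ0.le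
      exact abs_sum_le_sum_abs _ _
    · rw [abs_mul, abs_div, abs_of_pos hl0, abs_of_nonneg (by positivity : 0 ≤ UKL.f m a / (a : ℝ))]
      gcongr
  refine (sum_le_sum hpt).trans ?_
  rw [sum_add_distrib, ← sum_div, ← mul_sum, ← sum_div, sum_comm]
  have h1 : ∑ k ∈ range P.K, ∑ a ∈ Ioc P.y P.y2, P.Dv m k a ≤
      ∑ k ∈ range P.K, P.W * (4 * ch P.h * (P.K / P.t ^ 2 + Real.exp (-(0.4 * P.t)) +
        (if k ∈ P.Bd then 1 else 0)) +
        (if k ∈ P.Inn then 2 / P.h * (P.ρ + C / k1 + C / m) else 0) +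
        2 / P.h * (P.K / P.t ^ 2)) := by
    refine sum_le_sum fun k hk => ?_
    rw [mem_range] at hk
    refine (P.Dv_bound hC0 hC hm hmk hk3 hk1 hk).trans ?_
    have hkK : (k : ℝ) ≤ P.K := by exact_mod_cast hk.le
    apply mul_le_mul_of_nonneg_left _ hW
    have a1 : (k : ℝ) / P.t ^ 2 ≤ P.K / P.t ^ 2 := by gcongr
    have a2 : 4 * ch P.h * (k / P.t ^ 2 + Real.exp (-(0.4 * P.t)) + (if k ∈ P.Bd then 1 else 0)) ≤
        4 * ch P.h * (P.K / P.t ^ 2 + Real.exp (-(0.4 * P.t)) + (if k ∈ P.Bd then 1 else 0)) := by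
      gcongr
    have a3 : (if k ∈ P.Inn then 2 / P.h * (P.ρ + C / k1 + C / m + k / P.t ^ 2) else 0) ≤
        (if k ∈ P.Inn then 2 / P.h * (P.ρ + C / k1 + C / m) else 0) + 2 / P.h * (P.K / P.t ^ 2) := by
      have a4 : 2 / P.h * (k / P.t ^ 2) ≤ 2 / P.h * (P.K / P.t ^ 2) := by gcongr
      have a5 : 0 ≤ 2 / P.h * (P.K / P.t ^ 2) := by positivity
      split_ifs
      · have e : 2 / P.h * (P.ρ + C / k1 + C / m + k / P.t ^ 2) =
          2 / P.h * (P.ρ + C / k1 + C / m) + 2 / P.h * (k / P.t ^ 2) := by ring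
        rw [e]; linarith
      · linarith
    linarith
  have h2 : ∑ k ∈ range P.K, P.W * (4 * ch P.h * (P.K / P.t ^ 2 + Real.exp (-(0.4 * P.t)) +
        (if k ∈ P.Bd then 1 else 0)) +
        (if k ∈ P.Inn then 2 / P.h * (P.ρ + C / k1 + C / m) else 0) +
        2 / P.h * (P.K / P.t ^ 2)) =
      P.W * (4 * ch P.h * ((P.K : ℝ) ^ 2 / P.t ^ 2 + P.K * Real.exp (-(0.4 * P.t)) + P.Bd.card) +
        2 / P.h * (n * (P.ρ + C / k1 + C / m) + (P.K : ℝ) ^ 2 / P.t ^ 2)) := by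
    rw [← mul_sum, sum_add_distrib, sum_add_distrib, ← mul_sum, sum_add_distrib, sum_add_distrib,
      sum_const, sum_const, sum_const, card_range, ← sum_filter, ← sum_filter, sum_const, sum_const]
    have eB : (range P.K).filter (fun k => k ∈ P.Bd) = P.Bd := by
      ext k
      rw [mem_filter]
      exact ⟨fun h => h.2, fun h => ⟨(mem_filter.1 h).1, h⟩⟩
    have eI : (range P.K).filter (fun k => k ∈ P.Inn) = P.Inn := by
      ext k
      rw [mem_filter]
      exact ⟨fun h => h.2, fun h => ⟨(mem_filter.1 h).1, h⟩⟩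
    rw [eB, eI]
    simp only [nsmul_eq_mul, mul_one]
    rw [← hn]
    ring
  rw [h2] at h1
  have h3 : (∑ a ∈ Ioc P.y P.y2, UKL.f m a) / P.y ≤ 2 * P.W := by
    have := sum_f_Ioc P.hyy.le (P.pow_le hmK)
    unfold W
    rw [mul_div_assoc']
    gcongr
  have hBd := P.card_Bd hv
  have hρ : 0 ≤ P.ρ := by
    unfold ρ
    have := P.hτ0
    positivity
  have hn2 : n ≤ P.l / m0 + (2 * P.t / m0 + 1) := by
    have := (abs_le.1 hInn).2
    linarith
  have hk1r : (0 : ℝ) < k1 := by exact_mod_cast (by omega : 0 < k1)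
  have hmr : (0 : ℝ) < m := by exact_mod_cast (by omega : 0 < m)
  have h4 : P.W * (4 * ch P.h * ((P.K : ℝ) ^ 2 / P.t ^ 2 + P.K * Real.exp (-(0.4 * P.t)) + P.Bd.card) +
        2 / P.h * (n * (P.ρ + C / k1 + C / m) + (P.K : ℝ) ^ 2 / P.t ^ 2)) ≤
      P.W * (4 * ch P.h * ((P.K : ℝ) ^ 2 / P.t ^ 2 + P.K * Real.exp (-(0.4 * P.t)) +
        (4 * P.t / m0 + 2)) +
        2 / P.h * ((P.l / m0 + (2 * P.t / m0 + 1)) * (P.ρ + C / k1 + C / m) +
        (P.K : ℝ) ^ 2 / P.t ^ 2)) := by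
    gcongr
  have h5 : 0 ≤ (2 * P.t / m0 + 1) / P.l := by positivity
  calc (∑ k ∈ range P.K, ∑ a ∈ Ioc P.y P.y2, P.Dv m k a) / P.J +
      (2 * P.t / m0 + 1) / P.l * ((∑ a ∈ Ioc P.y P.y2, UKL.f m a) / P.y)
      ≤ (P.W * (4 * ch P.h * ((P.K : ℝ) ^ 2 / P.t ^ 2 + P.K * Real.exp (-(0.4 * P.t)) +
        (4 * P.t / m0 + 2)) +
        2 / P.h * ((P.l / m0 + (2 * P.t / m0 + 1)) * (P.ρ + C / k1 + C / m) +
        (P.K : ℝ) ^ 2 / P.t ^ 2))) / P.J + (2 * P.t / m0 + 1) / P.l * (2 * P.W) := by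
        apply add_le_add
        · exact div_le_div_of_nonneg_right (h1.trans h4) hJ0.le
        · exact mul_le_mul_of_nonneg_left h3 h5
    _ = _ := by unfold Tot; ring

end Par

end DF
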