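import Mathlib
import Pool.Agent.Lib_helper1.DF.Elem2
import Pool.Agent.Lib_helper1.DF.Law

/-!
# Good roots: an antichain containing most of a short interval
-/

set_option autoImplicit false

namespace DF

open Finset ND PD Pool.Agent.LibHelper3

/-- the number of integers of an interval with a given parity word -/
theorem count_pw_Ioc (k y y2 : ℕ) (hy : y ≤ y2) {w : List Bool} (hw : w ∈ words k) :
    (((Ioc y y2).filter (fun n => pw k n = w)).card : ℝ) ≤ ((y2 : ℝ) - y) / 2 ^ k + 1 := by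
  have h1 := sum_interval (N := 2 ^ k) (by positivity)
    (F := fun n => if (3 ^ ones w * n + off w) % 2 ^ k = 0 then (1 : ℝ) else 0)
    (fun m => by
      have : 3 ^ ones w * (m + 2 ^ k) + off w = 3 ^ ones w * m + off w + 3 ^ ones w * 2 ^ k := by ring
      simp only [this, Nat.add_mul_mod_self_right])
    (fun n => by split_ifs <;> norm_num) hy (I := Ioc y y2)
    (fun n hn => by rw [mem_Ioc] at hn; omega)
  have h2 := count_pw k 1 hw
  simp only [pw_iff hw] at h2 ⊢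
  rw [mul_one] at h2
  rw [← sum_filter, ← sum_filter, sum_const, sum_const, nsmul_eq_mul, nsmul_eq_mul, mul_one,
    mul_one, h2] at h1
  push_cast at h1
  linarith

/-- integers of an interval with too many odd steps -/
theorem count_bad (k y y2 : ℕ) (hy : y ≤ y2) :
    (((Ioc y y2).filter (fun n => 3 * k < 5 * ones (pw k n))).card : ℝ) ≤
      (((y2 : ℝ) - y) + 2 ^ k) * (981 / 1000) ^ k := by
  have h1 : (((Ioc y y2).filter (fun n => 3 * k < 5 * ones (pw k n))).card : ℝ) =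
      ∑ w ∈ PD.bad k, (((Ioc y y2).filter (fun n => pw k n = w)).card : ℝ) := by
    have h2 : ((Ioc y y2).filter (fun n => 3 * k < 5 * ones (pw k n))).card =
        ∑ w ∈ PD.bad k, (((Ioc y y2).filter (fun n => 3 * k < 5 * ones (pw k n))).filter
          (fun n => pw k n = w)).card := by
      apply card_eq_sum_card_fiberwise
      intro n hn
      rw [mem_coe, mem_filter] at hn
      rw [mem_coe]
      unfold PD.bad
      rw [mem_filter]
      exact ⟨pw_mem k n, hn.2⟩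
    rw [h2]
    push_cast
    refine sum_congr rfl fun w hw => ?_
    unfold PD.bad at hw
    rw [mem_filter] at hw
    congr 2
    ext n
    simp only [mem_filter]
    constructor
    · rintro ⟨⟨h3, _⟩, h4⟩; exact ⟨h3, h4⟩
    · rintro ⟨h3, h4⟩; exact ⟨⟨h3, by rw [h4]; exact hw.2⟩, h4⟩
  rw [h1]
  have h2 : ∀ w ∈ PD.bad k, (((Ioc y y2).filter (fun n => pw k n = w)).card : ℝ) ≤
      ((y2 : ℝ) - y) / 2 ^ k + 1 := by
    intro w hw
    unfold PD.bad at hw
    rw [mem_filter] at hw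
    exact count_pw_Ioc k y y2 hy hw.1
  refine (sum_le_sum h2).trans ?_
  rw [sum_const, nsmul_eq_mul]
  have h3 := card_bad k
  have hy' : (0 : ℝ) ≤ (y2 : ℝ) - y := by
    have : (y : ℝ) ≤ y2 := by exact_mod_cast hy
    linarith
  calc ((PD.bad k).card : ℝ) * (((y2 : ℝ) - y) / 2 ^ k + 1)
      ≤ (2 ^ k * (981 / 1000) ^ k) * (((y2 : ℝ) - y) / 2 ^ k + 1) := by gcongr
    _ = _ := by field_simp

/-- an integer without too many odd steps decreases -/
theorem iter_small {k n : ℕ} (h : 5 * ones (pw k n) ≤ 3 * k) (z Y : ℝ) (hz : (n : ℝ) ≤ z)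
    (hY : ((27 : ℝ) / 32) ^ ((k : ℝ) / 5) * (z + 2 ^ k) ≤ Y) : (short^[k] n : ℝ) ≤ Y := by
  have h1 := pw_eq k n
  have h2 := (off_lt (pw k n)).le
  rw [length_pw] at h2
  set p := ones (pw k n) with hp
  have h3 : (2 : ℝ) ^ k * (short^[k] n : ℕ) ≤ 3 ^ p * (n + 2 ^ k) := by
    have h4 : 2 ^ k * short^[k] n ≤ 3 ^ p * (n + 2 ^ k) := by
      rw [h1]
      calc 3 ^ p * n + off (pw k n) ≤ 3 ^ p * n + 2 ^ k * 3 ^ p := by omega
        _ = _ := by ring
    exact_mod_cast h4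
  have h5 : (3 : ℝ) ^ p / 2 ^ k ≤ (27 / 32) ^ ((k : ℝ) / 5) := by
    have e1 : ((27 : ℝ) / 32) ^ ((k : ℝ) / 5) = (27 : ℝ) ^ ((k : ℝ) / 5) / (32 : ℝ) ^ ((k : ℝ) / 5) :=
      Real.div_rpow (by norm_num) (by norm_num) _
    have e2 : (32 : ℝ) ^ ((k : ℝ) / 5) = 2 ^ k := by
      rw [show (32 : ℝ) = 2 ^ (5 : ℝ) by norm_num, ← Real.rpow_mul (by norm_num)]
      rw [show (5 : ℝ) * (k / 5) = k by ring, Real.rpow_natCast]
    have e3 : (27 : ℝ) ^ ((k : ℝ) / 5) = (3 : ℝ) ^ (3 * (k : ℝ) / 5) := by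
      rw [show (27 : ℝ) = 3 ^ (3 : ℝ) by norm_num, ← Real.rpow_mul (by norm_num)]
      congr 1; ring
    rw [e1, e2, e3]
    apply div_le_div_of_nonneg_right _ (by positivity)
    rw [← Real.rpow_natCast]
    apply Real.rpow_le_rpow_of_exponent_le (by norm_num)
    rw [le_div_iff₀ (by norm_num)]
    have : ((5 * p : ℕ) : ℝ) ≤ ((3 * k : ℕ) : ℝ) := by exact_mod_cast h
    push_cast at this
    linarith
  refine le_trans ?_ hY
  have h6 : (short^[k] n : ℝ) ≤ 3 ^ p / 2 ^ k * (n + 2 ^ k) := by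
    rw [div_mul_eq_mul_div, le_div_iff₀ (by positivity)]
    linarith
  refine h6.trans ?_
  gcongr

/-- good roots -/
def Gd (K y y2 Y1 : ℕ) (a : ℕ) : Prop :=
  a ∈ Ioc y y2 ∧ short^[K] a ≤ Y1 ∧ (∀ b k : ℕ, 1 ≤ b → b ≤ Y1 → short^[k] b ≠ a) ∧
    (∀ j, 1 ≤ j → j ≤ K → short^[j] a ∉ Ioc y y2)

theorem anti {K y y2 Y1 a a' : ℕ} (ha : Gd K y y2 Y1 a) (ha' : Gd K y y2 Y1 a') {j : ℕ}
    (hj : 1 ≤ j) : short^[j] a ≠ a' := by
  intro h
  rcases le_or_gt j K with hle | hgt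
  · apply ha.2.2.2 j hj hle
    rw [h]; exact ha'.1
  · have ha1 : 1 ≤ a := by have := ha.1; rw [mem_Ioc] at this; omega
    apply ha'.2.2.1 (short^[K] a) (j - K) (short_iter_pos ha1 K) ha.2.1
    rw [← Function.iterate_add_apply, show j - K + K = j by omega, h]

/-- roots hit from below -/
theorem hit_card (K y y2 Y1 : ℕ) (hY : Y1 ≤ y) (S : Finset ℕ)
    (hS : ∀ a ∈ S, a ∈ Ioc y y2 ∧ short^[K] a ≤ Y1 ∧ ∃ b k : ℕ, 1 ≤ b ∧ b ≤ Y1 ∧ short^[k] b = a) :
    S.card ≤ Y1 * K := by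
  classical
  set R : ℕ → ℕ := fun b => sInf {r : ℕ | 1 ≤ r ∧ short^[r] b ≤ Y1} with hR
  have h1 : S ⊆ ((Icc 1 Y1) ×ˢ (Icc 1 K)).image (fun q => short^[R q.1 - q.2] q.1) := by
    intro a ha
    obtain ⟨haI, haK, hex⟩ := hS a ha
    rw [mem_Ioc] at haI
    have hex' : ∃ k b : ℕ, 1 ≤ b ∧ b ≤ Y1 ∧ short^[k] b = a := by
      obtain ⟨b, k, h⟩ := hex
      exact ⟨k, b, h⟩
    set k := Nat.find hex' with hk
    obtain ⟨b, hb1, hbY, hba⟩ := Nat.find_spec hex'
    rw [← hk] at hba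
    have hk1 : 1 ≤ k := by
      by_contra hc
      have : k = 0 := by omega
      rw [this] at hba
      simp only [Function.iterate_zero, id_eq] at hba
      omega
    have habove : ∀ i, 1 ≤ i → i ≤ k → Y1 < short^[i] b := by
      intro i hi1 hik
      rcases hik.eq_or_lt with rfl | hlt
      · rw [hba]; omega
      · by_contra hc
        apply Nat.find_min hex' (m := k - i) (by omega)
        refine ⟨short^[i] b, short_iter_pos hb1 i, not_lt.1 hc, ?_⟩
        rw [← Function.iterate_add_apply, show k - i + i = k by omega, hba]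
    have hne : (K + k) ∈ {r : ℕ | 1 ≤ r ∧ short^[r] b ≤ Y1} := by
      refine ⟨by omega, ?_⟩
      rw [Function.iterate_add_apply, hba]
      exact haK
    have hRle : R b ≤ K + k := Nat.sInf_le hne
    have hRmem : R b ∈ {r : ℕ | 1 ≤ r ∧ short^[r] b ≤ Y1} := Nat.sInf_mem ⟨_, hne⟩
    have hRgt : k < R b := by
      by_contra hc
      have := habove (R b) hRmem.1 (not_lt.1 hc)
      have h2 := hRmem.2
      omega
    rw [mem_image]
    refine ⟨(b, R b - k), ?_, ?_⟩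
    · rw [mem_product, mem_Icc, mem_Icc]
      exact ⟨⟨hb1, hbY⟩, by simp only; omega, by simp only; omega⟩
    · simp only
      rw [show R b - (R b - k) = k by omega, hba]
  calc S.card ≤ _ := card_le_card h1
    _ ≤ ((Icc 1 Y1) ×ˢ (Icc 1 K)).card := card_image_le
    _ = Y1 * K := by rw [card_product, Nat.card_Icc, Nat.card_Icc]; simp

/-- no quick return to a very short interval -/
theorem no_return {j0 y y2 : ℕ} (h1 : 2 * 2 ^ j0 * (y2 - y) ≤ y) (h2 : 2 * 4 ^ j0 ≤ y) {j a : ℕ}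
    (hj : 1 ≤ j) (hj0 : j ≤ j0) (ha : a ∈ Ioc y y2) : short^[j] a ∉ Ioc y y2 := by
  intro hT
  rw [mem_Ioc] at ha hT
  have he := pw_eq j a
  have ho := (off_lt (pw j a)).le
  rw [length_pw] at ho
  set p := ones (pw j a) with hp
  set T := short^[j] a with hTd
  have hpj : p ≤ j := by
    have := ones_le (pw j a)
    rw [length_pw] at this
    exact this
  have h2j : 2 ^ j ≤ 2 ^ j0 := Nat.pow_le_pow_right (by norm_num) hj0
  have hpos : 0 < 2 ^ j := by positivity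
  obtain ⟨d, hd⟩ : ∃ d, y2 = y + d := ⟨y2 - y, by omega⟩
  have hd' : y2 - y = d := by omega
  rw [hd'] at h1
  rcases lt_trichotomy (2 ^ j) (3 ^ p) with hlt | heq | hgt
  · -- expanding
    have h3 : (2 ^ j + 1) * a ≤ 2 ^ j * T := by
      rw [he]
      calc (2 ^ j + 1) * a ≤ 3 ^ p * a := Nat.mul_le_mul_right _ hlt
        _ ≤ _ := Nat.le_add_right _ _
    have h4 : 2 ^ j * T ≤ 2 ^ j * (y + d) := Nat.mul_le_mul_left _ (by omega)
    have h5 : 2 ^ j * d ≤ 2 ^ j0 * d := Nat.mul_le_mul_right _ h2j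
    have h6 : 2 * (2 ^ j0 * d) ≤ y := by
      calc 2 * (2 ^ j0 * d) = 2 * 2 ^ j0 * d := by ring
        _ ≤ y := h1
    have h7 : (2 ^ j + 1) * (y + 1) ≤ (2 ^ j + 1) * a := Nat.mul_le_mul_left _ (by omega)
    have e1 : (2 ^ j + 1) * (y + 1) = 2 ^ j * y + 2 ^ j + y + 1 := by ring
    have e2 : 2 ^ j * (y + d) = 2 ^ j * y + 2 ^ j * d := by ring
    omega
  · -- impossible
    have h3 : 2 ∣ 3 ^ p := by
      rw [← heq]; exact dvd_pow_self 2 (by omega)
    have h4 := Nat.Prime.dvd_of_dvd_pow Nat.prime_two h3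
    omega
  · -- contracting
    have h3 : 2 ^ j * T + a ≤ 2 ^ j * a + 2 ^ j * 2 ^ j := by
      have h4 : 3 ^ p * a + a ≤ 2 ^ j * a := by
        calc 3 ^ p * a + a = (3 ^ p + 1) * a := by ring
          _ ≤ 2 ^ j * a := Nat.mul_le_mul_right _ hgt
      have h5 : 2 ^ j * 3 ^ p ≤ 2 ^ j * 2 ^ j := Nat.mul_le_mul_left _ hgt.le
      omega
    have h4 : 2 ^ j * (y + 1) ≤ 2 ^ j * T := Nat.mul_le_mul_left _ (by omega)
    have h5 : 2 ^ j * a ≤ 2 ^ j * (y + d) := Nat.mul_le_mul_left _ (by omega)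
    have h6 : 2 ^ j * d ≤ 2 ^ j0 * d := Nat.mul_le_mul_right _ h2j
    have h7 : 2 * (2 ^ j0 * d) ≤ y := by
      calc 2 * (2 ^ j0 * d) = 2 * 2 ^ j0 * d := by ring
        _ ≤ y := h1
    have h8 : 2 ^ j * 2 ^ j ≤ 4 ^ j0 := by
      calc 2 ^ j * 2 ^ j = 4 ^ j := by rw [← mul_pow]; norm_num
        _ ≤ 4 ^ j0 := Nat.pow_le_pow_right (by norm_num) hj0
    have e1 : 2 ^ j * (y + 1) = 2 ^ j * y + 2 ^ j := by ring
    have e2 : 2 ^ j * (y + d) = 2 ^ j * y + 2 ^ j * d := by ring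
    omega

theorem pow_32 (j : ℕ) (hj : 41 ≤ j) : 1024 * 27 ^ j ≤ 32 ^ j := by
  obtain ⟨i, rfl⟩ := Nat.exists_eq_add_of_le hj
  rw [pow_add, pow_add]
  calc 1024 * (27 ^ 41 * 27 ^ i) = (1024 * 27 ^ 41) * 27 ^ i := by ring
    _ ≤ 32 ^ 41 * 27 ^ i := Nat.mul_le_mul_right _ (by norm_num)
    _ ≤ 32 ^ 41 * 32 ^ i := Nat.mul_le_mul_left _ (Nat.pow_le_pow_left (by norm_num) i)

/-- a late return needs many odd steps -/
theorem return_bad {y y2 j a : ℕ} (hy2 : y2 ≤ 2 * y) (hj : 41 ≤ j) (h2 : 2 ^ j ≤ y)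
    (ha : a ∈ Ioc y y2) (hT : short^[j] a ∈ Ioc y y2) : 3 * j < 5 * ones (pw j a) := by
  rw [mem_Ioc] at ha hT
  by_contra hc
  rw [not_lt] at hc
  have he := pw_eq j a
  have ho := (off_lt (pw j a)).le
  rw [length_pw] at ho
  set p := ones (pw j a) with hp
  set T := short^[j] a with hTd
  have h3 : 2 ^ j * a < 4 * 3 ^ p * a := by
    have h4 : 2 ^ j * a ≤ 2 ^ j * (2 * y) := Nat.mul_le_mul_left _ (by omega)
    have h5 : 2 ^ j * (y + 1) ≤ 2 ^ j * T := Nat.mul_le_mul_left _ (by omega)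
    have h6 : 2 ^ j * 3 ^ p ≤ a * 3 ^ p := Nat.mul_le_mul_right _ (by omega)
    have e1 : 4 * 3 ^ p * a = 2 * (3 ^ p * a + a * 3 ^ p) := by ring
    have e2 : 2 ^ j * (2 * y) = 2 * (2 ^ j * y) := by ring
    have e3 : 2 ^ j * (y + 1) = 2 ^ j * y + 2 ^ j := by ring
    have h7 : 0 < 2 ^ j := by positivity
    omega
  have h4 : 2 ^ j < 4 * 3 ^ p := Nat.lt_of_mul_lt_mul_right h3
  have h5 : (2 ^ j) ^ 5 < (4 * 3 ^ p) ^ 5 := Nat.pow_lt_pow_left h4 (by norm_num)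
  have e1 : (2 ^ j) ^ 5 = 32 ^ j := by rw [← pow_mul, mul_comm, pow_mul]; norm_num
  have h6 : (4 * 3 ^ p) ^ 5 ≤ 1024 * 27 ^ j := by
    calc (4 * 3 ^ p) ^ 5 = 1024 * 3 ^ (5 * p) := by rw [mul_pow, ← pow_mul, mul_comm p 5]; norm_num
      _ ≤ 1024 * 3 ^ (3 * j) := Nat.mul_le_mul_left _ (Nat.pow_le_pow_right (by norm_num) hc)
      _ = 1024 * 27 ^ j := by rw [pow_mul]; norm_num
  have := pow_32 j hj
  omega

theorem geom_le (j0 K : ℕ) : ∑ j ∈ Ioc j0 K, ((981 : ℝ) / 1000) ^ j ≤ (981 / 1000) ^ j0 * 53 := by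
  have h := Base.geom_tail (981 / 1000) (by norm_num) (by norm_num) j0 K
  refine h.trans ?_
  rw [pow_succ]
  have : (0 : ℝ) < (981 / 1000) ^ j0 := by positivity
  rw [div_le_iff₀ (by norm_num)]
  norm_num
  nlinarith

open Classical in
/-- most roots of a short interval are good -/
theorem good_card {K y y2 Y1 j0 : ℕ} (hyy : y ≤ y2) (hy2 : y2 ≤ 2 * y) (hY : Y1 ≤ y)
    (h2K : 2 ^ K ≤ y2 - y) (hj0 : 40 ≤ j0) (h1 : 2 * 2 ^ j0 * (y2 - y) ≤ y) (h2 : 2 * 4 ^ j0 ≤ y)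
    (hsmall : ((27 : ℝ) / 32) ^ ((K : ℝ) / 5) * (y2 + 2 ^ K) ≤ Y1) :
    (((Ioc y y2).filter (fun a => ¬ Gd K y y2 Y1 a)).card : ℝ) ≤
      2 * ((y2 : ℝ) - y) * (981 / 1000) ^ K + Y1 * K +
        2 * ((y2 : ℝ) - y) * ((981 / 1000) ^ j0 * 53) := by
  have hyr : (2 : ℝ) ^ K ≤ (y2 : ℝ) - y := by
    have : ((2 ^ K : ℕ) : ℝ) ≤ ((y2 - y : ℕ) : ℝ) := by exact_mod_cast h2K
    rw [Nat.cast_sub hyy] at this
    push_cast at this
    exact this
  set S1' := (Ioc y y2).filter (fun n => 3 * K < 5 * ones (pw K n)) with hS1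
  set S2 := (Ioc y y2).filter (fun a => short^[K] a ≤ Y1 ∧
    ∃ b k : ℕ, 1 ≤ b ∧ b ≤ Y1 ∧ short^[k] b = a) with hS2
  set S3 := (Ioc j0 K).biUnion (fun j => (Ioc y y2).filter (fun n => 3 * j < 5 * ones (pw j n)))
    with hS3
  have hsub : (Ioc y y2).filter (fun a => ¬ Gd K y y2 Y1 a) ⊆ (S1' ∪ S2) ∪ S3 := by
    intro a ha
    rw [mem_filter] at ha
    obtain ⟨haI, hng⟩ := ha
    rw [mem_union, mem_union]
    by_cases c1 : 3 * K < 5 * ones (pw K a)
    · left; left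
      rw [hS1, mem_filter]; exact ⟨haI, c1⟩
    · have c1' : short^[K] a ≤ Y1 := by
        have haI' := haI
        rw [mem_Ioc] at haI'
        have := iter_small (not_lt.1 c1) (y2 : ℝ) (Y1 : ℝ) (by exact_mod_cast haI'.2) hsmall
        exact_mod_cast this
      by_cases c2 : ∃ b k : ℕ, 1 ≤ b ∧ b ≤ Y1 ∧ short^[k] b = a
      · left; right
        rw [hS2, mem_filter]; exact ⟨haI, c1', c2⟩
      · right
        have c3 : ∃ j, 1 ≤ j ∧ j ≤ K ∧ short^[j] a ∈ Ioc y y2 := by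
          by_contra hc
          push Not at hc
          apply hng
          refine ⟨haI, c1', ?_, hc⟩
          intro b k hb1 hb2 hbk
          exact c2 ⟨b, k, hb1, hb2, hbk⟩
        obtain ⟨j, hj1, hjK, hjI⟩ := c3
        have hjj0 : j0 < j := by
          by_contra hc
          exact no_return h1 h2 hj1 (not_lt.1 hc) haI hjI
        rw [hS3, mem_biUnion]
        refine ⟨j, mem_Ioc.2 ⟨hjj0, hjK⟩, ?_⟩
        rw [mem_filter]
        refine ⟨haI, return_bad hy2 (by omega) ?_ haI hjI⟩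
        calc 2 ^ j ≤ 2 ^ K := Nat.pow_le_pow_right (by norm_num) hjK
          _ ≤ y2 - y := h2K
          _ ≤ y := by omega
  have hc := (card_le_card hsub).trans ((card_union_le _ _).trans
    (Nat.add_le_add_right (card_union_le _ _) _))
  have a1 := count_bad K y y2 hyy
  have a2 : S2.card ≤ Y1 * K := by
    apply hit_card K y y2 Y1 hY
    intro a ha
    rw [hS2, mem_filter] at ha
    exact ⟨ha.1, ha.2.1, ha.2.2⟩
  have a3 : (S3.card : ℝ) ≤ 2 * ((y2 : ℝ) - y) * ((981 / 1000) ^ j0 * 53) := by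
    have b1 : (S3.card : ℝ) ≤ ∑ j ∈ Ioc j0 K,
        (((Ioc y y2).filter (fun n => 3 * j < 5 * ones (pw j n))).card : ℝ) := by
      have : S3.card ≤ ∑ j ∈ Ioc j0 K, ((Ioc y y2).filter (fun n => 3 * j < 5 * ones (pw j n))).card :=
        card_biUnion_le
      exact_mod_cast this
    have b2 : ∀ j ∈ Ioc j0 K, (((Ioc y y2).filter (fun n => 3 * j < 5 * ones (pw j n))).card : ℝ) ≤
        2 * ((y2 : ℝ) - y) * (981 / 1000) ^ j := by
      intro j hj
      rw [mem_Ioc] at hj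
      refine (count_bad j y y2 hyy).trans ?_
      have : (2 : ℝ) ^ j ≤ 2 ^ K := pow_le_pow_right₀ (by norm_num) hj.2
      apply mul_le_mul_of_nonneg_right _ (by positivity)
      linarith
    have b3 := sum_le_sum b2
    rw [← mul_sum] at b3
    have b4 := geom_le j0 K
    have b5 : 2 * ((y2 : ℝ) - y) * ∑ j ∈ Ioc j0 K, ((981 : ℝ) / 1000) ^ j ≤
        2 * ((y2 : ℝ) - y) * ((981 / 1000) ^ j0 * 53) := by
      apply mul_le_mul_of_nonneg_left b4
      have : (0 : ℝ) < 2 ^ K := by positivity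
      linarith
    linarith
  have hc' : (((Ioc y y2).filter (fun a => ¬ Gd K y y2 Y1 a)).card : ℝ) ≤
      (S1'.card : ℝ) + S2.card + S3.card := by exact_mod_cast hc
  have a2' : (S2.card : ℝ) ≤ Y1 * K := by exact_mod_cast a2
  have a1' : (S1'.card : ℝ) ≤ 2 * ((y2 : ℝ) - y) * (981 / 1000) ^ K := by
    refine a1.trans ?_
    apply mul_le_mul_of_nonneg_right _ (by positivity)
    linarith
  linarith

end DF
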