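import Mathlib
import Pool.Agent.Lib_helper1.DF.Good

/-!
# Smoothed densities of the predecessors of a set of good roots
-/

set_option autoImplicit false

namespace DF

open Finset ND PD Pool.Agent.LibHelper3 Filter Topology

theorem mem_V_iff {k a n : ℕ} (ha : 1 ≤ a) : n ∈ V k a ↔ short^[k] n = a := by
  constructor
  · intro h; exact (mem_V ha h).1
  · intro h
    have h1 := pw_eq k n
    rw [h] at h1
    have hl : (pw k n).reverse.length = k := by rw [List.length_reverse, length_pw]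
    have hv : PD.val (pw k n).reverse a := by
      rw [val_iff, ones_reverse, hl]
      unfold uo
      rw [List.reverse_reverse, h1, Nat.mul_add_mod]
    have h2 := nd_eq _ a hv
    rw [ones_reverse, hl] at h2
    unfold uo at h2
    rw [List.reverse_reverse] at h2
    have h3 : 3 ^ ones (pw k n) * nd (pw k n).reverse a = 3 ^ ones (pw k n) * n := by omega
    have h4 := Nat.eq_of_mul_eq_mul_left (by positivity) h3
    unfold V
    rw [mem_image]
    exact ⟨(pw k n).reverse, mem_filter.2 ⟨mem_words.2 hl, hv⟩, h4⟩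

theorem sum_V (F : ℕ → ℝ) (k a : ℕ) :
    ∑ n ∈ V k a, F n = ∑ u ∈ words k, if PD.val u a then F (nd u a) else 0 := by
  unfold V
  rw [sum_image, sum_filter]
  intro u hu v hv h
  rw [mem_coe, mem_filter, mem_words] at hu hv
  exact nd_inj (hu.1.trans hv.1.symm) hu.2 hv.2 h

/-- predecessors of a set -/
def RA (A : Finset ℕ) : Set ℕ := {n | ∃ a ∈ A, n ∈ ReachS a}

namespace Par

variable (P : Par)

theorem Psi_eq (a : ℕ) : P.Psi a = ∑ k ∈ range P.K, ∑ n ∈ V k a, psi P.h P.J P.x n := by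
  unfold Psi
  refine sum_congr rfl fun k _ => ?_
  rw [sum_V]
  rfl

/-- pairs -/
theorem Psi_sum {Y1 : ℕ} {A : Finset ℕ} (hA : ∀ a ∈ A, Gd P.K P.y P.y2 Y1 a) :
    ∑ a ∈ A, P.Psi a = ∑ n ∈ (A ×ˢ range P.K).biUnion (fun q => V q.2 q.1),
      psi P.h P.J P.x n := by
  rw [sum_biUnion]
  · rw [sum_product]
    exact sum_congr rfl fun a _ => P.Psi_eq a
  · intro q hq q' hq' hne
    rw [mem_coe, mem_product, mem_range] at hq hq'
    have h1 := hA q.1 hq.1
    have h2 := hA q'.1 hq'.1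
    have p1 : 1 ≤ q.1 := by have := h1.1; rw [mem_Ioc] at this; omega
    have p2 : 1 ≤ q'.1 := by have := h2.1; rw [mem_Ioc] at this; omega
    change Disjoint (V q.2 q.1) (V q'.2 q'.1)
    rw [disjoint_left]
    intro n hn hn'
    rw [mem_V_iff p1] at hn
    rw [mem_V_iff p2] at hn'
    rcases lt_trichotomy q.2 q'.2 with hlt | heq | hgt
    · apply anti h1 h2 (j := q'.2 - q.2) (by omega)
      rw [← hn, ← Function.iterate_add_apply, show q'.2 - q.2 + q.2 = q'.2 by omega, hn']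
    · apply hne
      apply Prod.ext _ heq
      rw [← hn, ← hn', heq]
    · apply anti h2 h1 (j := q.2 - q'.2) (by omega)
      rw [← hn', ← Function.iterate_add_apply, show q.2 - q'.2 + q'.2 = q.2 by omega, hn]

theorem lower_sum {Y1 : ℕ} {A : Finset ℕ} (hA : ∀ a ∈ A, Gd P.K P.y P.y2 Y1 a) :
    ∑ a ∈ A, P.Psi a ≤ ∑ n ∈ Bc (RA A) (Real.exp (P.J * P.h) * P.x), psi P.h P.J P.x n := by
  classical
  rw [P.Psi_sum hA, ← sum_filter_ne_zero]
  refine sum_le_sum_of_subset_of_nonneg ?_ (fun n _ _ => psi_nonneg P.hx n)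
  intro n hn
  rw [mem_filter, mem_biUnion] at hn
  obtain ⟨⟨q, hq, hqn⟩, hne⟩ := hn
  rw [mem_product] at hq
  have h1 := hA q.1 hq.1
  have p1 : 1 ≤ q.1 := by have := h1.1; rw [mem_Ioc] at this; omega
  have h2 := mem_V p1 hqn
  rw [mem_Bc]
  refine ⟨h2.2.1, ?_, q.1, hq.1, q.2, h2.1⟩
  by_contra hc
  exact hne (psi_zero P.hh P.hx (not_le.1 hc))

theorem upper_sum {Y1 : ℕ} {A : Finset ℕ} (hA : ∀ a ∈ A, Gd P.K P.y P.y2 Y1 a) :
    ∑ n ∈ Bc (RA A) (Real.exp (P.J * P.h) * P.x), psi P.h P.J P.x n ≤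
      ∑ a ∈ A, P.Psi a + ∑ n ∈ Bc {n | Y1 < short^[P.K] n} (Real.exp (P.J * P.h) * P.x),
        psi P.h P.J P.x n := by
  classical
  rw [P.Psi_sum hA]
  have hsub : Bc (RA A) (Real.exp (P.J * P.h) * P.x) ⊆
      ((A ×ˢ range P.K).biUnion (fun q => V q.2 q.1)) ∪
        Bc {n | Y1 < short^[P.K] n} (Real.exp (P.J * P.h) * P.x) := by
    intro n hn
    rw [mem_Bc] at hn
    obtain ⟨hn1, hnX, a, ha, k, hk⟩ := hn
    rw [mem_union]
    by_cases hc : Y1 < short^[P.K] n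
    · right
      rw [mem_Bc]
      exact ⟨hn1, hnX, hc⟩
    · left
      rw [mem_biUnion]
      have h1 := hA a ha
      have p1 : 1 ≤ a := by have := h1.1; rw [mem_Ioc] at this; omega
      refine ⟨(a, k), ?_, (mem_V_iff p1).2 hk⟩
      rw [mem_product, mem_range]
      refine ⟨ha, ?_⟩
      by_contra hkK
      rw [not_lt] at hkK
      apply h1.2.2.1 (short^[P.K] n) (k - P.K) (short_iter_pos hn1 _) (not_lt.1 hc)
      have hkK' : P.K ≤ k := hkK
      rw [← Function.iterate_add_apply, show k - P.K + P.K = k by omega, hk]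
  refine (sum_le_sum_of_subset_of_nonneg hsub (fun n _ _ => psi_nonneg P.hx n)).trans ?_
  have := sum_union_inter (s₁ := (A ×ˢ range P.K).biUnion (fun q => V q.2 q.1))
    (s₂ := Bc {n | Y1 < short^[P.K] n} (Real.exp (P.J * P.h) * P.x)) (f := psi P.h P.J P.x)
  have h2 : 0 ≤ ∑ n ∈ (A ×ˢ range P.K).biUnion (fun q => V q.2 q.1) ∩
      Bc {n | Y1 < short^[P.K] n} (Real.exp (P.J * P.h) * P.x), psi P.h P.J P.x n :=
    sum_nonneg fun n _ => psi_nonneg P.hx n
  linarith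

/-- atypical starting points are rare -/
theorem Phi_atyp {Y1 : ℕ} (h2K : (2 : ℝ) ^ P.K ≤ P.x)
    (hsmall : ((27 : ℝ) / 32) ^ ((P.K : ℝ) / 5) * (Real.exp (P.J * P.h) * P.x + 2 ^ P.K) ≤ Y1) :
    Phi {n | Y1 < short^[P.K] n} P.h P.J P.x ≤ 2 * (981 / 1000) ^ P.K := by
  have hJ0 : (0 : ℝ) < P.J := by exact_mod_cast P.hJ
  unfold Phi
  rw [div_le_iff₀ hJ0]
  have h1 : ∀ j ∈ range P.J, D {n | Y1 < short^[P.K] n} (Real.exp (j * P.h) * P.x) ≤
      2 * (981 / 1000) ^ P.K := by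
    intro j hj
    rw [mem_range] at hj
    set z := Real.exp (j * P.h) * P.x with hz
    have hh := P.hh
    have hx := P.hx
    have hzx : P.x ≤ z := by
      have : (1 : ℝ) ≤ Real.exp (j * P.h) := Real.one_le_exp (by positivity)
      rw [hz]; nlinarith
    have hzX : z ≤ Real.exp (P.J * P.h) * P.x := by
      rw [hz]
      apply mul_le_mul_of_nonneg_right _ hx.le
      apply Real.exp_le_exp.2
      have : (j : ℝ) ≤ P.J := by exact_mod_cast hj.le
      nlinarith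
    have hz0 : 0 < z := by linarith
    unfold D
    rw [div_le_iff₀ hz0]
    have h2 : N {n | Y1 < short^[P.K] n} z ≤
        (((Ioc 0 ⌊z⌋₊).filter (fun n => 3 * P.K < 5 * ones (pw P.K n))).card : ℝ) := by
      unfold N
      have : (Bc {n | Y1 < short^[P.K] n} z).card ≤
          ((Ioc 0 ⌊z⌋₊).filter (fun n => 3 * P.K < 5 * ones (pw P.K n))).card := by
        apply card_le_card
        intro n hn
        rw [mem_Bc] at hn
        rw [mem_filter, mem_Ioc]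
        refine ⟨⟨hn.1, Nat.le_floor hn.2.1⟩, ?_⟩
        by_contra hc
        have h3 := iter_small (not_lt.1 hc) _ (Y1 : ℝ) (hn.2.1.trans hzX) hsmall
        have h4 : short^[P.K] n ≤ Y1 := by exact_mod_cast h3
        have h5 := hn.2.2
        have h6 : Y1 < short^[P.K] n := h5
        omega
      exact_mod_cast this
    have h3 := count_bad P.K 0 ⌊z⌋₊ (by omega)
    have h4 := Nat.floor_le hz0.le
    push_cast at h3
    rw [sub_zero] at h3
    calc _ ≤ _ := h2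
      _ ≤ ((⌊z⌋₊ : ℝ) + 2 ^ P.K) * (981 / 1000) ^ P.K := h3
      _ ≤ (z + z) * (981 / 1000) ^ P.K := by
          apply mul_le_mul_of_nonneg_right _ (by positivity)
          linarith
      _ = _ := by ring
  refine (sum_le_sum h1).trans (le_of_eq ?_)
  rw [sum_const, card_range, nsmul_eq_mul]
  ring

/-- the smoothed density against the sum of the local densities -/
theorem Phi_near {C : ℝ} (hC0 : 0 ≤ C) (hC : ∀ m k y y2 : ℕ, 1 ≤ m → m ≤ k → 3 ≤ k →
    y ≤ y2 → 3 ^ k ≤ y2 - y →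
    ∑ a ∈ Ioc y y2, |S1 k a - UKL.f m a| ≤ 2 * ((y2 : ℝ) - y) * (C / k + C / m))
    {m k1 : ℕ} (hm : 1 ≤ m) (hmk : m ≤ k1) (hk3 : 3 ≤ k1) (hk1 : (k1 : ℝ) * m0 ≤ P.v + P.t)
    (hmK : m < P.K) (hv : 0 ≤ P.v) (hl : 2 * P.t ≤ P.l) (hK : P.v + P.l ≤ m0 * P.K)
    {Y1 : ℕ} {A : Finset ℕ} (hA : ∀ a ∈ A, Gd P.K P.y P.y2 Y1 a) (h2K : (2 : ℝ) ^ P.K ≤ P.x)
    (hsmall : ((27 : ℝ) / 32) ^ ((P.K : ℝ) / 5) * (Real.exp (P.J * P.h) * P.x + 2 ^ P.K) ≤ Y1) :
    |Phi (RA A) P.h P.J P.x - ∑ a ∈ A, 1 / m0 * UKL.f m a / a| ≤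
      2 * (981 / 1000) ^ P.K + P.W * P.Tot C m k1 := by
  have hJ0 : (0 : ℝ) < P.J := by exact_mod_cast P.hJ
  have h1 := P.lower_sum hA
  have h2 := P.upper_sum hA
  have h3 := P.Phi_atyp h2K hsmall
  rw [Phi_eq _ P.hh P.J P.hx le_rfl, div_le_iff₀ hJ0] at h3
  have h4 : |Phi (RA A) P.h P.J P.x - ∑ a ∈ A, P.Psi a / P.J| ≤ 2 * (981 / 1000) ^ P.K := by
    rw [Phi_eq _ P.hh P.J P.hx le_rfl, ← sum_div, ← sub_div, abs_div, abs_of_pos hJ0,
      div_le_iff₀ hJ0, abs_le]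
    have : (0 : ℝ) ≤ 2 * (981 / 1000) ^ P.K * P.J := by positivity
    constructor <;> linarith
  have h5 : |∑ a ∈ A, P.Psi a / P.J - ∑ a ∈ A, 1 / m0 * UKL.f m a / a| ≤ P.W * P.Tot C m k1 := by
    rw [← sum_sub_distrib]
    refine (abs_sum_le_sum_abs _ _).trans ?_
    refine le_trans ?_ (P.elem hC0 hC hm hmk hk3 hk1 hmK hv hl hK)
    exact sum_le_sum_of_subset_of_nonneg (fun a ha => (hA a ha).1) (fun _ _ _ => abs_nonneg _)
  have e : Phi (RA A) P.h P.J P.x - ∑ a ∈ A, 1 / m0 * UKL.f m a / a =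
      (Phi (RA A) P.h P.J P.x - ∑ a ∈ A, P.Psi a / P.J) +
      (∑ a ∈ A, P.Psi a / P.J - ∑ a ∈ A, 1 / m0 * UKL.f m a / a) := by ring
  rw [e]
  exact (abs_add_le _ _).trans (add_le_add h4 h5)

end Par

/-- invariance -/
theorem RA_inv {A : Finset ℕ} {y2 : ℕ} (hA : ∀ a ∈ A, a ≤ y2) (n : ℕ) (hn : y2 < n) :
    n ∈ RA A ↔ short n ∈ RA A := by
  constructor
  · rintro ⟨a, ha, h⟩
    exact ⟨a, ha, (reachS_short a n (lt_of_le_of_lt (hA a ha) hn)).1 h⟩
  · rintro ⟨a, ha, h⟩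
    exact ⟨a, ha, (reachS_short a n (lt_of_le_of_lt (hA a ha) hn)).2 h⟩

/-- additivity over good roots -/
theorem N_RA {K y y2 Y1 : ℕ} {A : Finset ℕ} (hA : ∀ a ∈ A, Gd K y y2 Y1 a) (z : ℝ) :
    N (RA A) z = ∑ a ∈ A, N (ReachS a) z := by
  classical
  unfold N
  have h1 : Bc (RA A) z = A.biUnion (fun a => Bc (ReachS a) z) := by
    ext n
    rw [mem_Bc, mem_biUnion]
    constructor
    · rintro ⟨h1, h2, a, ha, h3⟩
      exact ⟨a, ha, mem_Bc.2 ⟨h1, h2, h3⟩⟩
    · rintro ⟨a, ha, h⟩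
      rw [mem_Bc] at h
      exact ⟨h.1, h.2.1, a, ha, h.2.2⟩
  rw [h1, card_biUnion]
  · push_cast; rfl
  · intro a ha a' ha' hne
    rw [mem_coe] at ha ha'
    change Disjoint (Bc (ReachS a) z) (Bc (ReachS a') z)
    rw [disjoint_left]
    intro n hn hn'
    rw [mem_Bc] at hn hn'
    obtain ⟨k, hk⟩ := hn.2.2
    obtain ⟨k', hk'⟩ := hn'.2.2
    rcases lt_trichotomy k k' with hlt | heq | hgt
    · apply anti (hA a ha) (hA a' ha') (j := k' - k) (by omega)
      rw [← hk, ← Function.iterate_add_apply, show k' - k + k = k' by omega, hk']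
    · apply hne
      rw [← hk, ← hk', heq]
    · apply anti (hA a' ha') (hA a ha) (j := k - k') (by omega)
      rw [← hk', ← Function.iterate_add_apply, show k - k' + k' = k by omega, hk]

/-- limits of smoothed densities -/
theorem Phi_tendsto {B : Set ℕ} {δ : ℝ} (h : Tendsto (F B) atTop (𝓝 δ)) (hh : ℝ) {J : ℕ}
    (hJ : 1 ≤ J) : Tendsto (fun u : ℝ => Phi B hh J (Real.exp u)) atTop (𝓝 δ) := by
  have hJ0 : (0 : ℝ) < J := by exact_mod_cast hJ
  have h1 : ∀ j ∈ range J, Tendsto (fun u : ℝ => D B (Real.exp (j * hh) * Real.exp u)) atTop (𝓝 δ) := by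
    intro j _
    have h2 : Tendsto (fun u : ℝ => F B (j * hh + u)) atTop (𝓝 δ) :=
      h.comp (tendsto_atTop_add_const_left _ _ tendsto_id)
    refine h2.congr (fun u => ?_)
    unfold F
    rw [Real.exp_add]
  have h2 := (tendsto_finsetSum (range J) h1).div_const (J : ℝ)
  rw [sum_const, card_range, nsmul_eq_mul, mul_div_cancel_left₀ _ hJ0.ne'] at h2
  exact h2

end DF
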