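import Mathlib
import Pool.Agent.Lib_helper1.DF.Elem2

/-!
# Size of the total error
-/

set_option autoImplicit false

namespace DF

open Finset ND PD Pool.Agent.LibHelper3

theorem Par.Tot_le (P : Par) {C : ℝ} (hC0 : 0 ≤ C) {m k1 : ℕ} (hk3 : 3 ≤ k1)
    {L ξ : ℝ} (hL : 500 ≤ L) (hξ : 0 < ξ) (hξ1 : ξ ≤ 1 / 7000) (ht : P.t = ξ * L)
    (hl : 0.004 * L ≤ P.l) (hK : (P.K : ℝ) ≤ 0.9 * L) (hk1 : 0.07 * L ≤ k1) :
    P.Tot C m k1 ≤ 62700 * ξ + 22 * P.h + 22 * (C / m) + (2025 / (ξ ^ 2 * L) +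
      1800 * Real.exp (-(0.4 * (ξ * L))) + 4500 / L +
      22 * (2 * Real.exp (-(0.4 * (ξ * L))) + 4 * P.τ + C / (0.07 * L))) := by
  have hL0 : 0 < L := by linarith
  have hh := P.hh
  have hh1 := P.hh1
  have hc := ch_pos hh
  have hτ0 := P.hτ0
  have hJ0 : (0 : ℝ) < P.J := by exact_mod_cast P.hJ
  have hm0 := m0_pos
  have hm0' := m0_ge
  have hl0 : 0 < P.l := by
    have : (0 : ℝ) < 0.004 * L := by positivity
    linarith
  have hl' : P.l = P.J * P.h := rfl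
  have ht0 : 0 < P.t := by rw [ht]; positivity
  set E := Real.exp (-(0.4 * (ξ * L))) with hE
  have hE0 : 0 < E := Real.exp_pos _
  have hE' : Real.exp (-(0.4 * P.t)) = E := by rw [ht]
  have hk1r : (0 : ℝ) < k1 := by exact_mod_cast (by omega : 0 < k1)
  have hmr : 0 ≤ C / (m : ℝ) := by positivity
  -- basic quotients
  have q1 : 1 / P.l ≤ 250 / L := by
    rw [div_le_div_iff₀ hl0 hL0]
    linarith
  have q2 : 4 * ch P.h / P.J ≤ 8 / P.l := by
    have := ch_le hh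
    rw [div_le_div_iff₀ hJ0 hl0, hl']
    have h2 : 4 * ch P.h * (P.J * P.h) = 4 * (P.h * ch P.h) * P.J := by ring
    rw [h2]
    have : P.h * ch P.h ≤ 2 := by linarith
    nlinarith
  have q3 : (P.K : ℝ) ^ 2 / P.t ^ 2 ≤ 0.81 / ξ ^ 2 := by
    rw [ht, div_le_div_iff₀ (by positivity) (by positivity)]
    have h1 : (P.K : ℝ) ^ 2 ≤ (0.9 * L) ^ 2 := pow_le_pow_left₀ (by positivity) hK 2
    have h2 : 0.81 * (ξ * L) ^ 2 = (0.9 * L) ^ 2 * ξ ^ 2 := by ring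
    rw [h2]
    exact mul_le_mul_of_nonneg_right h1 (by positivity)
  have q4 : P.t / (P.l * m0) ≤ 1740 * ξ := by
    rw [ht, div_le_iff₀ (by positivity)]
    have h1 : 0.004 * L * 0.1437 ≤ P.l * m0 := by gcongr
    have h2 : 1740 * ξ * (0.004 * L * 0.1437) ≤ 1740 * ξ * (P.l * m0) :=
      mul_le_mul_of_nonneg_left h1 (by positivity)
    have h3 : ξ * L ≤ 1740 * ξ * (0.004 * L * 0.1437) := by
      have : 0 < ξ * L := by positivity
      nlinarith
    linarith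
  have q5 : 1 / m0 ≤ 6.96 := by
    rw [div_le_iff₀ hm0]; nlinarith
  have q6 : 250 / L ≤ 0.5 := by
    rw [div_le_iff₀ hL0]; linarith
  -- decomposition
  have hX1 : 0 ≤ (P.K : ℝ) ^ 2 / P.t ^ 2 + P.K * E + (4 * P.t / m0 + 2) := by positivity
  have s1 : 4 * ch P.h * ((P.K : ℝ) ^ 2 / P.t ^ 2 + P.K * E + (4 * P.t / m0 + 2)) / P.J ≤
      1620 / (ξ ^ 2 * L) + 1800 * E + 55700 * ξ + 4000 / L := by
    calc 4 * ch P.h * ((P.K : ℝ) ^ 2 / P.t ^ 2 + P.K * E + (4 * P.t / m0 + 2)) / P.J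
        = (4 * ch P.h / P.J) * ((P.K : ℝ) ^ 2 / P.t ^ 2 + P.K * E + (4 * P.t / m0 + 2)) := by ring
      _ ≤ (8 / P.l) * ((P.K : ℝ) ^ 2 / P.t ^ 2 + P.K * E + (4 * P.t / m0 + 2)) :=
          mul_le_mul_of_nonneg_right q2 hX1
      _ = 8 * (1 / P.l) * ((P.K : ℝ) ^ 2 / P.t ^ 2) + 8 * (1 / P.l) * P.K * E +
          32 * (P.t / (P.l * m0)) + 16 * (1 / P.l) := by field_simp; ring
      _ ≤ 8 * (250 / L) * (0.81 / ξ ^ 2) + 8 * (250 / L) * (0.9 * L) * E +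
          32 * (1740 * ξ) + 16 * (250 / L) := by gcongr
      _ ≤ _ := by
          have e1 : 8 * (250 / L) * (0.81 / ξ ^ 2) = 1620 / (ξ ^ 2 * L) := by field_simp; norm_num
          have e2 : 8 * (250 / L) * (0.9 * L) * E = 1800 * E := by field_simp; norm_num
          have e3 : 16 * (250 / L) = 4000 / L := by ring
          rw [e1, e2, e3]
          linarith
  have hρ : P.ρ = P.h + 2 * E + 4 * P.τ := by unfold Par.ρ; rw [hE']
  have hk : C / (k1 : ℝ) ≤ C / (0.07 * L) := div_le_div_of_nonneg_left hC0 (by positivity) hk1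
  have s2 : 2 / P.h * ((P.l / m0 + (2 * P.t / m0 + 1)) * (P.ρ + C / k1 + C / m) +
      (P.K : ℝ) ^ 2 / P.t ^ 2) / P.J ≤
      22 * (P.h + 2 * E + 4 * P.τ + C / (0.07 * L) + C / m) + 405 / (ξ ^ 2 * L) := by
    have hZ : 0 ≤ P.ρ + C / k1 + C / m := by rw [hρ]; positivity
    calc 2 / P.h * ((P.l / m0 + (2 * P.t / m0 + 1)) * (P.ρ + C / k1 + C / m) +
          (P.K : ℝ) ^ 2 / P.t ^ 2) / P.J
        = (2 * (1 / m0) + 4 * (P.t / (P.l * m0)) + 2 * (1 / P.l)) * (P.ρ + C / k1 + C / m) +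
          2 * (1 / P.l) * ((P.K : ℝ) ^ 2 / P.t ^ 2) := by rw [hl']; field_simp; ring
      _ ≤ (2 * 6.96 + 4 * (1740 * (1 / 7000)) + 2 * 0.5) * (P.ρ + C / k1 + C / m) +
          2 * (250 / L) * (0.81 / ξ ^ 2) := by
          have q4' : P.t / (P.l * m0) ≤ 1740 * (1 / 7000) := by
            refine q4.trans ?_
            gcongr
          have q1' : 1 / P.l ≤ 0.5 := q1.trans q6
          gcongr
      _ ≤ 22 * (P.ρ + C / k1 + C / m) + 405 / (ξ ^ 2 * L) := by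
          have e1 : 2 * (250 / L) * (0.81 / ξ ^ 2) = 405 / (ξ ^ 2 * L) := by field_simp; norm_num
          rw [e1]
          have : (2 * 6.96 + 4 * (1740 * (1 / 7000)) + 2 * 0.5 : ℝ) ≤ 22 := by norm_num
          have := mul_le_mul_of_nonneg_right this hZ
          linarith
      _ ≤ _ := by
          rw [hρ]
          linarith
  have s3 : 2 * ((2 * P.t / m0 + 1) / P.l) ≤ 6960 * ξ + 500 / L := by
    calc 2 * ((2 * P.t / m0 + 1) / P.l) = 4 * (P.t / (P.l * m0)) + 2 * (1 / P.l) := by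
          field_simp; ring
      _ ≤ 4 * (1740 * ξ) + 2 * (250 / L) := by gcongr
      _ = _ := by ring
  unfold Par.Tot
  rw [hE', add_div]
  have e4 : (1620 : ℝ) / (ξ ^ 2 * L) + 405 / (ξ ^ 2 * L) = 2025 / (ξ ^ 2 * L) := by
    rw [← add_div]; norm_num
  have e5 : (4000 : ℝ) / L + 500 / L = 4500 / L := by
    rw [← add_div]; norm_num
  linarith

end DF
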