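import Mathlib
import Pool.Agent.Lib_helper1.DF.Main1
import Pool.Agent.Lib_helper1.DF.Tot
import Pool.Agent.Lib_helper1.DF.Uniform
import Pool.Agent.Lib_helper1.DF.Window

/-!
# The sum of the densities over a set of good roots
-/

set_option autoImplicit false

namespace DF

open Finset ND PD Pool.Agent.LibHelper3 Filter Topology

theorem exp_tend {c : ℝ} (hc : 0 < c) : Tendsto (fun L : ℝ => Real.exp (-(c * L))) atTop (𝓝 0) :=
  Real.tendsto_exp_neg_atTop_nhds_zero.comp (tendsto_id.const_mul_atTop hc)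

theorem inv_tend (a : ℝ) {c : ℝ} (hc : 0 < c) : Tendsto (fun L : ℝ => a / (c * L)) atTop (𝓝 0) :=
  tendsto_const_nhds.div_atTop (tendsto_id.const_mul_atTop hc)

/-- the final error -/
theorem ev_err {ξ C : ℝ} (hξ : 0 < ξ) {η : ℝ} (hη : 0 < η) : ∀ᶠ L : ℝ in atTop,
    2025 / (ξ ^ 2 * L) + 1800 * Real.exp (-(0.4 * (ξ * L))) + 4500 / L +
      22 * (2 * Real.exp (-(0.4 * (ξ * L))) + 4 * Real.exp (-(0.01 * L)) + C / (0.07 * L)) ≤ η := by
  have h1 : Tendsto (fun L : ℝ => 2025 / (ξ ^ 2 * L)) atTop (𝓝 0) := inv_tend _ (by positivity)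
  have h2 : Tendsto (fun L : ℝ => Real.exp (-(0.4 * (ξ * L)))) atTop (𝓝 0) := by
    have := exp_tend (c := 0.4 * ξ) (by positivity)
    refine this.congr (fun L => ?_)
    rw [mul_assoc]
  have h3 : Tendsto (fun L : ℝ => (4500 : ℝ) / L) atTop (𝓝 0) :=
    tendsto_const_nhds.div_atTop tendsto_id
  have h4 : Tendsto (fun L : ℝ => Real.exp (-(0.01 * L))) atTop (𝓝 0) := exp_tend (by norm_num)
  have h5 : Tendsto (fun L : ℝ => C / (0.07 * L)) atTop (𝓝 0) := inv_tend _ (by norm_num)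
  have h := (((h1.add (h2.const_mul 1800)).add h3).add
    ((((h2.const_mul 2).add (h4.const_mul 4)).add h5).const_mul 22))
  simp only [mul_zero, add_zero] at h
  exact (h.eventually (ge_mem_nhds hη)).mono fun L hL => hL

theorem log3_le : Real.log 3 ≤ 1.1 := by
  have h1 : Real.log 3 * 10 = Real.log (3 ^ 10) := by rw [Real.log_pow]; push_cast; ring
  have h2 : Real.log (3 ^ 10) ≤ 11 := by
    rw [Real.log_le_iff_le_exp (by positivity)]
    have h3 : Real.exp 11 = Real.exp 1 ^ 11 := by rw [← Real.exp_nat_mul]; norm_num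
    rw [h3]
    have h4 := Real.exp_one_gt_d9
    calc (3 : ℝ) ^ 10 ≤ 2.7182818283 ^ 11 := by norm_num
      _ ≤ _ := by gcongr
  linarith

theorem log3227_ge : 0.165 ≤ Real.log (32 / 27) := by
  have h1 : Real.log (32 / 27) = -Real.log (27 / 32) := by
    rw [← Real.log_inv]; norm_num
  rw [h1]
  have h2 : Real.log (27 / 32) * 6 = Real.log ((27 / 32) ^ 6) := by rw [Real.log_pow]; push_cast; ring
  have h3 : Real.log ((27 / 32) ^ 6) ≤ -1 := by
    rw [Real.log_le_iff_le_exp (by positivity), Real.exp_neg]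
    have h4 := Real.exp_one_lt_d9
    have h5 : (2.7182818286 : ℝ)⁻¹ ≤ (Real.exp 1)⁻¹ := inv_anti₀ (Real.exp_pos _) h4.le
    refine le_trans ?_ h5
    norm_num
  linarith

theorem m0_le : m0 ≤ 1 / 6 := by
  unfold m0
  have := Real.log_le_sub_one_of_pos (x := 4 / 3) (by norm_num)
  linarith

/-- the natural density of the predecessor set -/
noncomputable def del (a : ℕ) : ℝ :=
  (density_exists Mix.mixing (ReachS a) a (fun n hn => reachS_short a n hn)).choose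

theorem del_spec (a : ℕ) : Tendsto (F (ReachS a)) atTop (𝓝 (del a)) :=
  (density_exists Mix.mixing (ReachS a) a (fun n hn => reachS_short a n hn)).choose_spec

theorem F_RA_tendsto {K y y2 Y1 : ℕ} {A : Finset ℕ} (hA : ∀ a ∈ A, Gd K y y2 Y1 a) :
    Tendsto (F (RA A)) atTop (𝓝 (∑ a ∈ A, del a)) := by
  have h := tendsto_finsetSum A (fun a _ => del_spec a)
  refine h.congr (fun u => ?_)
  unfold F D
  rw [N_RA hA, sum_div]

/-- the word length -/
noncomputable def Kp (y : ℕ) : ℕ := ⌊0.9 * Real.log y⌋₊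
/-- the threshold -/
noncomputable def Yp (y : ℕ) : ℕ := ⌊Real.exp (0.995 * Real.log y)⌋₊

theorem K_le {y : ℕ} (hL : 60000 ≤ Real.log y) : (Kp y : ℝ) ≤ 0.9 * Real.log y :=
  Nat.floor_le (by linarith)

theorem K_ge {y : ℕ} : 0.9 * Real.log y - 1 ≤ (Kp y : ℝ) :=
  (Nat.sub_one_lt_floor _).le

theorem pow3_le {y : ℕ} (hL : 60000 ≤ Real.log y) : (3 : ℝ) ^ Kp y ≤ Real.exp (0.99 * Real.log y) := by
  rw [← Real.log_le_iff_le_exp (by positivity), Real.log_pow]
  have h1 := K_le hL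
  have h2 := log3_le
  have h3 : 0 ≤ Real.log 3 := Real.log_nonneg (by norm_num)
  nlinarith

theorem pow981_le {y : ℕ} (hL : 60000 ≤ Real.log y) :
    ((981 : ℝ) / 1000) ^ Kp y ≤ Real.exp (-(0.01 * Real.log y)) := by
  rw [← Real.log_le_iff_le_exp (by positivity), Real.log_pow]
  have h1 := K_ge (y := y)
  have h2 := Real.log_le_sub_one_of_pos (x := 981 / 1000) (by norm_num)
  have h3 : (0 : ℝ) ≤ Kp y := by positivity
  have h4 : (Kp y : ℝ) * Real.log (981 / 1000) ≤ Kp y * (-0.019) := by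
    apply mul_le_mul_of_nonneg_left _ h3
    linarith
  linarith

theorem Y_ge {y : ℕ} : Real.exp (0.995 * Real.log y) - 1 ≤ (Yp y : ℝ) :=
  (Nat.sub_one_lt_floor _).le

theorem Y_le {y : ℕ} : (Yp y : ℝ) ≤ Real.exp (0.995 * Real.log y) :=
  Nat.floor_le (Real.exp_pos _).le

theorem small {y : ℕ} (hL : 60000 ≤ Real.log y) {X : ℝ} (hX : X ≤ Real.exp (1.02 * Real.log y)) :
    ((27 : ℝ) / 32) ^ ((Kp y : ℝ) / 5) * (X + 2 ^ Kp y) ≤ Yp y := by
  set L := Real.log y with hLd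
  have h1 : (2 : ℝ) ^ Kp y ≤ Real.exp (1.02 * L) := by
    calc (2 : ℝ) ^ Kp y ≤ 3 ^ Kp y := by gcongr; norm_num
      _ ≤ Real.exp (0.99 * L) := pow3_le hL
      _ ≤ _ := Real.exp_le_exp.2 (by linarith)
  have h2 : ((27 : ℝ) / 32) ^ ((Kp y : ℝ) / 5) ≤ Real.exp (-(0.0295 * L)) := by
    rw [Real.rpow_def_of_pos (by norm_num)]
    apply Real.exp_le_exp.2
    have h3 : Real.log (27 / 32) = -Real.log (32 / 27) := by
      rw [← Real.log_inv]; norm_num
    rw [h3]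
    have h4 := log3227_ge
    have h5 := K_ge (y := y)
    have h6 : (0 : ℝ) ≤ Kp y := by positivity
    have h7 : (Kp y : ℝ) * 0.165 ≤ Kp y * Real.log (32 / 27) := mul_le_mul_of_nonneg_left h4 h6
    rw [← hLd] at h5
    nlinarith
  have h3 : ((27 : ℝ) / 32) ^ ((Kp y : ℝ) / 5) * (X + 2 ^ Kp y) ≤
      Real.exp (-(0.0295 * L)) * (2 * Real.exp (1.02 * L)) := by
    have h5 : X + 2 ^ Kp y ≤ 2 * Real.exp (1.02 * L) := by linarith
    have h6 : (0 : ℝ) ≤ ((27 : ℝ) / 32) ^ ((Kp y : ℝ) / 5) := by positivity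
    calc _ ≤ ((27 : ℝ) / 32) ^ ((Kp y : ℝ) / 5) * (2 * Real.exp (1.02 * L)) :=
          mul_le_mul_of_nonneg_left h5 h6
      _ ≤ _ := mul_le_mul_of_nonneg_right h2 (by positivity)
  have h4 : Real.exp (-(0.0295 * L)) * (2 * Real.exp (1.02 * L)) = 2 * Real.exp (0.9905 * L) := by
    rw [show (0.9905 : ℝ) * L = -(0.0295 * L) + 1.02 * L by ring, Real.exp_add]; ring
  have h5 : 2 * Real.exp (0.9905 * L) + 1 ≤ Real.exp (0.995 * L) := by
    have h6 : (3 : ℝ) ≤ Real.exp (0.0045 * L) := by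
      have := Real.add_one_le_exp (0.0045 * L)
      linarith
    have h7 : (1 : ℝ) ≤ Real.exp (0.9905 * L) := Real.one_le_exp (by linarith)
    have h8 : Real.exp (0.995 * L) = Real.exp (0.0045 * L) * Real.exp (0.9905 * L) := by
      rw [← Real.exp_add]; congr 1; ring
    rw [h8]
    nlinarith
  have h6 := Y_ge (y := y)
  rw [← hLd] at h6
  linarith

/-- conditions on the logarithmic size -/
structure Big (C Cw ξ h ε2 θ1 : ℝ) (m : ℕ) (L : ℝ) : Prop where
  L0 : 60000 ≤ L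
  err : 2025 / (ξ ^ 2 * L) + 1800 * Real.exp (-(0.4 * (ξ * L))) + 4500 / L +
      22 * (2 * Real.exp (-(0.4 * (ξ * L))) + 4 * Real.exp (-(0.01 * L)) + C / (0.07 * L)) ≤
      0.1 * ε2
  c1 : 3 * Real.exp (-(0.01 * L)) ≤ 0.1 * ε2 * θ1
  c2 : Cw / (1.015 * L) ≤ 0.1 * ε2 * θ1
  t20 : 20 / ξ ≤ L
  mk1 : (m : ℝ) + 1 ≤ 0.08 * L
  hh : h ≤ 0.001 * L
  th : Real.exp (-(0.01 * L)) ≤ θ1

theorem ev_big (C Cw ξ h ε2 θ1 : ℝ) (m : ℕ) (hξ : 0 < ξ) (hε : 0 < ε2) (hθ : 0 < θ1) :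
    ∀ᶠ L : ℝ in atTop, Big C Cw ξ h ε2 θ1 m L := by
  have h4 : Tendsto (fun L : ℝ => 3 * Real.exp (-(0.01 * L))) atTop (𝓝 0) := by
    have := (exp_tend (c := 0.01) (by norm_num)).const_mul 3
    rwa [mul_zero] at this
  have h4' : Tendsto (fun L : ℝ => Real.exp (-(0.01 * L))) atTop (𝓝 0) := exp_tend (by norm_num)
  have h5 : Tendsto (fun L : ℝ => Cw / (1.015 * L)) atTop (𝓝 0) := inv_tend _ (by norm_num)
  filter_upwards [eventually_ge_atTop 60000, ev_err (C := C) hξ (η := 0.1 * ε2) (by positivity),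
    h4.eventually (ge_mem_nhds (show (0 : ℝ) < 0.1 * ε2 * θ1 by positivity)),
    h5.eventually (ge_mem_nhds (show (0 : ℝ) < 0.1 * ε2 * θ1 by positivity)),
    eventually_ge_atTop (20 / ξ), eventually_ge_atTop (((m : ℝ) + 1) / 0.08),
    eventually_ge_atTop (h / 0.001), h4'.eventually (ge_mem_nhds hθ)] with L a1 a2 a3 a4 a5 a6 a7 a8
  refine ⟨a1, a2, a3, a4, a5, ?_, ?_, a8⟩
  · rw [div_le_iff₀ (by norm_num)] at a6; linarith
  · rw [div_le_iff₀ (by norm_num)] at a7; linarith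

end DF
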