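import Mathlib
import Pool.Agent.Lib_helper1.DF.Main2

/-!
# The sum of the densities over a set of good roots
-/

set_option autoImplicit false

namespace DF

open Finset ND PD Pool.Agent.LibHelper3 Filter Topology

/-- existence of the parameters -/
theorem exists_par {C Cw ξ ε2 θ1 : ℝ} {m : ℕ} (hξ : 0 < ξ) (hξ1 : ξ ≤ 1 / 7000) (hε : 0 < ε2)
    (hε1 : ε2 ≤ 1) (hθ : 0 < θ1) (hθ1 : θ1 ≤ 1 / 2) {y y2 : ℕ}
    (hB : Big C Cw ξ (ε2 / 1000) ε2 θ1 m (Real.log y)) (hy1 : 1 ≤ y)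
    (hyy : θ1 * y ≤ (y2 : ℝ) - y) (hy2 : y2 ≤ 2 * y) {x : ℝ} (hx : 0 < x) :
    ∃ P : Par, P.h = ε2 / 1000 ∧ P.J = ⌊0.005 * Real.log y / (ε2 / 1000)⌋₊ ∧ P.x = x ∧
      P.K = Kp y ∧ P.y = y ∧ P.y2 = y2 ∧ P.t = ξ * Real.log y ∧
      P.τ = Real.exp (-(0.01 * Real.log y)) := by
  set L := Real.log y with hL
  have hL0 := hB.L0
  have hyr : (1 : ℝ) ≤ y := by exact_mod_cast hy1
  have hy0 : (0 : ℝ) < y := by linarith
  have hyL : (y : ℝ) = Real.exp L := by rw [hL, Real.exp_log hy0]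
  have hh : 0 < ε2 / 1000 := by positivity
  have h3 := pow3_le hB.L0
  rw [← hL] at h3
  have h99 : Real.exp (0.99 * L) = Real.exp (-(0.01 * L)) * y := by
    rw [hyL, ← Real.exp_add]; congr 1; ring
  have hyy' : y < y2 := by
    have : (y : ℝ) < y2 := by nlinarith
    exact_mod_cast this
  have e2 : (3 : ℝ) ^ Kp y ≤ Real.exp (-(0.01 * L)) * y := by rw [← h99]; exact h3
  have e3 : (3 : ℝ) ^ Kp y ≤ θ1 * y := e2.trans (mul_le_mul_of_nonneg_right hB.th hy0.le)
  refine ⟨{ h := ε2 / 1000, J := ⌊0.005 * L / (ε2 / 1000)⌋₊, x := x, K := Kp y, y := y, y2 := y2,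
            t := ξ * L, τ := Real.exp (-(0.01 * L)), hh := hh, hh1 := ?_, hJ := ?_, hx := hx,
            hy := hy1, hyy := hyy', hy2 := hy2, hK := ?_, hK2 := ?_, hτ0 := (Real.exp_pos _).le,
            hτ := hB.th.trans hθ1, hKτ := e2, ht := ?_ }, rfl, rfl, rfl, rfl, rfl, rfl, rfl, rfl⟩
  · linarith
  · rw [Nat.one_le_floor_iff, le_div_iff₀ hh]
    linarith
  · have : ((3 ^ Kp y : ℕ) : ℝ) ≤ ((y2 - y : ℕ) : ℝ) := by
      rw [Nat.cast_sub hyy'.le]
      push_cast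
      linarith
    exact_mod_cast this
  · have : ((2 * 3 ^ Kp y : ℕ) : ℝ) ≤ (y : ℝ) := by
      push_cast
      nlinarith
    exact_mod_cast this
  · have := hB.t20
    rw [div_le_iff₀ hξ] at this
    linarith

/-- the sum of the densities over a set of good roots -/
theorem near_sum (ε2 : ℝ) (hε : 0 < ε2) (hε1 : ε2 ≤ 1) : ∃ m1 : ℕ, 1 ≤ m1 ∧ ∀ m, m1 ≤ m →
    ∀ θ1 : ℝ, 0 < θ1 → θ1 ≤ 1 / 2 → ∃ y0 : ℕ, ∀ y y2 : ℕ, y0 ≤ y → θ1 * y ≤ (y2 : ℝ) - y →
      y2 ≤ 2 * y → ∀ A : Finset ℕ, (∀ a ∈ A, Gd (Kp y) y y2 (Yp y) a) →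
        |∑ a ∈ A, del a - ∑ a ∈ A, 1 / m0 * UKL.f m a / a| ≤ ε2 * (((y2 : ℝ) - y) / y) := by
  obtain ⟨C, hC0, hC⟩ := sum_S1_sub_f Mix.mixing
  obtain ⟨Ct, hCt0, hCt⟩ := Phi_tp Mix.mixing
  obtain ⟨Cw, hCw0, hCw⟩ := window_two Ct hCt0
  set m1 := ⌈22 * C / (0.1 * ε2)⌉₊ + 1 with hm1
  refine ⟨m1, by omega, fun m hm θ1 hθ hθ1 => ?_⟩
  set ξ := ε2 / 10 ^ 6 with hξd
  have hξ : 0 < ξ := by positivity
  have hξ1 : ξ ≤ 1 / 7000 := by
    rw [hξd, div_le_div_iff₀ (by norm_num) (by norm_num)]; linarith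
  have hev := ev_big C Cw ξ (ε2 / 1000) ε2 θ1 m hξ hε hθ
  have hlog : Tendsto (fun y : ℕ => Real.log y) atTop atTop :=
    Real.tendsto_log_atTop.comp tendsto_natCast_atTop_atTop
  obtain ⟨y0, hy0⟩ := eventually_atTop.1 ((hlog.eventually hev).and (eventually_ge_atTop 1))
  refine ⟨y0, fun y y2 hy hyy hy2 A hA => ?_⟩
  obtain ⟨hB, hy1⟩ := hy0 y hy
  set L := Real.log y with hL
  have hL0 := hB.L0
  have hyr : (1 : ℝ) ≤ y := by exact_mod_cast hy1
  have hy0 : (0 : ℝ) < y := by linarith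
  have hyL : (y : ℝ) = Real.exp L := by rw [hL, Real.exp_log hy0]
  have hh : 0 < ε2 / 1000 := by positivity
  set J := ⌊0.005 * L / (ε2 / 1000)⌋₊ with hJ
  set M := ∑ a ∈ A, 1 / m0 * UKL.f m a / a with hM
  set W := ((y2 : ℝ) - y) / y with hW
  have hWθ : θ1 ≤ W := by rw [hW, le_div_iff₀ hy0]; exact hyy
  have hJ1 : 1 ≤ J := by
    rw [hJ, Nat.one_le_floor_iff, le_div_iff₀ hh]
    linarith
  have hmpos : (0 : ℝ) < m := by exact_mod_cast (by omega : 0 < m)
  have hCm : 22 * (C / m) ≤ 0.1 * ε2 := by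
    have h1 : 22 * C / (0.1 * ε2) ≤ m := by
      refine (Nat.le_ceil _).trans ?_
      exact_mod_cast (by omega : ⌈22 * C / (0.1 * ε2)⌉₊ ≤ m)
    rw [div_le_iff₀ (by positivity)] at h1
    rw [← mul_div_assoc, div_le_iff₀ hmpos]
    linarith
  -- the base interval
  have hbase : ∀ z : ℝ, 0 < z → 0.999 * (1.015 * L) ≤ Real.log z → Real.log z ≤ 1.015 * L →
      |Phi (RA A) (ε2 / 1000) J z - M| ≤ 2 * (981 / 1000) ^ Kp y + W * (0.4 * ε2) := by
    intro z hz hz1 hz2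
    obtain ⟨P, p1, p2, p3, p4, p5, p6, p7, p8⟩ := exists_par hξ hξ1 hε hε1 hθ hθ1 hB hy1 hyy hy2 hz
    rw [← hL] at p2 p7 p8
    rw [← hJ] at p2
    have hv : P.v = Real.log z - L := by unfold Par.v; rw [p3, p5]
    have hl : P.l = J * (ε2 / 1000) := by unfold Par.l; rw [p1, p2]
    have hl1 : P.l ≤ 0.005 * L := by
      rw [hl]
      have := Nat.floor_le (show 0 ≤ 0.005 * L / (ε2 / 1000) by positivity)
      rw [← hJ, le_div_iff₀ hh] at this
      exact this
    have hl2 : 0.004 * L ≤ P.l := by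
      rw [hl]
      have h1 := (Nat.sub_one_lt_floor (0.005 * L / (ε2 / 1000))).le
      rw [← hJ, sub_le_iff_le_add, div_le_iff₀ hh] at h1
      have := hB.hh
      nlinarith
    have hK1 := K_le hB.L0
    have hK2 := K_ge (y := y)
    rw [← hL] at hK1 hK2
    have hm0 := m0_le
    have hm0' := m0_ge
    set k1 := ⌊0.08 * L⌋₊ with hk1
    have hk1a : (k1 : ℝ) ≤ 0.08 * L := Nat.floor_le (by linarith)
    have hk1b : 0.08 * L - 1 ≤ k1 := (Nat.sub_one_lt_floor _).le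
    have hmk : (m : ℝ) ≤ k1 := by have := hB.mk1; linarith
    have hW' : P.W = W := by unfold Par.W; rw [p5, p6]
    have hexp : Real.exp (P.J * P.h) * z ≤ Real.exp (1.02 * L) := by
      rw [← Real.exp_log hz, ← Real.exp_add]
      apply Real.exp_le_exp.2
      have : (P.J : ℝ) * P.h = P.l := rfl
      rw [this]
      linarith
    have hnear := P.Phi_near hC0 hC (m := m) (k1 := k1) (Y1 := Yp y) (A := A)
      (by omega) (by exact_mod_cast hmk)
      (by have : (3 : ℝ) ≤ k1 := by linarith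
          exact_mod_cast this)
      (by
        rw [hv, p7]
        have : (k1 : ℝ) * m0 ≤ 0.08 * L * (1 / 6) := by
          apply mul_le_mul hk1a hm0 (by linarith) (by linarith)
        have h2 : 0 ≤ ξ * L := by positivity
        linarith)
      (by
        rw [p4]
        have : (m : ℝ) < Kp y := by linarith
        exact_mod_cast this)
      (by rw [hv]; linarith)
      (by
        rw [p7]
        have : ξ * L ≤ 0.002 * L := by
          apply mul_le_mul_of_nonneg_right _ (by linarith)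
          linarith
        linarith)
      (by
        rw [p4, hv]
        have : 0.1437 * (Kp y : ℝ) ≤ m0 * Kp y := mul_le_mul_of_nonneg_right hm0' (by positivity)
        linarith)
      (by rw [p4, p5, p6]; exact hA)
      (by
        rw [p3, p4]
        calc (2 : ℝ) ^ Kp y ≤ 3 ^ Kp y := by gcongr; norm_num
          _ ≤ Real.exp (0.99 * L) := pow3_le hB.L0
          _ ≤ z := by
            rw [← Real.le_log_iff_exp_le hz]
            linarith)
      (by rw [p3, p4]; exact small hB.L0 hexp)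
    have htot := P.Tot_le hC0 (m := m) (k1 := k1)
      (by have : (3 : ℝ) ≤ k1 := by linarith
          exact_mod_cast this) (L := L) (ξ := ξ) (by linarith) hξ hξ1 p7 hl2 (by rw [p4]; exact hK1)
      (by linarith)
    rw [p1, p8] at htot
    have herr := hB.err
    have htot' : P.Tot C m k1 ≤ 0.4 * ε2 := by
      have : 62700 * ξ = 0.0627 * ε2 := by rw [hξd]; ring
      rw [this] at htot
      linarith
    rw [p1, p2, p3, p4, hW'] at hnear
    exact hnear.trans (add_le_add le_rfl (mul_le_mul_of_nonneg_left htot' (hθ.le.trans hWθ)))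
  have hall := hCw (Phi (RA A) (ε2 / 1000) J) (Real.log (y2 + 2)) M
    (2 * (981 / 1000) ^ Kp y + W * (0.4 * ε2)) (1.015 * L)
    (fun x hx => Phi_mem _ _ _ hx) (by linarith)
    (by
      have h1 : (y2 : ℝ) + 2 ≤ 4 * y := by
        have : (y2 : ℝ) ≤ 2 * y := by exact_mod_cast hy2
        linarith
      have h2 : Real.log (y2 + 2) ≤ Real.log (4 * y) := Real.log_le_log (by positivity) h1
      rw [Real.log_mul (by norm_num) hy0.ne'] at h2
      have h3 := Real.log_le_sub_one_of_pos (x := 4) (by norm_num)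
      linarith)
    (fun s x hs hx hl => hCt (RA A) y2 (ε2 / 1000) J (RA_inv (fun a ha => by
      have := (hA a ha).1
      rw [mem_Ioc] at this
      exact this.2)) hh hJ1 s x hs hx hl)
    hbase
  have hlim := Phi_tendsto (F_RA_tendsto hA) (ε2 / 1000) hJ1
  have hle : |∑ a ∈ A, del a - M| ≤ 2 * (981 / 1000) ^ Kp y + W * (0.4 * ε2) + Cw / (1.015 * L) := by
    exact le_of_tendsto ((hlim.sub_const M).abs)
      ((eventually_ge_atTop (0.999 * (1.015 * L))).mono fun u hu =>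
        hall _ (Real.exp_pos _) (by rw [Real.log_exp]; exact hu))
  have h9 := pow981_le hB.L0
  rw [← hL] at h9
  have hc1 := hB.c1
  have hc2 := hB.c2
  have he0 := Real.exp_pos (-(0.01 * L))
  have hf : 0.2 * ε2 * θ1 ≤ 0.2 * ε2 * W := mul_le_mul_of_nonneg_left hWθ (by positivity)
  have hW0 : 0 ≤ ε2 * W := mul_nonneg hε.le (hθ.le.trans hWθ)
  have hgoal : 2 * (981 / 1000 : ℝ) ^ Kp y + W * (0.4 * ε2) + Cw / (1.015 * L) ≤ ε2 * W := by
    have e1 : W * (0.4 * ε2) = 0.4 * (ε2 * W) := by ring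
    have e2 : 0.2 * ε2 * θ1 = 2 * (0.1 * ε2 * θ1) := by ring
    have e3 : 0.2 * ε2 * W = 0.2 * (ε2 * W) := by ring
    rw [e2, e3] at hf
    rw [e1]
    linarith only [h9, hc1, hc2, he0, hf, hW0]
  exact hle.trans hgoal

end DF
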