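import Mathlib
import Pool.Agent.Lib_helper1.DF.Main3

/-!
# Almost all `a`
-/

set_option autoImplicit false

namespace DF

open Finset ND PD Pool.Agent.LibHelper3 Filter Topology
open scoped Classical

theorem mul_exp_tend : Tendsto (fun L : ℝ => 0.9 * L * Real.exp (-(0.005 * L))) atTop (𝓝 0) := by
  have h1 := (Real.tendsto_pow_mul_exp_neg_atTop_nhds_zero 1).comp
    (tendsto_id.const_mul_atTop (show (0 : ℝ) < 0.005 by norm_num))
  have h2 := h1.const_mul 180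
  rw [mul_zero] at h2
  refine h2.congr (fun L => ?_)
  simp only [Function.comp_apply, id_eq, pow_one]
  ring

/-- few roots are not good -/
theorem few_not_good {ε : ℝ} (hε : 0 < ε) {j0 : ℕ} (hj0 : 40 ≤ j0)
    (hj : 106 * ((981 : ℝ) / 1000) ^ j0 ≤ ε / 4) : ∃ y0 : ℕ, ∀ y y2 : ℕ, y0 ≤ y → y ≤ y2 →
      1 / (4 * 2 ^ j0) * (y : ℝ) ≤ (y2 : ℝ) - y → 2 * 2 ^ j0 * (y2 - y) ≤ y →
      (((Ioc y y2).filter (fun a => ¬ Gd (Kp y) y y2 (Yp y) a)).card : ℝ) ≤
        ε / 2 * ((y2 : ℝ) - y) := by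
  set θ1 : ℝ := 1 / (4 * 2 ^ j0) with hθ1
  have hθ : 0 < θ1 := by positivity
  have hlog : Tendsto (fun y : ℕ => Real.log y) atTop atTop :=
    Real.tendsto_log_atTop.comp tendsto_natCast_atTop_atTop
  have e1 : Tendsto (fun L : ℝ => 2 * Real.exp (-(0.01 * L))) atTop (𝓝 0) := by
    have := (exp_tend (c := 0.01) (by norm_num)).const_mul 2
    rwa [mul_zero] at this
  have e1' : Tendsto (fun L : ℝ => Real.exp (-(0.01 * L))) atTop (𝓝 0) := exp_tend (by norm_num)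
  have hev : ∀ᶠ L : ℝ in atTop, 60000 ≤ L ∧ 2 * Real.exp (-(0.01 * L)) ≤ ε / 8 ∧
      0.9 * L * Real.exp (-(0.005 * L)) ≤ ε / 8 * θ1 ∧ Real.exp (-(0.01 * L)) ≤ θ1 := by
    filter_upwards [eventually_ge_atTop 60000, e1.eventually (ge_mem_nhds (show (0 : ℝ) < ε / 8 by positivity)),
      mul_exp_tend.eventually (ge_mem_nhds (show (0 : ℝ) < ε / 8 * θ1 by positivity)),
      e1'.eventually (ge_mem_nhds hθ)] with L a b c d
    exact ⟨a, b, c, d⟩
  obtain ⟨y0, hy0⟩ := eventually_atTop.1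
    ((hlog.eventually hev).and (eventually_ge_atTop (2 * 4 ^ j0)))
  refine ⟨y0, fun y y2 hy hyy hd1 hd2 => ?_⟩
  obtain ⟨⟨hL0, hb, hc, hd⟩, h4⟩ := hy0 y hy
  set L := Real.log y with hL
  have hy1 : 1 ≤ y := by
    have : 1 ≤ 2 * 4 ^ j0 := by have := Nat.one_le_pow j0 4 (by norm_num); omega
    omega
  have hyr : (1 : ℝ) ≤ y := by exact_mod_cast hy1
  have hy0 : (0 : ℝ) < y := by linarith
  have hyL : (y : ℝ) = Real.exp L := by rw [hL, Real.exp_log hy0]
  have hy2 : y2 ≤ 2 * y := by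
    have h1 : 1 ≤ 2 * 2 ^ j0 := by have := Nat.one_le_pow j0 2 (by norm_num); omega
    have h2 : y2 - y ≤ 2 * 2 ^ j0 * (y2 - y) := Nat.le_mul_of_pos_left _ (by omega)
    omega
  have h99 : Real.exp (0.99 * L) = Real.exp (-(0.01 * L)) * y := by
    rw [hyL, ← Real.exp_add]; congr 1; ring
  have h3 := pow3_le hL0
  have hdiff : (0 : ℝ) ≤ (y2 : ℝ) - y := le_trans (by positivity) hd1
  have h := good_card (K := Kp y) (Y1 := Yp y) hyy hy2
    (by
      have : (Yp y : ℝ) ≤ y := by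
        refine Y_le.trans ?_
        rw [← hL, hyL]
        exact Real.exp_le_exp.2 (by linarith)
      exact_mod_cast this)
    (by
      have : ((2 ^ Kp y : ℕ) : ℝ) ≤ ((y2 - y : ℕ) : ℝ) := by
        rw [Nat.cast_sub hyy]
        push_cast
        calc (2 : ℝ) ^ Kp y ≤ 3 ^ Kp y := by gcongr; norm_num
          _ ≤ Real.exp (0.99 * L) := h3
          _ = Real.exp (-(0.01 * L)) * y := h99
          _ ≤ θ1 * y := mul_le_mul_of_nonneg_right hd hy0.le
          _ ≤ _ := hd1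
      exact_mod_cast this)
    hj0 hd2 h4
    (by
      apply small hL0
      rw [← hL]
      have h5 : (y2 : ℝ) ≤ 2 * y := by exact_mod_cast hy2
      have h6 : (2 : ℝ) ≤ Real.exp (0.02 * L) := by
        have := Real.add_one_le_exp (0.02 * L)
        linarith
      have h7 : Real.exp (1.02 * L) = Real.exp (0.02 * L) * y := by
        rw [hyL, ← Real.exp_add]; congr 1; ring
      rw [h7]
      exact h5.trans (mul_le_mul_of_nonneg_right h6 hy0.le))
  refine h.trans ?_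
  have h9 := pow981_le hL0
  rw [← hL] at h9
  have t1 : 2 * ((y2 : ℝ) - y) * (981 / 1000) ^ Kp y ≤ ε / 8 * ((y2 : ℝ) - y) := by
    calc 2 * ((y2 : ℝ) - y) * (981 / 1000) ^ Kp y ≤ 2 * ((y2 : ℝ) - y) * Real.exp (-(0.01 * L)) :=
          mul_le_mul_of_nonneg_left h9 (by positivity)
      _ = (2 * Real.exp (-(0.01 * L))) * ((y2 : ℝ) - y) := by ring
      _ ≤ _ := mul_le_mul_of_nonneg_right hb hdiff
  have t2 : (Yp y : ℝ) * Kp y ≤ ε / 8 * ((y2 : ℝ) - y) := by
    have k1 := K_le hL0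
    have k2 := Y_le (y := y)
    rw [← hL] at k1 k2
    calc (Yp y : ℝ) * Kp y ≤ Real.exp (0.995 * L) * (0.9 * L) :=
          mul_le_mul k2 k1 (by positivity) (Real.exp_pos _).le
      _ = (0.9 * L * Real.exp (-(0.005 * L))) * y := by
          have : Real.exp (0.995 * L) = Real.exp (-(0.005 * L)) * y := by
            rw [hyL, ← Real.exp_add]; congr 1; ring
          rw [this]; ring
      _ ≤ (ε / 8 * θ1) * y := mul_le_mul_of_nonneg_right hc hy0.le
      _ = ε / 8 * (θ1 * y) := by ring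
      _ ≤ _ := mul_le_mul_of_nonneg_left hd1 (by positivity)
  have t3 : 2 * ((y2 : ℝ) - y) * ((981 / 1000) ^ j0 * 53) ≤ ε / 4 * ((y2 : ℝ) - y) := by
    calc 2 * ((y2 : ℝ) - y) * ((981 / 1000) ^ j0 * 53) =
          (106 * (981 / 1000) ^ j0) * ((y2 : ℝ) - y) := by ring
      _ ≤ _ := mul_le_mul_of_nonneg_right hj hdiff
  linarith

/-- one block -/
theorem block (ε : ℝ) (hε : 0 < ε) (hε1 : ε ≤ 1) : ∃ (j0 m1 : ℕ), 1 ≤ m1 ∧ ∀ m, m1 ≤ m →
    ∃ y0 : ℕ, ∀ y y2 : ℕ, y0 ≤ y → y ≤ y2 → 1 / (4 * 2 ^ j0) * (y : ℝ) ≤ (y2 : ℝ) - y →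
      2 * 2 ^ j0 * (y2 - y) ≤ y →
      (((Ioc y y2).filter (fun a : ℕ => ε < |(a : ℝ) * del a - 1 / m0 * UKL.f m a|)).card : ℝ) ≤
        ε * ((y2 : ℝ) - y) := by
  obtain ⟨j1, hj1⟩ := exists_pow_lt_of_lt_one (show (0 : ℝ) < ε / 424 by positivity)
    (show ((981 : ℝ) / 1000) < 1 by norm_num)
  set j0 := max 40 j1 with hj0
  have hj : 106 * ((981 : ℝ) / 1000) ^ j0 ≤ ε / 4 := by
    have : ((981 : ℝ) / 1000) ^ j0 ≤ (981 / 1000) ^ j1 :=
      pow_le_pow_of_le_one (by norm_num) (by norm_num) (le_max_right _ _)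
    linarith
  obtain ⟨ya, hya⟩ := few_not_good hε (le_max_left 40 j1) hj
  rw [← hj0] at hya
  obtain ⟨m1, hm1, hm⟩ := near_sum (ε ^ 2 / 8) (by positivity) (by nlinarith)
  refine ⟨j0, m1, hm1, fun m hmm => ?_⟩
  have hθ : (0 : ℝ) < 1 / (4 * 2 ^ j0) := by positivity
  have hθ1 : (1 : ℝ) / (4 * 2 ^ j0) ≤ 1 / 2 := by
    rw [div_le_div_iff₀ (by positivity) (by norm_num)]
    have : (1 : ℝ) ≤ 2 ^ j0 := one_le_pow₀ (by norm_num)
    linarith
  obtain ⟨yb, hyb⟩ := hm m hmm _ hθ hθ1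
  refine ⟨max (max ya yb) 1, fun y y2 hy hyy hd1 hd2 => ?_⟩
  have hy1 : 1 ≤ y := (le_max_right _ _).trans hy
  have hyr : (1 : ℝ) ≤ y := by exact_mod_cast hy1
  have hy0 : (0 : ℝ) < y := by linarith
  have hy2 : y2 ≤ 2 * y := by
    have h1 : 1 ≤ 2 * 2 ^ j0 := by have := Nat.one_le_pow j0 2 (by norm_num); omega
    have h2 : y2 - y ≤ 2 * 2 ^ j0 * (y2 - y) := Nat.le_mul_of_pos_left _ (by omega)
    omega
  have hy2r : (y2 : ℝ) ≤ 2 * y := by exact_mod_cast hy2
  have hdiff : (0 : ℝ) ≤ (y2 : ℝ) - y := le_trans (by positivity) hd1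
  have hng := hya y y2 ((le_max_left _ _).trans ((le_max_left _ _).trans hy)) hyy hd1 hd2
  have hns := hyb y y2 ((le_max_right _ _).trans ((le_max_left _ _).trans hy)) hd1 hy2
  set G := (Ioc y y2).filter (fun a => Gd (Kp y) y y2 (Yp y) a) with hG
  set Ap := G.filter (fun a : ℕ => ε < (a : ℝ) * del a - 1 / m0 * UKL.f m a) with hAp
  set Am := G.filter (fun a : ℕ => ε < 1 / m0 * UKL.f m a - (a : ℝ) * del a) with hAm
  set Ng := (Ioc y y2).filter (fun a => ¬ Gd (Kp y) y y2 (Yp y) a) with hNg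
  -- one signed part
  have hpart : ∀ (A : Finset ℕ) (s : ℝ), |s| = 1 → A ⊆ G →
      (∀ a ∈ A, ε < s * ((a : ℝ) * del a - 1 / m0 * UKL.f m a)) →
      (A.card : ℝ) ≤ ε / 4 * ((y2 : ℝ) - y) := by
    intro A s hs hAG hA
    have h1 := hns A (fun a ha => (mem_filter.1 (hAG ha)).2)
    rw [← sum_sub_distrib] at h1
    have h2 : (A.card : ℝ) * (ε / (2 * y)) ≤ s * ∑ a ∈ A, (del a - 1 / m0 * UKL.f m a / a) := by
      rw [mul_sum, ← nsmul_eq_mul]
      apply card_nsmul_le_sum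
      intro a ha
      have ha1 := hA a ha
      have ha2 := (mem_filter.1 (hAG ha)).1
      rw [mem_Ioc] at ha2
      have ha0 : (0 : ℝ) < a := by exact_mod_cast (by omega : 0 < a)
      have ha3 : (a : ℝ) ≤ 2 * y := by
        refine le_trans ?_ hy2r
        exact_mod_cast ha2.2
      have e : s * (del a - 1 / m0 * UKL.f m a / a) =
          s * ((a : ℝ) * del a - 1 / m0 * UKL.f m a) / a := by
        field_simp
      rw [e]
      calc ε / (2 * y) ≤ ε / a := div_le_div_of_nonneg_left hε.le ha0 ha3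
        _ ≤ _ := div_le_div_of_nonneg_right ha1.le ha0.le
    have h3 : s * ∑ a ∈ A, (del a - 1 / m0 * UKL.f m a / a) ≤ ε ^ 2 / 8 * (((y2 : ℝ) - y) / y) := by
      refine le_trans (le_abs_self _) ?_
      rw [abs_mul, hs, one_mul]
      exact h1
    have h4 := h2.trans h3
    have e1 : (A.card : ℝ) * (ε / (2 * y)) = A.card * ε / 2 / y := by field_simp
    have e2 : ε ^ 2 / 8 * (((y2 : ℝ) - y) / y) = ε ^ 2 / 8 * ((y2 : ℝ) - y) / y := by ring
    rw [e1, e2, div_le_div_iff_of_pos_right hy0] at h4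
    have h5 : ε * (A.card : ℝ) ≤ ε * (ε / 4 * ((y2 : ℝ) - y)) := by
      calc ε * (A.card : ℝ) = 2 * (A.card * ε / 2) := by ring
        _ ≤ 2 * (ε ^ 2 / 8 * ((y2 : ℝ) - y)) := by linarith
        _ = _ := by ring
    exact le_of_mul_le_mul_left h5 hε
  have hp := hpart Ap 1 (by norm_num) (filter_subset _ _) (fun a ha => by
    rw [one_mul]; exact (mem_filter.1 ha).2)
  have hm' := hpart Am (-1) (by norm_num) (filter_subset _ _) (fun a ha => by
    have := (mem_filter.1 ha).2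
    linarith)
  have hsub : (Ioc y y2).filter (fun a : ℕ => ε < |(a : ℝ) * del a - 1 / m0 * UKL.f m a|) ⊆
      Ng ∪ (Ap ∪ Am) := by
    intro a ha
    rw [mem_filter] at ha
    rw [mem_union, mem_union]
    by_cases hg : Gd (Kp y) y y2 (Yp y) a
    · right
      have hg' : a ∈ G := mem_filter.2 ⟨ha.1, hg⟩
      rcases lt_abs.1 ha.2 with h | h
      · left; exact mem_filter.2 ⟨hg', h⟩
      · right; exact mem_filter.2 ⟨hg', by linarith⟩
    · left; exact mem_filter.2 ⟨ha.1, hg⟩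
  have hcard : (((Ioc y y2).filter (fun a : ℕ => ε < |(a : ℝ) * del a - 1 / m0 * UKL.f m a|)).card : ℝ) ≤
      Ng.card + (Ap.card + Am.card) := by
    have h1 := card_le_card hsub
    have h2 := card_union_le Ng (Ap ∪ Am)
    have h3 := card_union_le Ap Am
    exact_mod_cast (by omega : _ ≤ Ng.card + (Ap.card + Am.card))
  linarith

/-- from blocks to intervals `[1, Y]` -/
theorem blocks_to_all {p : ℕ → Prop} [DecidablePred p] {ε : ℝ} (hε : 0 < ε) {j0 y0 : ℕ}
    (hb : ∀ y y2 : ℕ, y0 ≤ y → y ≤ y2 → 1 / (4 * 2 ^ j0) * (y : ℝ) ≤ (y2 : ℝ) - y →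
      2 * 2 ^ j0 * (y2 - y) ≤ y → (((Ioc y y2).filter p).card : ℝ) ≤ ε * ((y2 : ℝ) - y)) :
    ∃ c : ℕ, ∀ Y : ℕ, (((Ioc 0 Y).filter p).card : ℝ) ≤ c + ε * Y := by
  set q := 2 * 2 ^ j0 with hq
  have hq2 : 2 ≤ q := by have := Nat.one_le_pow j0 2 (by norm_num); omega
  refine ⟨2 * y0 + 8 * q + 8, fun Y => ?_⟩
  induction Y using Nat.strong_induction_on with
  | _ Y ih =>
    by_cases hY : Y ≤ 2 * y0 + 8 * q + 8
    · have h1 : ((Ioc 0 Y).filter p).card ≤ Y := by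
        refine (card_filter_le _ _).trans ?_
        simp
      have h2 : (((Ioc 0 Y).filter p).card : ℝ) ≤ ((2 * y0 + 8 * q + 8 : ℕ) : ℝ) := by
        exact_mod_cast h1.trans hY
      have : 0 ≤ ε * (Y : ℝ) := by positivity
      linarith
    · push Not at hY
      -- `d = ⌊Y / (q + 1)⌋`
      set d := Y / (q + 1) with hd
      have hd1 : (q + 1) * d ≤ Y := Nat.mul_div_le Y (q + 1)
      have hd2 : Y < (q + 1) * (d + 1) := Nat.lt_mul_div_succ Y (by omega)
      have hd8 : 2 ≤ d := by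
        by_contra hc
        have : d ≤ 1 := by omega
        have : (q + 1) * (d + 1) ≤ (q + 1) * 2 := Nat.mul_le_mul_left _ (by omega)
        omega
      have hdY : d ≤ Y := by nlinarith
      have hy : Y - d < Y := by omega
      have h3 : 3 * d ≤ (q + 1) * d := Nat.mul_le_mul_right _ (by omega)
      have hb' := hb (Y - d) Y (by omega) (by omega)
        (by
          rw [Nat.cast_sub hdY]
          have e : (1 : ℝ) / (4 * 2 ^ j0) = 1 / (2 * q) := by rw [hq]; push_cast; congr 1; ring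
          have hq0 : (0 : ℝ) < q := by exact_mod_cast (by omega : 0 < q)
          rw [e, div_mul_eq_mul_div, one_mul, div_le_iff₀ (by positivity)]
          have e2 : (Y : ℝ) < (q + 1) * (d + 1) := by exact_mod_cast hd2
          have e3 : (2 : ℝ) ≤ d := by exact_mod_cast hd8
          have e4 : (2 : ℝ) ≤ q := by exact_mod_cast hq2
          nlinarith)
        (by
          have : Y - (Y - d) = d := by omega
          rw [this]
          have : q * d + d = (q + 1) * d := by ring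
          omega)
      have hih := ih (Y - d) hy
      have hsplit : (Ioc 0 Y).filter p = (Ioc 0 (Y - d)).filter p ∪ (Ioc (Y - d) Y).filter p := by
        rw [← filter_union, Ioc_union_Ioc_eq_Ioc (by omega) (by omega)]
      have hc : (((Ioc 0 Y).filter p).card : ℝ) ≤
          ((Ioc 0 (Y - d)).filter p).card + ((Ioc (Y - d) Y).filter p).card := by
        rw [hsplit]
        exact_mod_cast card_union_le _ _
      have e : ε * ((Y - d : ℕ) : ℝ) + ε * ((Y : ℝ) - ((Y - d : ℕ) : ℝ)) = ε * Y := by ring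
      linarith

/-- the density formula in measure -/
theorem in_measure (ε : ℝ) (hε : 0 < ε) : ∃ m1 : ℕ, 1 ≤ m1 ∧ ∀ m, m1 ≤ m → ∃ Y0 : ℕ, ∀ Y, Y0 ≤ Y →
    (((Ioc 0 Y).filter (fun a : ℕ => ε < |(a : ℝ) * del a - 1 / m0 * UKL.f m a|)).card : ℝ) ≤ ε * Y := by
  set ε' := min ε 1 / 2 with hε'
  have h0 : 0 < ε' := by rw [hε']; have := lt_min hε one_pos; positivity
  have h1 : ε' ≤ 1 := by rw [hε']; have := min_le_right ε 1; linarith
  have h2 : 2 * ε' ≤ ε := by rw [hε']; have := min_le_left ε 1; linarith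
  obtain ⟨j0, m1, hm1, h⟩ := block ε' h0 h1
  refine ⟨m1, hm1, fun m hm => ?_⟩
  obtain ⟨y0, hy0⟩ := h m hm
  obtain ⟨c, hc⟩ := blocks_to_all h0 hy0
  refine ⟨⌈c / ε'⌉₊, fun Y hY => ?_⟩
  have h3 : (c : ℝ) ≤ ε' * Y := by
    have : (c : ℝ) / ε' ≤ Y := (Nat.le_ceil _).trans (by exact_mod_cast hY)
    rw [div_le_iff₀ h0] at this
    linarith
  have h4 : (((Ioc 0 Y).filter (fun a : ℕ => ε < |(a : ℝ) * del a - 1 / m0 * UKL.f m a|)).card : ℝ) ≤
      ((Ioc 0 Y).filter (fun a : ℕ => ε' < |(a : ℝ) * del a - 1 / m0 * UKL.f m a|)).card := by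
    have : ((Ioc 0 Y).filter (fun a : ℕ => ε < |(a : ℝ) * del a - 1 / m0 * UKL.f m a|)).card ≤
        ((Ioc 0 Y).filter (fun a : ℕ => ε' < |(a : ℝ) * del a - 1 / m0 * UKL.f m a|)).card := by
      apply card_le_card
      intro a ha
      rw [mem_filter] at ha ⊢
      exact ⟨ha.1, by linarith [ha.2]⟩
    exact_mod_cast this
  have h5 := hc Y
  have h6 : 2 * ε' * (Y : ℝ) ≤ ε * Y := mul_le_mul_of_nonneg_right h2 (by positivity)
  linarith

end DF
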