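import Mathlib
import Pool.Agent.Lib_helper1.DF.Main4
import Pool.Agent.Lib_helper1.DF.Law

/-!
# The density formula
-/

set_option autoImplicit false

namespace DF

open Finset ND PD Pool.Agent.LibHelper3 Filter Topology

theorem tendsto_ncard {B : Set ℕ} {δ : ℝ}
    (h : Tendsto (fun x : ℕ => A B x / x) atTop (𝓝 δ)) :
    Tendsto (fun x : ℕ => ({n : ℕ | 1 ≤ n ∧ n ≤ x ∧ n ∈ B}.ncard : ℝ) / x) atTop (𝓝 δ) := by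
  refine h.congr (fun x => ?_)
  rw [A_eq_ncard]

theorem m0_inv : 1 / m0 = 2 / Real.log (4 / 3) := by
  unfold m0
  rw [one_div_div]

theorem formula : ∃ (δ : ℕ → ℝ) (p : ℕ → ℕ → ℝ),
    (∀ a : ℕ, Tendsto (fun x : ℕ =>
      ({n : ℕ | 1 ≤ n ∧ n ≤ x ∧ ∃ k, short^[k] n = a}.ncard : ℝ) / x) atTop (𝓝 (δ a))) ∧
    (∀ m r : ℕ, ∃ d : ℕ → ℝ, (∀ k : ℕ, Tendsto (fun x : ℕ =>
      ({n : ℕ | 1 ≤ n ∧ n ≤ x ∧ short^[k] n % 3 ^ m = r % 3 ^ m}.ncard : ℝ) / x) atTop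
        (𝓝 (d k))) ∧ Tendsto d atTop (𝓝 (p m r))) ∧
    (∀ A : ℕ, ∃ C : ℝ, ∀ m n : ℕ, 1 ≤ m → m ≤ n →
      ∑ r ∈ range (3 ^ n), |p n r - p m r / 3 ^ (n - m)| ≤ C / (m : ℝ) ^ A) ∧
    (∀ ε : ℝ, 0 < ε → ∃ M : ℕ, ∀ m : ℕ, M ≤ m → ∃ Y₀ : ℕ, ∀ Y : ℕ, Y₀ ≤ Y →
      ({a : ℕ | 1 ≤ a ∧ a ≤ Y ∧
        ε < |(a : ℝ) * δ a - 2 / Real.log (4 / 3) * (3 ^ m * p m a)|}.ncard : ℝ) ≤ ε * Y) := by
  refine ⟨del, fun m r => UKL.f m r / 3 ^ m, fun a => ?_, fun m r => ?_, fun A => ?_, fun ε hε => ?_⟩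
  · exact tendsto_nat (del_spec a)
  · obtain ⟨d, h1, h2⟩ := limit_law m r
    exact ⟨d, fun k => tendsto_ncard (h1 k), h2⟩
  · obtain ⟨C, hC0, hC⟩ := l1 Mix.mixing A
    refine ⟨C, fun m n hm hmn => ?_⟩
    have h3 : (0 : ℝ) < 3 ^ n := by positivity
    have h := hC m n hm hmn
    have e : ∀ r ∈ range (3 ^ n), |UKL.f n r / 3 ^ n - UKL.f m r / 3 ^ m / 3 ^ (n - m)| =
        |UKL.f n r - UKL.f m r| / 3 ^ n := by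
      intro r _
      rw [div_div, ← pow_add, Nat.add_sub_cancel' hmn, ← sub_div, abs_div, abs_of_pos h3]
    rw [sum_congr rfl e, ← sum_div, div_le_iff₀ h3]
    linarith
  · obtain ⟨m1, hm1, h⟩ := in_measure ε hε
    refine ⟨m1, fun m hm => ?_⟩
    obtain ⟨Y0, hY0⟩ := h m hm
    refine ⟨Y0, fun Y hY => ?_⟩
    refine le_trans (le_of_eq ?_) (hY0 Y hY)
    rw [← Set.ncard_coe_finset]
    congr 2
    ext a
    rw [m0_inv]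
    have e : (3 : ℝ) ^ m * (UKL.f m a / 3 ^ m) = UKL.f m a := by field_simp
    simp only [Set.mem_setOf_eq, coe_filter, mem_Ioc, e]
    constructor
    · rintro ⟨h1, h2, h3⟩; exact ⟨⟨by omega, h2⟩, h3⟩
    · rintro ⟨⟨h1, h2⟩, h3⟩; exact ⟨by omega, h2, h3⟩

end DF
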